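import Mathlib

/-!
# Numbers of linear extensions of down-sets

`r` is a relation on a finite type `V` (a partial order in the applications).  `Dn r D`: the
finite set `D` is a down-set.  `ed r D` is the number of linear extensions of the down-set `D`,
`eu r D` the number of linear extensions of the complement of `D`.
-/

set_option autoImplicit false

namespace Pool.Agent.W3

open Finset

variable {V : Type*}

/-- `D` is a down-set -/
def Dn (r : V → V → Prop) (D : Finset V) : Prop := ∀ x ∈ D, ∀ y, r y x → y ∈ D

/-- a partial order -/
structure Po (r : V → V → Prop) : Prop where
  refl : ∀ a, r a a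
  trans : ∀ a b c, r a b → r b c → r a c
  anti : ∀ a b, r a b → r b a → a = b

/-- the dual order -/
abbrev fl (r : V → V → Prop) : V → V → Prop := fun a b => r b a

variable [Fintype V] [DecidableEq V]

open Classical in
/-- the elements which can be added to `D` -/
noncomputable def nx (r : V → V → Prop) (D : Finset V) : Finset V :=
  univ.filter fun a => a ∉ D ∧ Dn r (insert a D)

open Classical in
/-- the elements which can be removed from `D` -/
noncomputable def pv (r : V → V → Prop) (D : Finset V) : Finset V :=
  univ.filter fun a => a ∈ D ∧ Dn r (D.erase a)

/-- the lists `a₁, ..., a_k` such that `D, D + a₁, D + a₁ + a₂, ...` are down-sets -/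
noncomputable def LS (r : V → V → Prop) : ℕ → Finset V → Finset (List V)
  | 0, _ => {[]}
  | k + 1, D => (nx r D).biUnion fun a => (LS r k (insert a D)).image (List.cons a)

/-- number of linear extensions of the complement of the down-set `D` -/
noncomputable def eu (r : V → V → Prop) (D : Finset V) : ℕ := (LS r Dᶜ.card D).card

/-- number of linear extensions of the down-set `D` -/
noncomputable def ed (r : V → V → Prop) (D : Finset V) : ℕ := eu (fl r) Dᶜ

end Pool.Agent.W3
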