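import Pool.Agent.BFT.Lists
import Pool.Agent.BFT.Major
import Pool.Agent.W3.Defs

/-!
# Width three: down-sets, the harmonic function `H`, hazards and path probabilities

`r : V → V → Prop` is a partial order on a finite type.  `e r S` (module `BFT/USet`) is the number
of linear extensions of the restriction of `r` to `S`.  For a down-set `D` we put
`H r D = e r Dᶜ`, the number of linear extensions of the complement.
-/

set_option autoImplicit false

namespace Pool.Agent.W3

open Finset Pool.BFT

section Gen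

variable {V : Type*} [Fintype V] [DecidableEq V]

/-- number of linear extensions of the complement -/
noncomputable def H (r : V → V → Prop) (D : Finset V) : ℕ := e r Dᶜ

variable {r : V → V → Prop}

omit [Fintype V] [DecidableEq V] in
theorem dn_empty : Dn r ∅ := fun x hx => absurd hx (notMem_empty x)

omit [DecidableEq V] in
theorem dn_univ : Dn r univ := fun _ _ y _ => mem_univ y

omit [Fintype V] in
theorem Dn.inter {A B : Finset V} (hA : Dn r A) (hB : Dn r B) : Dn r (A ∩ B) := by
  intro x hx y hy
  rw [mem_inter] at hx ⊢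
  exact ⟨hA x hx.1 y hy, hB x hx.2 y hy⟩

omit [Fintype V] in
theorem Dn.union {A B : Finset V} (hA : Dn r A) (hB : Dn r B) : Dn r (A ∪ B) := by
  intro x hx y hy
  rw [mem_union] at hx ⊢
  exact hx.imp (fun h => hA x h y hy) (fun h => hB x h y hy)

theorem mem_nx {D : Finset V} {a : V} : a ∈ nx r D ↔ a ∉ D ∧ Dn r (insert a D) := by
  simp [nx]

/-- an element can be added iff it is not in `D` and everything strictly below is in `D` -/
theorem mem_nx_iff {D : Finset V} (hD : Dn r D) {a : V} :
    a ∈ nx r D ↔ a ∉ D ∧ ∀ b, r b a → b ≠ a → b ∈ D := by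
  rw [mem_nx]
  refine and_congr_right fun _ => ⟨fun h b hb hne => ?_, fun h x hx y hy => ?_⟩
  · exact (mem_insert.1 (h a (mem_insert_self a D) b hb)).resolve_left hne
  · rw [mem_insert] at hx ⊢
    rcases hx with rfl | hx
    · by_cases hyx : y = x
      · exact Or.inl hyx
      · exact Or.inr (h y hy hyx)
    · exact Or.inr (hD x hx y hy)

theorem nx_mono {D D' : Finset V} (hD : Dn r D) (hD' : Dn r D') (h : D ⊆ D') {a : V}
    (ha : a ∈ nx r D) (ha' : a ∉ D') : a ∈ nx r D' := by
  rw [mem_nx_iff hD] at ha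
  rw [mem_nx_iff hD']
  exact ⟨ha', fun b hb hne => h (ha.2 b hb hne)⟩

theorem e_univ_pos (hr : Po r) : 0 < e r univ := e_pos' r hr.trans hr.anti univ

theorem H_empty : H r ∅ = e r univ := by
  rw [H, compl_empty]

theorem H_pos (hr : Po r) (D : Finset V) : 0 < H r D := e_pos' r hr.trans hr.anti _

/-- `H` is harmonic -/
theorem H_rec {D : Finset V} (hD : Dn r D) (hD' : D ≠ univ) :
    H r D = ∑ a ∈ nx r D, H r (insert a D) := by
  classical
  have hne : (Dᶜ : Finset V).Nonempty := by
    rw [nonempty_iff_ne_empty, Ne, compl_eq_empty_iff]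
    exact hD'
  unfold H
  rw [e_rec_min' r hne]
  refine sum_congr ?_ fun a _ => ?_
  · ext a
    rw [mem_filter, mem_nx_iff hD, mem_compl, Mn]
    refine and_congr_right fun _ => ⟨fun h b hb hne => ?_, fun h b hb hba => ?_⟩
    · by_contra hbD
      exact hne (h b (mem_compl.2 hbD) hb)
    · by_contra hne
      exact mem_compl.1 hb (h b hba hne)
  · rw [compl_insert]

theorem H_step_le {D : Finset V} (hD : Dn r D) {a : V} (ha : a ∈ nx r D) :
    H r (insert a D) ≤ H r D := by
  have hne : D ≠ univ := fun h => (mem_nx.1 ha).1 (h ▸ mem_univ a)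
  rw [H_rec hD hne]
  exact single_le_sum (f := fun a => H r (insert a D)) (fun b _ => Nat.zero_le _) ha

omit [Fintype V] in
/-- a nonempty down-set has a maximal element -/
theorem exists_max (hr : Po r) {D : Finset V} (hD : Dn r D) (hne : D.Nonempty) :
    ∃ a ∈ D, Dn r (D.erase a) := by
  obtain ⟨a, ha, hmax⟩ : ∃ a ∈ D, ∀ b ∈ D, r a b → b = a := by
    have : ∀ T : Finset V, T.Nonempty → ∃ w ∈ T, ∀ b ∈ T, r w b → b = w := by
      intro T
      induction T using Finset.induction_on with
      | empty => intro h; exact absurd h (by simp)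
      | insert a T haT ihT =>
        intro _
        rcases T.eq_empty_or_nonempty with rfl | hT
        · refine ⟨a, by simp, fun b hb _ => ?_⟩
          simpa using hb
        · obtain ⟨w, hwT, hw⟩ := ihT hT
          by_cases hwa : r w a
          · refine ⟨a, by simp, fun b hb hab => ?_⟩
            rcases Finset.mem_insert.1 hb with rfl | hb
            · rfl
            · have h1 := hw b hb (hr.trans _ _ _ hwa hab)
              subst h1
              exact (hr.anti _ _ hwa hab)
          · refine ⟨w, Finset.mem_insert_of_mem hwT, fun b hb hwb => ?_⟩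
            rcases Finset.mem_insert.1 hb with rfl | hb
            · exact absurd hwb hwa
            · exact hw b hb hwb
    exact this D hne
  refine ⟨a, ha, fun x hx y hy => ?_⟩
  rw [mem_erase] at hx ⊢
  refine ⟨?_, hD x hx.2 y hy⟩
  rintro rfl
  exact hx.1 (hmax x hx.2 hy)

/-- a proper down-set can be enlarged -/
theorem nx_nonempty (hr : Po r) {D : Finset V} (hD : Dn r D) (hne : D ≠ univ) :
    (nx r D).Nonempty := by
  by_contra h
  rw [not_nonempty_iff_eq_empty] at h
  have h1 := H_rec hD hne
  rw [h, sum_empty] at h1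
  exact (H_pos hr D).ne' h1

/-- `H D ≤ H ∅` -/
theorem H_le (hr : Po r) {D : Finset V} (hD : Dn r D) : H r D ≤ H r ∅ := by
  induction hk : D.card generalizing D with
  | zero => rw [card_eq_zero.1 hk]
  | succ k ih =>
    obtain ⟨a, ha, hDa⟩ := exists_max hr hD (card_pos.1 (by omega))
    have h1 := ih hDa (by rw [card_erase_of_mem ha, hk]; rfl)
    have h2 := H_step_le hDa (a := a) (mem_nx.2 ⟨notMem_erase a D, by
      rwa [insert_erase ha]⟩)
    rw [insert_erase ha] at h2
    exact h2.trans h1

/-- log-supermodularity of the number of linear extensions of down-sets -/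
theorem e_mul_le {A B : Finset V} (hA : Dn r A) (hB : Dn r B) :
    e r A * e r B ≤ e r (A ∩ B) * e r (A ∪ B) :=
  u1 r univ A B ⟨subset_univ _, fun a ha b _ hb => hA a ha b hb⟩
    ⟨subset_univ _, fun a ha b _ hb => hB a ha b hb⟩

/-- log-supermodularity of `H` -/
theorem H_mul_le {A B : Finset V} (hA : Dn r A) (hB : Dn r B) :
    H r A * H r B ≤ H r (A ∩ B) * H r (A ∪ B) := by
  have hc : ∀ {A : Finset V}, Dn r A → Upp r univ Aᶜ := by
    intro A hA
    refine ⟨subset_univ _, fun a ha b _ hab => ?_⟩
    rw [mem_compl] at ha ⊢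
    exact fun hb => ha (hA b hb a hab)
  have h := u1_up r univ Aᶜ Bᶜ (hc hA) (hc hB)
  rw [← compl_union, ← compl_inter, mul_comm (e r (A ∪ B)ᶜ)] at h
  exact h

/-- the hazard `H (D + w) / H D` is monotone in `D` -/
theorem hazard_mono {D D' : Finset V} (hD' : Dn r D') (h : D ⊆ D')
    {w : V} (hw : Dn r (insert w D)) (hw' : w ∉ D') :
    H r (insert w D) * H r D' ≤ H r (insert w D') * H r D := by
  have h1 := H_mul_le hw hD'
  have h2 : insert w D ∩ D' = D := by
    rw [insert_inter_of_notMem hw']
    exact inter_eq_left.2 h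
  have h3 : insert w D ∪ D' = insert w D' := by
    rw [insert_union, union_eq_right.2 h]
  rw [h2, h3, mul_comm (H r D)] at h1
  exact h1

/-- the same for the numbers of linear extensions of down-sets -/
theorem e_hazard_mono {D D' : Finset V} (hD' : Dn r D') (h : D ⊆ D')
    {w : V} (hw : Dn r (insert w D)) (hw' : w ∉ D') :
    e r (insert w D) * e r D' ≤ e r (insert w D') * e r D := by
  have h1 := e_mul_le hw hD'
  have h2 : insert w D ∩ D' = D := by
    rw [insert_inter_of_notMem hw']
    exact inter_eq_left.2 h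
  have h3 : insert w D ∪ D' = insert w D' := by
    rw [insert_union, union_eq_right.2 h]
  rw [h2, h3, mul_comm (e r D)] at h1
  exact h1

/-- the weight `e D * H (D + w)` of the paths which add `w` to `D` is log-supermodular -/
theorem mu_mul_le {w : V} {A B : Finset V} (hA : Dn r A) (hB : Dn r B)
    (hwA : Dn r (insert w A)) (hwB : Dn r (insert w B)) :
    (e r A * H r (insert w A)) * (e r B * H r (insert w B)) ≤
      (e r (A ∩ B) * H r (insert w (A ∩ B))) * (e r (A ∪ B) * H r (insert w (A ∪ B))) := by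
  have h1 := e_mul_le hA hB
  have h2 := H_mul_le hwA hwB
  rw [← insert_inter_distrib, ← insert_union_distrib] at h2
  calc (e r A * H r (insert w A)) * (e r B * H r (insert w B))
      = (e r A * e r B) * (H r (insert w A) * H r (insert w B)) := by ring
    _ ≤ (e r (A ∩ B) * e r (A ∪ B)) *
        (H r (insert w (A ∩ B)) * H r (insert w (A ∪ B))) := Nat.mul_le_mul h1 h2
    _ = _ := by ring

theorem mem_pv {D : Finset V} {a : V} : a ∈ pv r D ↔ a ∈ D ∧ Dn r (D.erase a) := by
  simp [pv]

/-- the recursion for the number of linear extensions of a down-set -/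
theorem e_dn_rec {D : Finset V} (hD : Dn r D) (hne : D ≠ ∅) :
    e r D = ∑ a ∈ pv r D, e r (D.erase a) := by
  classical
  rw [e_rec r (nonempty_iff_ne_empty.2 hne)]
  refine sum_congr ?_ fun _ _ => rfl
  ext a
  rw [mem_filter, mem_pv, Mx]
  refine and_congr_right fun ha => ⟨fun h x hx y hy => ?_, fun h b hb hab => ?_⟩
  · rw [mem_erase] at hx ⊢
    refine ⟨?_, hD x hx.2 y hy⟩
    rintro rfl
    exact hx.1 (h x hx.2 hy)
  · by_contra hne
    exact (mem_erase.1 (h b (mem_erase.2 ⟨hne, hb⟩) a hab)).1 rfl

end Gen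

/-! ### Path probabilities -/

section Path

open Pool.Agent.Helper1.Balance Pool.Agent.Helper8.KS Pool.Agent.Helper18.KSC

variable {n : ℕ} {r : Fin n → Fin n → Prop}

theorem po_of (hr : IsPoset r) : Po r := ⟨hr.1, hr.2.1, hr.2.2⟩

theorem card_true {α : Type*} (s : Finset α) (inst : DecidablePred fun _ : α => True) :
    (@Finset.filter α (fun _ => True) inst s).card = s.card := by
  have h : inst = fun _ => instDecidableTrue := Subsingleton.elim _ _
  subst h
  rw [filter_true_of_mem fun _ _ => trivial]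

theorem card_LEs_eq : (LEs r).card = e r univ := by
  have h := card_LEs r (fun _ => True)
  rw [card_true, card_true] at h
  rw [h, card_LL']

/-- the elements before `x` form the set `D` -/
def Bf (x : Fin n) (D : Finset (Fin n)) (σ : Equiv.Perm (Fin n)) : Prop :=
  ∀ z, z ∈ D ↔ σ z < σ x

theorem bf_iff (x : Fin n) (D : Finset (Fin n)) (σ : Equiv.Perm (Fin n)) :
    Bf x D σ ↔ ∃ P S, lst σ = P ++ x :: S ∧ P.toFinset = D ∧ True := by
  have hn := lst_nodup σ
  have key : ∀ P S, lst σ = P ++ x :: S → ∀ z, z ∈ P ↔ σ z < σ x := by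
    intro P S h z
    rw [Fin.lt_def, ← idxOf_lst, ← idxOf_lst, h]
    rw [h, List.nodup_append] at hn
    have hx : x ∉ P := fun hx => hn.2.2 x hx x (by simp) rfl
    rw [List.idxOf_append_of_notMem hx, List.idxOf_cons_self, Nat.add_zero]
    constructor
    · intro hz
      rw [List.idxOf_append_of_mem hz]
      exact List.idxOf_lt_length_iff.2 hz
    · intro hz
      by_contra hzP
      rw [List.idxOf_append_of_notMem hzP] at hz
      omega
  constructor
  · intro h
    obtain ⟨P, S, hPS⟩ := List.append_of_mem (mem_lst σ x)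
    refine ⟨P, S, hPS, ?_, trivial⟩
    ext z
    rw [List.mem_toFinset, key P S hPS z, h z]
  · rintro ⟨P, S, hPS, rfl, -⟩ z
    rw [List.mem_toFinset]
    exact key P S hPS z

theorem cpt_iff {x : Fin n} {D : Finset (Fin n)} :
    Cpt r (univ.erase x) x D ↔ Dn r D ∧ x ∈ nx r D := by
  rw [mem_nx]
  constructor
  · rintro ⟨h1, h2, h3, h4⟩
    have hx : x ∉ D := fun h => (mem_erase.1 (h1 h)).1 rfl
    have hD : Dn r D := by
      intro a ha b hb
      by_contra hbD
      by_cases hbx : b = x
      · subst hbx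
        exact h2 a ha hb
      · exact h4 a ha b (mem_sdiff.2 ⟨mem_erase.2 ⟨hbx, mem_univ b⟩, hbD⟩) hb
    refine ⟨hD, hx, fun a ha b hb => ?_⟩
    rw [mem_insert] at ha ⊢
    rcases ha with rfl | ha
    · by_contra hcon
      rw [not_or] at hcon
      exact h3 b (mem_sdiff.2 ⟨mem_erase.2 ⟨hcon.1, mem_univ b⟩, hcon.2⟩) hb
    · exact Or.inr (hD a ha b hb)
  · rintro ⟨hD, hx, hDx⟩
    refine ⟨fun a ha => mem_erase.2 ⟨fun h => hx (h ▸ ha), mem_univ a⟩, fun a ha hxa => ?_,
      fun b hb hbx => ?_, fun a ha b hb hba => ?_⟩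
    · exact hx (hD a ha x hxa)
    · rw [mem_sdiff, mem_erase] at hb
      have h := hDx x (mem_insert_self x D) b hbx
      rw [mem_insert] at h
      rcases h with h | h
      · exact hb.1.1 h
      · exact hb.2 h
    · rw [mem_sdiff] at hb
      exact hb.2 (hD a ha b hba)

open Classical in
/-- **the path formula**: the law of the set of the elements before `x` -/
theorem Pr_bf (x : Fin n) (D : Finset (Fin n)) :
    Pr r (Bf x D) = (if Dn r D ∧ x ∈ nx r D then (e r D : ℝ) * H r (insert x D) else 0) /
      e r univ := by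
  have h1 : ((LEs r).filter (Bf x D)).card =
      if Dn r D ∧ x ∈ nx r D then e r D * e r (insert x D)ᶜ else 0 := by
    have h2 := card_LEs r (fun l => ∃ P S, l = P ++ x :: S ∧ P.toFinset = D ∧ True)
    have h3 : (LEs r).filter (Bf x D) = (LEs r).filter
        (fun σ => ∃ P S, lst σ = P ++ x :: S ∧ P.toFinset = D ∧ True) :=
      filter_congr fun σ _ => bf_iff x D σ
    rw [h3]
    refine h2.trans ?_
    rw [presuf r (mem_univ x) (fun P => P.toFinset = D) (fun _ => True)]
    have h4 : ∀ A : Finset (Fin n), A ≠ D →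
        ∀ inst : DecidablePred fun P : List (Fin n) => P.toFinset = D,
        ((LL r A).filter fun P => P.toFinset = D).card = 0 := by
      intro A hA inst
      rw [card_eq_zero, filter_eq_empty_iff]
      intro P hP h
      exact hA ((mem_LL.1 hP).2.1.symm.trans h)
    have h5 : ∀ inst : DecidablePred fun P : List (Fin n) => P.toFinset = D,
        ((LL r D).filter fun P => P.toFinset = D).card = e r D := by
      intro inst
      rw [filter_true_of_mem fun P hP => (mem_LL.1 hP).2.1, card_LL']
    have h6 : (univ.erase x) \ D = (insert x D)ᶜ := by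
      ext z
      simp only [mem_sdiff, mem_erase, mem_univ, and_true, mem_compl, mem_insert, not_or]
    by_cases hc : Cpt r (univ.erase x) x D
    · rw [if_pos (cpt_iff.1 hc), sum_eq_single D]
      · rw [h5, card_true, card_LL', h6]
      · intro A _ hA
        rw [h4 A hA, zero_mul]
      · intro h
        exact absurd (mem_filter.2 ⟨mem_powerset.2 hc.1, hc⟩) h
    · rw [if_neg fun h => hc (cpt_iff.2 h)]
      refine sum_eq_zero fun A hA => ?_
      rw [h4 A ?_, zero_mul]
      rintro rfl
      exact hc (mem_filter.1 hA).2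
  rw [Pool.Agent.BFT.Pr_eq_card, card_LEs_eq]
  have h7 : ((LEs r).filter (Bf x D)).card = (((LEs r).filter fun σ => Bf x D σ).card) := rfl
  rw [← h7, h1]
  split_ifs
  · unfold H
    push_cast
    rfl
  · simp

open Classical in
/-- the sets which can occur before `x` while `y` comes later -/
noncomputable def Sx (r : Fin n → Fin n → Prop) (x y : Fin n) : Finset (Finset (Fin n)) :=
  univ.filter fun D => Dn r D ∧ y ∉ D ∧ x ∉ D ∧ Dn r (insert x D)

theorem mem_Sx {x y : Fin n} {D : Finset (Fin n)} :
    D ∈ Sx r x y ↔ Dn r D ∧ y ∉ D ∧ x ∉ D ∧ Dn r (insert x D) := by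
  simp [Sx]

theorem mem_Sx' {x y : Fin n} {D : Finset (Fin n)} :
    D ∈ Sx r x y ↔ Dn r D ∧ y ∉ D ∧ x ∈ nx r D := by
  rw [mem_Sx, mem_nx]

theorem bf_inj {x : Fin n} {D D' : Finset (Fin n)} {σ : Equiv.Perm (Fin n)} (h : Bf x D σ)
    (h' : Bf x D' σ) : D = D' := by
  ext z
  rw [h z, h' z]

theorem bf_filter (x : Fin n) (σ : Equiv.Perm (Fin n)) :
    Bf x (univ.filter fun z => σ z < σ x) σ := by
  intro z
  simp

theorem filter_mem_Sx {x y : Fin n} {σ : Equiv.Perm (Fin n)} (hσ : σ ∈ LEs r)
    (h : σ x ≤ σ y) : (univ.filter fun z => σ z < σ x) ∈ Sx r x y := by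
  rw [Pool.Agent.BFT.mem_LEs] at hσ
  have hD : Dn r (univ.filter fun z => σ z < σ x) := by
    intro a ha b hb
    simp only [mem_filter, mem_univ, true_and] at ha ⊢
    exact lt_of_le_of_lt (hσ b a hb) ha
  rw [mem_Sx']
  refine ⟨hD, ?_, ?_⟩
  · simp only [mem_filter, mem_univ, true_and, not_lt]
    exact h
  · rw [mem_nx_iff hD]
    refine ⟨by simp, fun b hb hne => ?_⟩
    simp only [mem_filter, mem_univ, true_and]
    exact lt_of_le_of_ne (hσ b x hb) fun h' => hne (σ.injective h')

theorem Pr_bf_of_mem {x y : Fin n} {D : Finset (Fin n)} (hD : D ∈ Sx r x y) :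
    Pr r (Bf x D) = ((e r D * H r (insert x D) : ℕ) : ℝ) / e r univ := by
  classical
  rw [mem_Sx'] at hD
  rw [Pr_bf, if_pos ⟨hD.1, hD.2.2⟩]
  push_cast
  rfl

open Classical in
/-- `Pr[x < y]` as a sum over down-sets -/
theorem prob_eq_sum {x y : Fin n} (hxy : x ≠ y) :
    prob r x y = ((∑ D ∈ Sx r x y, e r D * H r (insert x D) : ℕ) : ℝ) / e r univ := by
  rw [Pool.Agent.BFT.prob_eq_Pr, Nat.cast_sum, sum_div]
  rw [sum_congr rfl fun D hD => (Pr_bf_of_mem hD).symm]
  unfold Pr Ex
  rw [← sum_div, sum_comm]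
  congr 1
  refine sum_congr rfl fun σ hσ => ?_
  beta_reduce
  by_cases h : σ x < σ y
  · rw [if_pos h, sum_eq_single (univ.filter fun z => σ z < σ x)]
    · rw [if_pos (bf_filter x σ)]
    · intro D _ hne
      rw [if_neg]
      intro hb
      exact hne (bf_inj hb (bf_filter x σ))
    · intro hn
      exact absurd (filter_mem_Sx hσ h.le) hn
  · rw [if_neg h]
    symm
    refine sum_eq_zero fun D hD => ?_
    rw [if_neg]
    intro hb
    rw [mem_Sx] at hD
    have h2 : ¬ σ y < σ x := fun h' => hD.2.1 ((hb y).2 h')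
    exact hxy (σ.injective (le_antisymm (not_lt.1 h2) (not_lt.1 h)))

/-- if `Pr[x < y] ≤ p / q` then the sum over the down-sets is at most `p / q` of all -/
theorem sum_le_of_prob (hr : IsPoset r) {x y : Fin n} (hxy : x ≠ y) {p q : ℕ} (hq : 0 < q)
    (h : prob r x y ≤ (p : ℝ) / q) :
    q * ∑ D ∈ Sx r x y, e r D * H r (insert x D) ≤ p * H r ∅ := by
  rw [prob_eq_sum hxy, div_le_div_iff₀ (by exact_mod_cast e_univ_pos (po_of hr))
    (by exact_mod_cast hq)] at h
  rw [H_empty, mul_comm q]
  exact_mod_cast h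

/-- every element has a set before it -/
theorem sum_bf (hr : IsPoset r) (x : Fin n) :
    ∑ D ∈ Sx r x x, e r D * H r (insert x D) = H r ∅ := by
  classical
  have h0 : (0 : ℝ) < e r univ := by exact_mod_cast e_univ_pos (po_of hr)
  have h2 : Pr r (fun _ => True) = 1 := by
    have := Ex_const hr 1
    simpa [Pr] using this
  have h3 : ((∑ D ∈ Sx r x x, e r D * H r (insert x D) : ℕ) : ℝ) / e r univ =
      Pr r (fun _ => True) := by
    rw [Nat.cast_sum, sum_div, sum_congr rfl fun D hD => (Pr_bf_of_mem hD).symm]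
    unfold Pr Ex
    rw [← sum_div, sum_comm]
    congr 1
    refine sum_congr rfl fun σ hσ => ?_
    beta_reduce
    rw [if_pos trivial, sum_eq_single (univ.filter fun z => σ z < σ x)]
    · rw [if_pos (bf_filter x σ)]
    · intro D _ hne
      rw [if_neg]
      intro hb
      exact hne (bf_inj hb (bf_filter x σ))
    · intro hn
      exact absurd (filter_mem_Sx hσ le_rfl) hn
  rw [h2, div_eq_one_iff_eq h0.ne'] at h3
  rw [H_empty]
  exact_mod_cast h3

end Path

end Pool.Agent.W3
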