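import Pool.Agent.W3.Defs

/-!
# The interface between the order theory and the finite search

A `World r` collects everything the finite search uses about a finite poset `r` of width `3`
which is not a linear sum and whose balance constant is below `167/500`.

* `G D` is the number of linear extensions of the complement of the down-set `D`,
* `e D` is the number of linear extensions of the down-set `D`,
* `pos` is the majority order.
-/

set_option autoImplicit false

namespace Pool.Agent.W3

open Finset

/-- numerators (denominator `10 ^ 6`) of the spine constants for the threshold `167/500`: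
`nb` blockers below, `na` blockers above -/
def cst : ℕ → ℕ → ℕ
  | 0, 0 => 1000000
  | 0, 1 => 666000
  | 1, 0 => 666000
  | 1, 1 => 332000
  | 0, 2 => 443556
  | 2, 0 => 443556
  | 1, 2 => 165501
  | 2, 1 => 165501
  | 2, 2 => 77954
  | _, _ => 0

variable {V : Type} [Fintype V] [DecidableEq V]

/-- the elements before `w` -/
def before (pos : V → ℕ) (w : V) : Finset V := univ.filter fun v => pos v < pos w

open Classical in
/-- number of maximal elements of the set before `w` which are not below `w` -/
noncomputable def nbl (r : V → V → Prop) (pos : V → ℕ) (w : V) : ℕ :=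
  ((pv r (before pos w)).filter fun a => ¬ r a w).card

/-- number of elements other than `w` which can be added to the set before `w` -/
noncomputable def nab (r : V → V → Prop) (pos : V → ℕ) (w : V) : ℕ :=
  ((nx r (before pos w)).erase w).card

open Classical in
/-- what the search uses about a poset -/
structure World (r : V → V → Prop) where
  /-- a partial order -/
  po : Po r
  /-- no antichain with four elements -/
  wid : ∀ s : Finset V, (∀ a ∈ s, ∀ b ∈ s, a ≠ b → ¬ r a b) → s.card ≤ 3
  /-- an antichain with three elements -/
  anti : ∃ s : Finset V, (∀ a ∈ s, ∀ b ∈ s, a ≠ b → ¬ r a b) ∧ s.card = 3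
  /-- not a linear sum -/
  indec : ∀ X : Finset V, Dn r X → X ≠ ∅ → X ≠ univ → ∃ a ∈ X, ∃ b, b ∉ X ∧ ¬ r a b
  /-- number of linear extensions of the complement -/
  G : Finset V → ℕ
  /-- number of linear extensions -/
  e : Finset V → ℕ
  G_pos : ∀ D, Dn r D → 0 < G D
  harm : ∀ D, Dn r D → D ≠ univ → G D = ∑ a ∈ nx r D, G (insert a D)
  e_empty : e ∅ = 1
  e_rec : ∀ D, Dn r D → D ≠ ∅ → e D = ∑ a ∈ pv r D, e (D.erase a)
  /-- the hazard of `w` is monotone -/
  haz : ∀ D E w, Dn r D → Dn r E → D ⊆ E → w ∉ E → Dn r (insert w D) →
    G (insert w D) * G E ≤ G (insert w E) * G D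
  /-- the majority order -/
  pos : V → ℕ
  pos_inj : Function.Injective pos
  pos_mono : ∀ a b, r a b → pos a ≤ pos b
  pos_lt : ∀ a, pos a < Fintype.card V
  /-- `b` comes before `a` with probability at most `167/500` -/
  maj : ∀ a b, pos a < pos b →
    500 * ∑ D ∈ univ.filter (fun D => Dn r D ∧ a ∉ D ∧ b ∉ D ∧ Dn r (insert b D)),
      e D * G (insert b D) ≤ 167 * G ∅
  /-- the spine lemma -/
  spine : ∀ w, cst (nbl r pos w) (nab r pos w) * G ∅ ≤
    1000000 * (e (before pos w) * G (insert w (before pos w)))

end Pool.Agent.W3
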