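import Mathlib

/-!
# Block matrices with nonnegative minors

The numerical part of the spine lemma: a `3 × 3` (`3 × 2`, `2 × 2`) matrix of natural numbers with
nonnegative `2 × 2` minors, total `N`, whose first and last rows and columns have sum at most
`167/500` of `N`, has a large central entry.
-/

set_option autoImplicit false

namespace Pool.Agent.W3

/-- The asymmetric half of `tp33_real`. -/
theorem tp33_half (T b c e f g h i w : ℝ) (hT0 : 0 ≤ T) (hT : T ≤ 7 / 20)
    (hb : 0 ≤ b) (hc : 0 ≤ c) (he : 0 ≤ e) (hf : 0 ≤ f) (hg : 0 ≤ g) (hi : 0 ≤ i)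
    (hw : 2 * w = 1 - 2 * T - e) (hw0 : 0 < w)
    (H : T * e < w * (w + e))
    (h1 : 2 * w ≤ b + h) (h3 : 2 * w ≤ b + c + f)
    (m1 : f * h ≤ e * i) (m2 : c * h ≤ b * i)
    (r : g + h + i ≤ T) (hbf : b ≤ f) (hfw : f < w) : False := by
  -- `(f + e) h ≤ T e`
  have h4 : (f + e) * h ≤ T * e := by nlinarith
  have h5 : (f + e) * (2 * w - f) ≤ T * e := by
    have : 2 * w - f ≤ h := by linarith
    nlinarith
  have h6 : (w - f) * (w - f - e) > 0 := by nlinarith
  have h7 : e < w - f := by
    have : 0 < w - f := by linarith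
    by_contra hcon
    nlinarith
  -- `(b + c) h ≤ b T`
  have h8 : (b + c) * h ≤ b * T := by nlinarith
  have h9 : (2 * w - f) * (2 * w - f) ≤ f * T := by
    have e1 : 2 * w - f ≤ b + c := by linarith
    have e2 : 2 * w - b ≤ h := by linarith
    have e3 : 0 < 2 * w - f := by linarith
    have e4 : 2 * w - f ≤ 2 * w - b := by linarith
    calc (2 * w - f) * (2 * w - f) ≤ (b + c) * h := by
          apply mul_le_mul e1 (by linarith) e3.le (by linarith)
      _ ≤ b * T := h8
      _ ≤ f * T := mul_le_mul_of_nonneg_right hbf hT0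
  obtain ⟨y, hy⟩ : ∃ y, y = 2 * w - f := ⟨_, rfl⟩
  have hfy : f = 2 * w - y := by linarith
  rw [hfy] at h5 h9
  have y0 : w + e < y := by linarith
  have q1 : (2 * w - y + e) * y ≤ T * e := by
    have : 2 * w - (2 * w - y) = y := by ring
    rw [this] at h5; exact h5
  have q2 : y * y ≤ (2 * w - y) * T := by
    have : 2 * w - (2 * w - y) = y := by ring
    rw [this] at h9; exact h9
  have yp : 0 < y := by linarith
  have q3 : y * y * y ≤ T * (T * e - e * y) := by
    have s1 : y * y * y ≤ (2 * w - y) * T * y := mul_le_mul_of_nonneg_right q2 yp.le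
    have s2 : T * ((2 * w - y + e) * y) ≤ T * (T * e) := mul_le_mul_of_nonneg_left q1 hT0
    nlinarith
  obtain ⟨s, hs⟩ : ∃ s, s = w + e := ⟨_, rfl⟩
  have s0 : 0 < s := by linarith
  have sy : s < y := by linarith
  have q4 : s * s * s ≤ T * (T * e - e * s) := by
    have a1 : s * s ≤ y * y := mul_self_le_mul_self s0.le sy.le
    have a2 : s * s * s ≤ y * y * y := by
      apply mul_le_mul a1 sy.le s0.le (by positivity)
    have a3 : T * e * s ≤ T * e * y := mul_le_mul_of_nonneg_left sy.le (by positivity)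
    nlinarith
  have hT2 : T = (1 - (2 * s - e)) / 2 := by
    have : 2 * s = 1 - 2 * T + e := by rw [hs]; linarith
    linarith
  have hl : 3 / 10 + e ≤ 2 * s := by linarith
  rw [hT2] at q4 hT0
  -- `(l + e)^3 ≤ 2 (1 - l) e (1 - 2 l - e)` with `2 s = l + e`
  obtain ⟨t, ht⟩ : ∃ t, t = 2 * s - e - 3 / 10 := ⟨_, rfl⟩
  have hs2 : s = (t + 3 / 10 + e) / 2 := by linarith
  have t0 : 0 ≤ t := by linarith
  have t1 : t ≤ 7 / 10 := by linarith
  rw [hs2] at q4
  have q5 : (t + 3 / 10 + e) ^ 3 ≤ 2 * (7 / 10 - t) * e * (4 / 10 - 2 * t - e) := by nlinarith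
  have q6 : (3 / 10 + e) ^ 3 ≤ (t + 3 / 10 + e) ^ 3 := by gcongr; linarith
  rcases le_total (4 / 10 - 2 * t - e) 0 with h0 | h0
  · have : 2 * (7 / 10 - t) * e * (4 / 10 - 2 * t - e) ≤ 0 :=
      mul_nonpos_of_nonneg_of_nonpos (mul_nonneg (by linarith) he) h0
    have : 0 < (3 / 10 + e) ^ 3 := by positivity
    linarith
  · have q7 : 2 * (7 / 10 - t) * e * (4 / 10 - 2 * t - e) ≤ 2 * (7 / 10) * e * (4 / 10 - e) := by
      apply mul_le_mul _ (by linarith) h0 (by positivity)
      nlinarith
    nlinarith [sq_nonneg (e - 63 / 1000), mul_nonneg he (sq_nonneg e)]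

/-- Two entries next to a corner are not both large. -/
theorem lt_of_big (T e w x y a : ℝ) (he : 0 ≤ e) (hw0 : 0 < w) (H : T * e < w * (w + e))
    (m : x * y ≤ a * e) (r : a + y ≤ T) (hyw : w ≤ y) : x < w := by
  by_contra h0
  push Not at h0
  have x1 : x * y + e * y ≤ T * e := by
    have := mul_le_mul_of_nonneg_right r he
    linarith
  have x2 : w * (w + e) ≤ (x + e) * y := by
    calc w * (w + e) = (w + e) * w := by ring
      _ ≤ (x + e) * y := by
        apply mul_le_mul (by linarith) hyw hw0.le (by linarith)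
  linarith

/-- The central entry of a `3 × 3` matrix with nonnegative minors (real form). -/
theorem tp33_real (T a b c d e f g h i : ℝ) (hT0 : 0 ≤ T) (hT : T ≤ 7 / 20)
    (ha : 0 ≤ a) (hb : 0 ≤ b) (hc : 0 ≤ c) (hd : 0 ≤ d) (he : 0 ≤ e) (hf : 0 ≤ f)
    (hg : 0 ≤ g) (hh : 0 ≤ h) (hi : 0 ≤ i)
    (tot : a + b + c + d + e + f + g + h + i = 1)
    (r0 : a + b + c ≤ T) (r2 : g + h + i ≤ T) (c0 : a + d + g ≤ T) (c2 : c + f + i ≤ T)
    (m1 : b * d ≤ a * e) (m2 : f * h ≤ e * i) (m3 : c * d ≤ a * f) (m4 : c * h ≤ b * i)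
    (m5 : b * g ≤ a * h) (m6 : f * g ≤ d * i) :
    (1 - 2 * T) ^ 2 ≤ e ^ 2 + 4 * T * e := by
  by_contra hcon
  push Not at hcon
  obtain ⟨w, hw⟩ : ∃ w, w = (1 - 2 * T - e) / 2 := ⟨_, rfl⟩
  have hw' : 2 * w = 1 - 2 * T - e := by linarith
  have hw0 : 0 < w := by
    have hl : 0 ≤ 1 - 2 * T := by linarith
    have : e ^ 2 < (1 - 2 * T) ^ 2 := by
      have : 0 ≤ 4 * T * e := by positivity
      linarith
    have : e < 1 - 2 * T := lt_of_pow_lt_pow_left₀ 2 hl this
    linarith
  have H : T * e < w * (w + e) := by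
    have : w * (w + e) = ((1 - 2 * T) ^ 2 - e ^ 2) / 4 := by rw [hw]; ring
    rw [this]; linarith
  have h1 : 2 * w ≤ b + h := by linarith
  have h2 : 2 * w ≤ d + f := by linarith
  have h3 : 2 * w ≤ b + c + f := by linarith
  have h3' : 2 * w ≤ d + g + h := by linarith
  rcases lt_or_ge b w with hbw | hbw
  · have hfw : f < w :=
      lt_of_big T e w f h i he hw0 H (by linarith) (by linarith) (by linarith)
    rcases le_total b f with hbf | hbf
    · exact tp33_half T b c e f g h i w hT0 hT hb hc he hf hg hi hw' hw0 H h1 h3 m2 m4 r2 hbf hfw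
    · exact tp33_half T f c e b g d a w hT0 hT hf hc he hb hg ha hw' hw0 H (by linarith)
        (by linarith) (by linarith) (by linarith) (by linarith) hbf hbw
  · have hdw : d < w :=
      lt_of_big T e w d b a he hw0 H (by linarith) (by linarith) hbw
    have hhw : h < w :=
      lt_of_big T e w h f i he hw0 H (by linarith) (by linarith) (by linarith)
    rcases le_total d h with hdh | hdh
    · exact tp33_half T d g e h c f i w hT0 hT hd hg he hh hc hi hw' hw0 H h2
        (by linarith) (by linarith) (by linarith) c2 hdh hhw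
    · exact tp33_half T h g e d c b a w hT0 hT hh hg he hd hc ha hw' hw0 H (by linarith)
        (by linarith) (by linarith) (by linarith) (by linarith) hdh hdw

/-- Two blockers below, two blockers above. -/
theorem tp33 (N a b c d e f g h i : ℕ)
    (tot : a + b + c + d + e + f + g + h + i = N)
    (r0 : 500 * (a + b + c) ≤ 167 * N) (r2 : 500 * (g + h + i) ≤ 167 * N)
    (c0 : 500 * (a + d + g) ≤ 167 * N) (c2 : 500 * (c + f + i) ≤ 167 * N)
    (m1 : b * d ≤ a * e) (m2 : f * h ≤ e * i) (m3 : c * d ≤ a * f) (m4 : c * h ≤ b * i)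
    (m5 : b * g ≤ a * h) (m6 : f * g ≤ d * i) :
    77954 * N ≤ 1000000 * e := by
  rcases Nat.eq_zero_or_pos N with h0 | h0
  · subst h0; simp
  have hN : (0 : ℝ) < N := by exact_mod_cast h0
  have key := tp33_real (167 / 500) (a / N) (b / N) (c / N) (d / N) (e / N) (f / N) (g / N)
    (h / N) (i / N) (by norm_num) (by norm_num) (by positivity) (by positivity) (by positivity)
    (by positivity) (by positivity) (by positivity) (by positivity) (by positivity)
    (by positivity)
    (by
      rw [← tot] at hN ⊢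
      push_cast at hN ⊢
      field_simp)
    (by
      rw [← add_div, ← add_div, div_le_iff₀ hN]
      have : (500 : ℝ) * (a + b + c) ≤ 167 * N := by exact_mod_cast r0
      linarith)
    (by
      rw [← add_div, ← add_div, div_le_iff₀ hN]
      have : (500 : ℝ) * (g + h + i) ≤ 167 * N := by exact_mod_cast r2
      linarith)
    (by
      rw [← add_div, ← add_div, div_le_iff₀ hN]
      have : (500 : ℝ) * (a + d + g) ≤ 167 * N := by exact_mod_cast c0
      linarith)
    (by
      rw [← add_div, ← add_div, div_le_iff₀ hN]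
      have : (500 : ℝ) * (c + f + i) ≤ 167 * N := by exact_mod_cast c2
      linarith)
    (by
      rw [div_mul_div_comm, div_mul_div_comm]
      have : (b : ℝ) * d ≤ a * e := by exact_mod_cast m1
      gcongr)
    (by
      rw [div_mul_div_comm, div_mul_div_comm]
      have : (f : ℝ) * h ≤ e * i := by exact_mod_cast m2
      gcongr)
    (by
      rw [div_mul_div_comm, div_mul_div_comm]
      have : (c : ℝ) * d ≤ a * f := by exact_mod_cast m3
      gcongr)
    (by
      rw [div_mul_div_comm, div_mul_div_comm]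
      have : (c : ℝ) * h ≤ b * i := by exact_mod_cast m4
      gcongr)
    (by
      rw [div_mul_div_comm, div_mul_div_comm]
      have : (b : ℝ) * g ≤ a * h := by exact_mod_cast m5
      gcongr)
    (by
      rw [div_mul_div_comm, div_mul_div_comm]
      have : (f : ℝ) * g ≤ d * i := by exact_mod_cast m6
      gcongr)
  have hx : (77954 : ℝ) / 1000000 ≤ e / N := by
    by_contra hcon
    push Not at hcon
    have hp : (0 : ℝ) ≤ (e : ℝ) / N := by positivity
    nlinarith
  rw [div_le_div_iff₀ (by norm_num) hN] at hx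
  have : (77954 : ℝ) * N ≤ 1000000 * e := by linarith
  exact_mod_cast this

/-- One blocker below, two blockers above: rows `-, 0, +`, columns `0, +`. -/
theorem tp32 (N b c e f h i : ℕ)
    (tot : b + c + e + f + h + i = N)
    (r0 : 500 * (b + c) ≤ 167 * N) (r2 : 500 * (h + i) ≤ 167 * N)
    (c2 : 500 * (c + f + i) ≤ 167 * N)
    (m2 : f * h ≤ e * i) :
    165501 * N ≤ 1000000 * e := by
  rcases Nat.eq_zero_or_pos N with h0 | h0
  · subst h0; simp
  have hN : (0 : ℝ) < N := by exact_mod_cast h0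
  have t' : (b : ℝ) + c + e + f + h + i = N := by exact_mod_cast tot
  have r0' : (500 : ℝ) * (b + c) ≤ 167 * N := by exact_mod_cast r0
  have r2' : (500 : ℝ) * (h + i) ≤ 167 * N := by exact_mod_cast r2
  have c2' : (500 : ℝ) * (c + f + i) ≤ 167 * N := by exact_mod_cast c2
  have m' : (f : ℝ) * h ≤ e * i := by exact_mod_cast m2
  have hc : (0 : ℝ) ≤ c := by positivity
  have he : (0 : ℝ) ≤ e := by positivity
  obtain ⟨S, hS⟩ : ∃ S : ℝ, S = e + f + h + i := ⟨_, rfl⟩
  have s1 : 333 / 500 * (N : ℝ) ≤ S := by linarith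
  have s2 : S - 167 / 500 * N ≤ e + h := by linarith
  have s3 : S - 167 / 500 * N ≤ e + f := by linarith
  have s4 : (S - 167 / 500 * N) * (S - 167 / 500 * N) ≤ e * S := by
    calc (S - 167 / 500 * N) * (S - 167 / 500 * N) ≤ (e + h) * (e + f) := by
          apply mul_le_mul s2 s3 (by linarith) (by positivity)
      _ ≤ e * S := by rw [hS]; nlinarith
  have hx : (165501 : ℝ) * N ≤ 1000000 * e := by
    by_contra hcon
    push Not at hcon
    have hSp : 0 < S := by linarith
    have z1 : 1000000 * ((S - 167 / 500 * N) * (S - 167 / 500 * N)) ≤ 165501 * N * S := by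
      calc 1000000 * ((S - 167 / 500 * N) * (S - 167 / 500 * N)) ≤ 1000000 * (e * S) := by
            linarith
        _ = (1000000 * e) * S := by ring
        _ ≤ 165501 * N * S := mul_le_mul_of_nonneg_right hcon.le hSp.le
    obtain ⟨u, hu⟩ : ∃ u : ℝ, S = 333 / 500 * N + u := ⟨S - 333 / 500 * N, by ring⟩
    have u0 : 0 ≤ u := by linarith
    rw [hu] at z1
    nlinarith [mul_nonneg u0 hN.le, mul_nonneg u0 u0, mul_pos hN hN]
  exact_mod_cast hx

/-- No blocker below, two blockers above (or dually). -/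
theorem tp22 (N e f h i : ℕ) (tot : e + f + h + i = N)
    (r2 : 500 * (h + i) ≤ 167 * N) (c2 : 500 * (f + i) ≤ 167 * N)
    (m2 : f * h ≤ e * i) :
    443556 * N ≤ 1000000 * e := by
  rcases Nat.eq_zero_or_pos N with h0 | h0
  · subst h0; simp
  have hN : (0 : ℝ) < N := by exact_mod_cast h0
  have t' : (e : ℝ) + f + h + i = N := by exact_mod_cast tot
  have r2' : (500 : ℝ) * (h + i) ≤ 167 * N := by exact_mod_cast r2
  have c2' : (500 : ℝ) * (f + i) ≤ 167 * N := by exact_mod_cast c2
  have m' : (f : ℝ) * h ≤ e * i := by exact_mod_cast m2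
  have he : (0 : ℝ) ≤ e := by positivity
  have s2 : 333 / 500 * (N : ℝ) ≤ e + h := by linarith
  have s3 : 333 / 500 * (N : ℝ) ≤ e + f := by linarith
  have s4 : (333 / 500 * (N : ℝ)) * (333 / 500 * N) ≤ e * N := by
    calc (333 / 500 * (N : ℝ)) * (333 / 500 * N) ≤ (e + h) * (e + f) := by
          apply mul_le_mul s2 s3 (by positivity) (by positivity)
      _ ≤ e * N := by rw [← t']; nlinarith
  have s5 : (443556 : ℝ) * N * N ≤ 1000000 * e * N := by nlinarith
  have hx : (443556 : ℝ) * N ≤ 1000000 * e := le_of_mul_le_mul_right s5 hN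
  exact_mod_cast hx

/-- One blocker below, one blocker above: the union bound. -/
theorem tp11 (N e x y : ℕ) (tot : N ≤ e + x + y) (hx : 500 * x ≤ 167 * N)
    (hy : 500 * y ≤ 167 * N) : 332000 * N ≤ 1000000 * e := by omega

/-- One blocker. -/
theorem tp01 (N e x : ℕ) (tot : N ≤ e + x) (hx : 500 * x ≤ 167 * N) :
    666000 * N ≤ 1000000 * e := by omega

end Pool.Agent.W3
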