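import Pool.Agent.BFT.Tail
import Pool.Agent.BFT.Major
import Pool.Agent.BFT.Moments

/-!
# The majority order for thresholds below `1/e`

If `Pr[y < x] < 1/e` then `x` has the smaller average height (Gruenbaum's inequality for the
order polytope).  So for a poset with balance constant at most `t < 1/e` the order by average
height is the majority order.
-/

set_option autoImplicit false

namespace Pool.Agent.W3

open Finset Pool.Agent.Helper1.Balance Pool.Agent.Helper8.KS Pool.Agent.Helper18.KSC
  Pool.Agent.BFT

variable {n : ℕ} {r : Fin n → Fin n → Prop}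

theorem prob_le_mneg (r : Fin n → Fin n → Prop) (x y : Fin n) : prob r y x ≤ mneg r x y := by
  classical
  rw [Mo.prob_eq_Ex]
  unfold mneg
  refine Mo.Ex_le_on fun σ _ => ?_
  by_cases h1 : D x y σ < 0
  · rw [if_pos h1]
    have h2 : (D x y σ : ℤ) ≤ -1 := by omega
    have h3 : ((D x y σ : ℤ) : ℝ) ≤ -1 := by exact_mod_cast h2
    exact le_trans (by linarith) (le_max_left _ _)
  · rw [if_neg h1]
    exact le_max_right _ _

/-- an element which comes first with probability more than `1 - 1/e` has the smaller average
height -/
theorem ht_lt_of_prob (hr : IsPoset r) {t : ℝ} (ht3 : t ≤ 0.36) {x y : Fin n} (hne : x ≠ y)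
    (h : prob r y x ≤ t) : ht r x < ht r y := by
  classical
  by_cases h1 : r x y
  · -- comparable
    have h2 : (0 : ℝ) < mn r x y := by
      have h3 : (1 : ℝ) ≤ mn r x y := by
        have h4 : Ex r (fun _ => (1 : ℝ)) = 1 := Ex_const hr 1
        rw [← h4]
        unfold mn
        refine Mo.Ex_le_on fun σ hσ => ?_
        have h5 : (1 : ℤ) ≤ D x y σ := by
          have h6 := D_pos_of_rel hσ h1 hne
          omega
        exact_mod_cast h5
      linarith
    rw [mn_eq_ht] at h2
    linarith
  · by_cases h2 : r y x
    · have h3 := prob_zero_of_rel h2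
      have h4 := prob_add hr hne
      rw [h3] at h4
      linarith
    · have hinc : Inc r x y := ⟨h1, h2⟩
      have hq := prob_pos hr hinc
      have hm : 0 < mneg r x y := lt_of_lt_of_le hq (prob_le_mneg r x y)
      have h3 := tail_two hr hinc
      have h4 : 0 < Real.log (1 / prob r y x) - 1 := by
        rw [sub_pos, Real.lt_log_iff_exp_lt (by positivity), lt_div_iff₀ hq]
        have h5 := Real.exp_one_lt_d9
        have h6 : Real.exp 1 * prob r y x ≤ Real.exp 1 * 0.36 :=
          mul_le_mul_of_nonneg_left (by linarith) (Real.exp_pos 1).le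
        linarith
      have h7 : 0 < prob r y x * mn r x y := lt_of_lt_of_le (mul_pos hm h4) h3
      have h8 : 0 < mn r x y := by
        by_contra hcon
        have h9 : mn r x y ≤ 0 := not_lt.1 hcon
        have h10 := mul_nonpos_of_nonneg_of_nonpos hq.le h9
        linarith
      rw [mn_eq_ht] at h8
      linarith

/-- THE MAJORITY ORDER for `t ≤ 0.36` -/
theorem exists_major' (hr : IsPoset r) {t : ℝ} (ht : 0 ≤ t) (ht3 : t ≤ 0.36)
    (hb : balance r ≤ t) : ∃ π : Equiv.Perm (Fin n), π ∈ LEs r ∧
      ∀ x y : Fin n, π x < π y → prob r y x ≤ t := by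
  classical
  set lt : Fin n → Fin n → Prop := fun x y => x ≠ y ∧ prob r y x ≤ t with hlt
  have htot : ∀ x y, x ≠ y → lt x y ∨ lt y x := by
    intro x y h
    rcases maj_dich hr ht hb x y with h1 | h1
    · right; exact ⟨h.symm, h1⟩
    · left; exact ⟨h, h1⟩
  have hht : ∀ x y, lt x y → Pool.Agent.Helper8.KS.ht r x < Pool.Agent.Helper8.KS.ht r y :=
    fun x y h => ht_lt_of_prob hr ht3 h.1 h.2
  have hasym : ∀ x y, lt x y → ¬ lt y x := by
    intro x y h1 h2
    exact lt_asymm (hht x y h1) (hht y x h2)
  have htrans : ∀ x y z, lt x y → lt y z → lt x z := by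
    intro x y z hxy hyz
    have h1 := (hht x y hxy).trans (hht y z hyz)
    have hne : x ≠ z := by
      rintro rfl
      exact lt_irrefl _ h1
    rcases htot x z hne with h2 | h2
    · exact h2
    · exact absurd (hht z x h2) (lt_asymm h1)
  set rk : Fin n → ℕ := fun x => (univ.filter (fun z => lt z x)).card with hrk
  have hirr : ∀ x, ¬ lt x x := fun x h => h.1 rfl
  have hmono : ∀ x y, lt x y → rk x < rk y := by
    intro x y hxy
    refine Finset.card_lt_card ?_
    rw [Finset.ssubset_iff_of_subset]
    · exact ⟨x, by simp [hxy], by simp [hirr x]⟩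
    · intro z hz
      rw [Finset.mem_filter] at hz ⊢
      exact ⟨hz.1, htrans _ _ _ hz.2 hxy⟩
  have hrkn : ∀ x, rk x < n := by
    intro x
    have : (univ.filter (fun z => lt z x)).card < (univ : Finset (Fin n)).card := by
      refine Finset.card_lt_card ?_
      rw [Finset.ssubset_iff_of_subset (Finset.filter_subset _ _)]
      exact ⟨x, Finset.mem_univ _, by simp [hirr x]⟩
    simpa using this
  have hinj : Function.Injective (fun x : Fin n => (⟨rk x, hrkn x⟩ : Fin n)) := by
    intro x y hxy
    by_contra hne
    have h1 : rk x = rk y := by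
      have := congrArg Fin.val hxy
      simpa using this
    rcases htot x y hne with h | h
    · have := hmono _ _ h
      omega
    · have := hmono _ _ h
      omega
  set π : Equiv.Perm (Fin n) := Equiv.ofBijective _ ((Finite.injective_iff_bijective).1 hinj)
    with hπ
  have hπv : ∀ x, ((π x : Fin n) : ℕ) = rk x := fun x => rfl
  have hπlt : ∀ x y, π x < π y → lt x y := by
    intro x y h
    have h1 : rk x < rk y := by
      rw [Fin.lt_def, hπv, hπv] at h
      exact h
    have hne : x ≠ y := by
      rintro rfl
      exact lt_irrefl _ h1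
    rcases htot x y hne with h2 | h2
    · exact h2
    · have := hmono _ _ h2
      omega
  refine ⟨π, ?_, fun x y h => (hπlt x y h).2⟩
  rw [mem_LEs]
  intro a b hab
  by_contra hcon
  have h1 := hπlt b a (not_le.1 hcon)
  have hne : a ≠ b := h1.1.symm
  have h2 := prob_zero_of_rel hab
  have h3 := prob_add' r hr hne
  have h4 := h1.2
  linarith

end Pool.Agent.W3
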