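import Pool.Agent.W3.LeafPre

/-!
# The executable leaf is sound
-/

set_option autoImplicit false

noncomputable section

namespace Pool.Agent.W3

namespace Leaf

open Finset

/-! ### masks -/

theorem beq_iff {a b : ℕ} : Nat.beq a b = true ↔ a = b :=
  ⟨Nat.eq_of_beq_eq_true, fun h => by rw [h]; exact Nat.beq_refl b⟩

/-! ### sparse coefficients -/

theorem psum_eq (l : List Sp) (m acc : ℕ) :
    psum l m acc = (l.map fun s => if bs s.mask = bs m then s.pos else 0).sum + acc := by
  induction l with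
  | nil =>
    have h : psum [] m acc = acc := rfl
    rw [h]
    simp
  | cons s l ih =>
    have h : psum (s :: l) m acc =
      cond (Nat.beq s.mask m) (Nat.add s.pos (psum l m acc)) (psum l m acc) := rfl
    rw [h, ih, List.map_cons, List.sum_cons]
    by_cases hs : s.mask = m
    · rw [beq_iff.2 hs, if_pos (by rw [hs])]
      show s.pos + (_ + acc) = _
      simp only [Nat.add_assoc]
    · have h1 : Nat.beq s.mask m = false := by
        cases hb : Nat.beq s.mask m with
        | true => exact absurd (beq_iff.1 hb) hs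
        | false => rfl
      rw [h1, if_neg (fun hc => hs (bs_inj hc))]
      simp

theorem nsum_eq (l : List Sp) (m acc : ℕ) :
    nsum l m acc = (l.map fun s => if bs s.mask = bs m then s.neg else 0).sum + acc := by
  induction l with
  | nil =>
    have h : nsum [] m acc = acc := rfl
    rw [h]
    simp
  | cons s l ih =>
    have h : nsum (s :: l) m acc =
      cond (Nat.beq s.mask m) (Nat.add s.neg (nsum l m acc)) (nsum l m acc) := rfl
    rw [h, ih, List.map_cons, List.sum_cons]
    by_cases hs : s.mask = m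
    · rw [beq_iff.2 hs, if_pos (by rw [hs])]
      show s.neg + (_ + acc) = _
      simp only [Nat.add_assoc]
    · have h1 : Nat.beq s.mask m = false := by
        cases hb : Nat.beq s.mask m with
        | true => exact absurd (beq_iff.1 hb) hs
        | false => rfl
      rw [h1, if_neg (fun hc => hs (bs_inj hc))]
      simp

/-- the two lists have the same coefficients at `m` -/
def SpEq (l l' : List Sp) (m : ℕ) : Prop :=
  ∀ acc, psum l m acc = psum l' m acc ∧ nsum l m acc = nsum l' m acc

theorem flt_eq (l : List Sp) (lo hi m : ℕ) (h1 : bs lo ⊆ bs m) (h2 : bs m ⊆ bs hi) :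
    SpEq (flt l lo hi) l m := by
  intro acc
  induction l with
  | nil => exact ⟨rfl, rfl⟩
  | cons s l ih =>
    have h : flt (s :: l) lo hi =
      cond (sub lo s.mask) (cond (sub s.mask hi) (s :: flt l lo hi) (flt l lo hi))
        (flt l lo hi) := rfl
    have hp : ∀ l' : List Sp, psum (s :: l') m acc =
      cond (Nat.beq s.mask m) (Nat.add s.pos (psum l' m acc)) (psum l' m acc) := fun _ => rfl
    have hn : ∀ l' : List Sp, nsum (s :: l') m acc =
      cond (Nat.beq s.mask m) (Nat.add s.neg (nsum l' m acc)) (nsum l' m acc) := fun _ => rfl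
    by_cases hs : s.mask = m
    · have h3 : sub lo s.mask = true := sub_iff.2 (by rw [hs]; exact h1)
      have h4 : sub s.mask hi = true := sub_iff.2 (by rw [hs]; exact h2)
      rw [h, h3, h4]
      simp only [cond_true]
      rw [hp, hp, hn, hn, ih.1, ih.2]
      exact ⟨rfl, rfl⟩
    · have h5 : Nat.beq s.mask m = false := by
        cases hb : Nat.beq s.mask m with
        | true => exact absurd (beq_iff.1 hb) hs
        | false => rfl
      rw [hp l, hn l, h, h5]
      simp only [cond_false]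
      cases sub lo s.mask <;> cases sub s.mask hi <;> simp only [cond_true, cond_false]
      · exact ih
      · exact ih
      · exact ih
      · rw [hp, hn, h5]
        exact ih

/-! ### edge terms -/

open Classical in
theorem wE_eq (l : List ET) (hl : okE l = true) {F : Finset ℕ} {m x : ℕ} (hm : bs m = F)
    (e acc : ℕ) :
    wE (ets l x) m e acc =
      e * (l.map fun t => if t.x = x ∧ t.cond (F.erase x) then t.w else 0).sum + acc := by
  induction l with
  | nil =>
    have h : wE (ets [] x) m e acc = acc := rfl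
    rw [h]
    simp
  | cons t l ih =>
    have h0 : okE (t :: l) = cond (tb t.req t.x) false (okE l) := rfl
    rw [h0] at hl
    have hreq : tb t.req t.x = false := by
      cases hb : tb t.req t.x with
      | true => rw [hb] at hl; exact absurd hl (by simp)
      | false => rfl
    rw [hreq] at hl
    have ih' := ih hl
    have h : ets (t :: l) x = cond (Nat.beq t.x x)
      (⟨t.x, t.req, addBit (Nat.shiftLeft 1 x) t.his, t.w⟩ :: ets l x) (ets l x) := rfl
    rw [h, List.map_cons, List.sum_cons]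
    by_cases hx : t.x = x
    · rw [beq_iff.2 hx]
      simp only [cond_true]
      have h1 : wE (⟨t.x, t.req, addBit (Nat.shiftLeft 1 x) t.his, t.w⟩ :: ets l x) m e acc =
        cond (cond (sub t.req m) (inSat (addBit (Nat.shiftLeft 1 x) t.his) m) false)
          (Nat.add (Nat.mul t.w e) (wE (ets l x) m e acc)) (wE (ets l x) m e acc) := rfl
      have hadd : ∀ his : List ℕ, (∃ s ∈ addBit (Nat.shiftLeft 1 x) his, bs m ⊆ bs s) ↔
          ∃ s ∈ his, F.erase x ⊆ bs s := by
        intro his
        induction his with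
        | nil =>
          have h2 : addBit (Nat.shiftLeft 1 x) [] = [] := rfl
          rw [h2]
          simp
        | cons s his ihh =>
          have h2 : addBit (Nat.shiftLeft 1 x) (s :: his) =
            Nat.lor s (Nat.shiftLeft 1 x) :: addBit (Nat.shiftLeft 1 x) his := rfl
          rw [h2]
          simp only [List.mem_cons, exists_eq_or_imp]
          rw [ihh, bs_lor, bs_shl, hm]
          have h3 : F ⊆ bs s ∪ {x} ↔ F.erase x ⊆ bs s := by
            constructor
            · intro h4 y hy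
              rcases mem_union.1 (h4 (mem_of_mem_erase hy)) with h5 | h5
              · exact h5
              · exact absurd (mem_singleton.1 h5) (ne_of_mem_erase hy)
            · intro h4 y hy
              by_cases hyx : y = x
              · rw [hyx]
                exact mem_union_right _ (mem_singleton_self x)
              · exact mem_union_left _ (h4 (mem_erase.2 ⟨hyx, hy⟩))
          rw [h3]
      have hnot : x ∉ bs t.req := by
        intro hc
        rw [← tb_iff, ← hx, hreq] at hc
        exact Bool.noConfusion hc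
      have hc : cond (sub t.req m) (inSat (addBit (Nat.shiftLeft 1 x) t.his) m) false = true ↔
          t.cond (F.erase x) := by
        have h2 : (bs t.req ⊆ bs m) ↔ bs t.req ⊆ F.erase x := by
          rw [hm]
          constructor
          · intro h3 y hy
            refine mem_erase.2 ⟨?_, h3 hy⟩
            rintro rfl
            exact hnot hy
          · intro h3
            exact h3.trans (erase_subset _ _)
        unfold ET.cond
        rw [← h2, ← hadd, ← inSat_iff, ← sub_iff]
        cases sub t.req m <;> simp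
      rw [h1, ih']
      by_cases htc : t.cond (F.erase x)
      · rw [hc.2 htc, if_pos ⟨hx, htc⟩]
        show t.w * e + _ = _
        ring
      · have h3 : cond (sub t.req m) (inSat (addBit (Nat.shiftLeft 1 x) t.his) m) false =
            false := by
          cases hb : cond (sub t.req m) (inSat (addBit (Nat.shiftLeft 1 x) t.his) m) false with
          | true => exact absurd (hc.1 hb) htc
          | false => rfl
        rw [h3, if_neg (fun h4 => htc h4.2)]
        simp
    · have h1 : Nat.beq t.x x = false := by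
        cases hb : Nat.beq t.x x with
        | true => exact absurd (beq_iff.1 hb) hx
        | false => rfl
      rw [h1, if_neg (fun h2 => hx h2.1)]
      simp only [cond_false, Nat.zero_add]
      exact ih'

theorem wE_zero (l : List ET) (m acc : ℕ) : wE l m 0 acc = acc := by
  induction l with
  | nil => rfl
  | cons t l ih =>
    have h : wE (t :: l) m 0 acc = cond (cond (sub t.req m) (inSat t.his m) false)
      (Nat.add (Nat.mul t.w 0) (wE l m 0 acc)) (wE l m 0 acc) := rfl
    rw [h, ih]
    cases cond (sub t.req m) (inSat t.his m) false with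
    | true =>
      simp only [cond_true]
      show t.w * 0 + acc = acc
      simp
    | false => rfl

/-! ### prefixes of the chains, as reversed lists -/

/-- the extensions of the reversed prefix `l` by the elements of `c` -/
def pfx : List ℕ → List ℕ → List (List ℕ)
  | _, [] => []
  | l, x :: c => (x :: l) :: pfx (x :: l) c

/-- mask of a reversed prefix -/
def msk : List ℕ → ℕ
  | [] => 0
  | x :: l => Nat.lor (msk l) (Nat.shiftLeft 1 x)

theorem bs_msk (l : List ℕ) : bs (msk l) = l.toFinset := by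
  induction l with
  | nil => exact bs_zero
  | cons x l ih =>
    show bs (Nat.lor (msk l) (Nat.shiftLeft 1 x)) = _
    rw [bs_lor, bs_shl, ih, List.toFinset_cons]
    ext y
    simp

/-- edge terms of an optional top -/
def topE (l : List ET) : Option ℕ → List ET
  | none => []
  | some x => ets l x

/-- down-set of an optional top -/
def topD (dn : List ℕ) : Option ℕ → ℕ
  | none => 0
  | some x => gt dn x

/-- the entry of a reversed prefix -/
def ent (dn : List ℕ) (pe ne : List ET) (l : List ℕ) : Ent :=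
  ⟨msk l, topD dn l.head?, topE pe l.head?, topE ne l.head?⟩

theorem ents_eq (dn : List ℕ) (pe ne : List ET) (c l : List ℕ) :
    ents dn pe ne c (msk l) = (pfx l c).map (ent dn pe ne) := by
  induction c generalizing l with
  | nil => rfl
  | cons x c ih =>
    have h : ents dn pe ne (x :: c) (msk l) =
      (⟨msk (x :: l), gt dn x, ets pe x, ets ne x⟩ : Ent) :: ents dn pe ne c (msk (x :: l)) := rfl
    rw [h, ih]
    rfl

theorem zrow_eq {α : Type} (z : α) (c l : List ℕ) : zrow z c = (pfx l c).map (fun _ => z) := by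
  induction c generalizing l with
  | nil => rfl
  | cons x c ih =>
    have h : zrow z (x :: c) = z :: zrow z c := rfl
    rw [h, ih (x :: l)]
    rfl

theorem mem_pfx {l c l' : List ℕ} (h : l' ∈ l :: pfx l c) :
    ∃ r, l.reverse ++ c = l'.reverse ++ r := by
  induction c generalizing l with
  | nil =>
    have h1 : pfx l [] = [] := rfl
    rw [h1, List.mem_singleton] at h
    exact ⟨[], by rw [h]⟩
  | cons x c ih =>
    have h1 : pfx l (x :: c) = (x :: l) :: pfx (x :: l) c := rfl
    rw [h1] at h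
    rcases List.mem_cons.1 h with h | h
    · exact ⟨x :: c, by rw [h]⟩
    · obtain ⟨r, hr⟩ := ih h
      refine ⟨r, ?_⟩
      rw [← hr]
      simp

theorem chainL_append {D : ℕ → Finset ℕ} {a r : List ℕ} {x : ℕ}
    (h : ChainL D (a ++ x :: r)) : ∀ y ∈ a, y ∈ D x := by
  induction a with
  | nil => simp
  | cons z a ih =>
    obtain ⟨h1, h2⟩ := h
    intro y hy
    rcases List.mem_cons.1 hy with rfl | hy
    · exact h1 x (by simp)
    · exact ih h2 y hy

theorem top_pre {D : ℕ → Finset ℕ} {c l r : List ℕ} (hc : ChainL D c)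
    (h : c = l.reverse ++ r) : Top D l.toFinset l.head? := by
  cases l with
  | nil => rfl
  | cons x l =>
    refine ⟨by simp, fun y hy => ?_⟩
    rw [mem_erase, List.mem_toFinset, List.mem_cons] at hy
    have hyl : y ∈ l := by
      rcases hy.2 with h1 | h1
      · exact absurd h1 hy.1
      · exact h1
    rw [h] at hc
    have h2 : (x :: l).reverse ++ r = l.reverse ++ x :: r := by simp
    rw [h2] at hc
    exact chainL_append hc y (by simpa using hyl)

/-- what is used about the three chains -/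
structure Cfg (dn c1 c2 c3 : List ℕ) : Prop where
  ch1 : ChainL (dnf dn) c1
  ch2 : ChainL (dnf dn) c2
  ch3 : ChainL (dnf dn) c3
  nd : (c1 ++ c2 ++ c3).Nodup
  rg : ∀ x, x ∈ c1 ++ c2 ++ c3 ↔ x < dn.length

/-- the ideal of three reversed prefixes -/
def U (l1 l2 l3 : List ℕ) : Finset ℕ := l1.toFinset ∪ l2.toFinset ∪ l3.toFinset

section

variable {dn c1 c2 c3 : List ℕ}

theorem cfg_nodup (h : Cfg dn c1 c2 c3) {l1 l2 l3 r1 r2 r3 : List ℕ} (h1 : c1 = l1.reverse ++ r1)
    (h2 : c2 = l2.reverse ++ r2) (h3 : c3 = l3.reverse ++ r3) :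
    l1.Nodup ∧ l2.Nodup ∧ l3.Nodup ∧ (∀ x ∈ l1, x ∉ l2) ∧ (∀ x ∈ l1, x ∉ l3) ∧
      ∀ x ∈ l2, x ∉ l3 := by
  have h4 := h.nd
  rw [List.nodup_append, List.nodup_append] at h4
  obtain ⟨⟨h5, h6, h7⟩, h8, h9⟩ := h4
  have m1 : ∀ x ∈ l1, x ∈ c1 := fun x hx => by rw [h1]; simp [hx]
  have m2 : ∀ x ∈ l2, x ∈ c2 := fun x hx => by rw [h2]; simp [hx]
  have m3 : ∀ x ∈ l3, x ∈ c3 := fun x hx => by rw [h3]; simp [hx]
  refine ⟨?_, ?_, ?_, ?_, ?_, ?_⟩
  · rw [h1] at h5
    exact List.nodup_reverse.1 (List.nodup_append.1 h5).1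
  · rw [h2] at h6
    exact List.nodup_reverse.1 (List.nodup_append.1 h6).1
  · rw [h3] at h8
    exact List.nodup_reverse.1 (List.nodup_append.1 h8).1
  · intro x hx hx'
    exact h7 x (m1 x hx) x (m2 x hx') rfl
  · intro x hx hx'
    exact h9 x (List.mem_append.2 (Or.inl (m1 x hx))) x (m3 x hx') rfl
  · intro x hx hx'
    exact h9 x (List.mem_append.2 (Or.inr (m2 x hx))) x (m3 x hx') rfl

theorem cfg_cov (h : Cfg dn c1 c2 c3) {l1 l2 l3 r1 r2 r3 : List ℕ} (h1 : c1 = l1.reverse ++ r1)
    (h2 : c2 = l2.reverse ++ r2) (h3 : c3 = l3.reverse ++ r3) :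
    Cov dn.length (dnf dn) (U l1 l2 l3) l1.toFinset l2.toFinset l3.toFinset
      l1.head? l2.head? l3.head? := by
  obtain ⟨-, -, -, h7, h8, h9⟩ := cfg_nodup h h1 h2 h3
  refine ⟨rfl, ?_, top_pre h.ch1 h1, top_pre h.ch2 h2, top_pre h.ch3 h3, ?_, ?_, ?_⟩
  · intro x hx
    rw [mem_range, ← h.rg x]
    unfold U at hx
    rw [mem_union, mem_union, List.mem_toFinset, List.mem_toFinset, List.mem_toFinset] at hx
    rw [h1, h2, h3]
    simp only [List.mem_append, List.mem_reverse]
    tauto
  · rw [disjoint_left]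
    intro x hx hx'
    exact h7 x (List.mem_toFinset.1 hx) (List.mem_toFinset.1 hx')
  · rw [disjoint_left]
    intro x hx hx'
    exact h8 x (List.mem_toFinset.1 hx) (List.mem_toFinset.1 hx')
  · rw [disjoint_left]
    intro x hx hx'
    exact h9 x (List.mem_toFinset.1 hx) (List.mem_toFinset.1 hx')

end

/-! ### the values of the cells -/

section

variable (dn : List ℕ) (pe ne : List ET) (sp : List Sp) (e : Finset ℕ → ℕ)

/-- the positive values -/
noncomputable def PP (F : Finset ℕ) : ℕ :=
  Sg dn.length (dnf dn) (kpos dn.length (dnf dn) e pe sp) F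

/-- the negative values -/
noncomputable def NN (F : Finset ℕ) : ℕ :=
  Sg dn.length (dnf dn) (kneg dn.length (dnf dn) e ne sp) F

/-- the cell of a set -/
noncomputable def cv (F : Finset ℕ) : Cell :=
  if F ∈ Idl dn.length (dnf dn) then ⟨e F, PP dn pe sp e F, NN dn ne sp e F⟩ else zero

/-- `c` is the cell of the predecessor in the direction `o` -/
def Dir (F : Finset ℕ) (o : Option ℕ) (c : Cell) : Prop :=
  c.e = topSum dn.length (dnf dn) F (fun x => e (F.erase x)) o ∧
  c.p = topSum dn.length (dnf dn) F (fun x => PP dn pe sp e (F.erase x)) o ∧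
  c.n = topSum dn.length (dnf dn) F (fun x => NN dn ne sp e (F.erase x)) o

theorem dir_some (F : Finset ℕ) (x : ℕ) :
    Dir dn pe ne sp e F (some x) (cv dn pe ne sp e (F.erase x)) := by
  unfold Dir cv topSum
  by_cases h : F.erase x ∈ Idl dn.length (dnf dn)
  · refine ⟨?_, ?_, ?_⟩ <;> simp only [if_pos h]
  · refine ⟨?_, ?_, ?_⟩ <;> simp only [if_neg h, zero]

theorem dir_none (F : Finset ℕ) : Dir dn pe ne sp e F none zero := ⟨rfl, rfl, rfl⟩

open Classical in
theorem wE_dir (l : List ET) (hl : okE l = true) {F : Finset ℕ} {o : Option ℕ} {c : Cell} {m : ℕ}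
    (hd : c.e = topSum dn.length (dnf dn) F (fun x => e (F.erase x)) o) (hm : bs m = F)
    (acc : ℕ) :
    wE (topE l o) m c.e acc = topSum dn.length (dnf dn) F (fun x => e (F.erase x) *
      (l.map fun t => if t.x = x ∧ t.cond (F.erase x) then t.w else 0).sum) o + acc := by
  rw [hd]
  cases o with
  | none =>
    have h : wE (topE l none) m (topSum dn.length (dnf dn) F (fun x => e (F.erase x)) none) acc =
      acc := rfl
    rw [h]
    show acc = 0 + acc
    omega
  | some x =>
    unfold topSum topE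
    by_cases h : F.erase x ∈ Idl dn.length (dnf dn)
    · simp only [if_pos h]
      exact wE_eq l hl hm _ _
    · simp only [if_neg h]
      rw [wE_zero]
      omega

/-- the cell which `row` computes -/
def nc (p1 n1 p2 n2 : List ET) (sp' : List Sp) (en : Ent) (m : ℕ) (prev b a : Cell) : Cell :=
  ⟨Nat.add prev.e (Nat.add b.e a.e),
    wE en.pp m prev.e (wE p2 m b.e (wE p1 m a.e
      (psum sp' m (Nat.add prev.p (Nat.add b.p a.p))))),
    wE en.np m prev.e (wE n2 m b.e (wE n1 m a.e
      (nsum sp' m (Nat.add prev.n (Nat.add b.n a.n)))))⟩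

variable {dn pe ne sp e}

open Classical in
theorem cell_eq (hpe : okE pe = true) (hne : okE ne = true)
    (he : ∀ D ∈ Idl dn.length (dnf dn), D ≠ ∅ →
      e D = ∑ x ∈ D.filter (fun x => D.erase x ∈ Idl dn.length (dnf dn)), e (D.erase x))
    {F A1 A2 A3 : Finset ℕ} {o1 o2 o3 : Option ℕ} (hc : Cov dn.length (dnf dn) F A1 A2 A3 o1 o2 o3)
    (hF : F ∈ Idl dn.length (dnf dn)) (hF0 : F ≠ ∅) {m : ℕ} (hm : bs m = F)
    {sp' : List Sp} (hsp : SpEq sp' sp m) {prev b a : Cell}
    (h3 : Dir dn pe ne sp e F o3 prev) (h2 : Dir dn pe ne sp e F o2 b)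
    (h1 : Dir dn pe ne sp e F o1 a) (en : Ent) (hep : en.pp = topE pe o3)
    (hen : en.np = topE ne o3) :
    nc (topE pe o1) (topE ne o1) (topE pe o2) (topE ne o2) sp' en m prev b a =
      cv dn pe ne sp e F := by
  have e1 : Nat.add prev.e (Nat.add b.e a.e) = e F := by
    rw [he F hF hF0, hc.sum, h3.1, h2.1, h1.1]
    rfl
  have e2 : wE en.pp m prev.e (wE (topE pe o2) m b.e (wE (topE pe o1) m a.e
      (psum sp' m (Nat.add prev.p (Nat.add b.p a.p))))) = PP dn pe sp e F := by
    rw [hep, wE_dir dn e pe hpe h3.1 hm, wE_dir dn e pe hpe h2.1 hm, wE_dir dn e pe hpe h1.1 hm,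
      (hsp _).1, psum_eq, hm]
    have hk : kpos dn.length (dnf dn) e pe sp F =
        (sp.map fun s => if bs s.mask = F then s.pos else 0).sum +
          (topSum dn.length (dnf dn) F (fun x => e (F.erase x) *
            (pe.map fun t => if t.x = x ∧ t.cond (F.erase x) then t.w else 0).sum) o3 +
          (topSum dn.length (dnf dn) F (fun x => e (F.erase x) *
            (pe.map fun t => if t.x = x ∧ t.cond (F.erase x) then t.w else 0).sum) o2 +
          topSum dn.length (dnf dn) F (fun x => e (F.erase x) *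
            (pe.map fun t => if t.x = x ∧ t.cond (F.erase x) then t.w else 0).sum) o1)) := by
      unfold kpos ekap
      rw [hc.sum, if_neg hF0, Nat.zero_add]
    unfold PP
    rw [Sg_eq, hc.sum, hk]
    have h4 := h3.2.1
    have h5 := h2.2.1
    have h6 := h1.2.1
    unfold PP at h4 h5 h6
    rw [← h4, ← h5, ← h6]
    have h7 : Nat.add prev.p (Nat.add b.p a.p) = prev.p + (b.p + a.p) := rfl
    rw [h7]
    omega
  have e3 : wE en.np m prev.e (wE (topE ne o2) m b.e (wE (topE ne o1) m a.e
      (nsum sp' m (Nat.add prev.n (Nat.add b.n a.n))))) = NN dn ne sp e F := by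
    rw [hen, wE_dir dn e ne hne h3.1 hm, wE_dir dn e ne hne h2.1 hm, wE_dir dn e ne hne h1.1 hm,
      (hsp _).2, nsum_eq, hm]
    have hk : kneg dn.length (dnf dn) e ne sp F =
        (sp.map fun s => if bs s.mask = F then s.neg else 0).sum +
          (topSum dn.length (dnf dn) F (fun x => e (F.erase x) *
            (ne.map fun t => if t.x = x ∧ t.cond (F.erase x) then t.w else 0).sum) o3 +
          (topSum dn.length (dnf dn) F (fun x => e (F.erase x) *
            (ne.map fun t => if t.x = x ∧ t.cond (F.erase x) then t.w else 0).sum) o2 +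
          topSum dn.length (dnf dn) F (fun x => e (F.erase x) *
            (ne.map fun t => if t.x = x ∧ t.cond (F.erase x) then t.w else 0).sum) o1)) := by
      unfold kneg ekap
      rw [hc.sum]
    unfold NN
    rw [Sg_eq, hc.sum, hk]
    have h4 := h3.2.2
    have h5 := h2.2.2
    have h6 := h1.2.2
    unfold NN at h4 h5 h6
    rw [← h4, ← h5, ← h6]
    have h7 : Nat.add prev.n (Nat.add b.n a.n) = prev.n + (b.n + a.n) := rfl
    rw [h7]
    omega
  unfold nc cv
  rw [if_pos hF, e1, e2, e3]

end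

/-! ### the loops -/

section

variable (dn : List ℕ) (pe ne : List ET) (sp : List Sp) (e : Finset ℕ → ℕ)

/-- the cell of three reversed prefixes -/
def V (l1 l2 l3 : List ℕ) : Cell := cv dn pe ne sp e (U l1 l2 l3)

/-- the cell before, in the third direction -/
def pr3 (l1 l2 : List ℕ) : List ℕ → Cell
  | [] => zero
  | _ :: l => V dn pe ne sp e l1 l2 l

/-- the cell before, in the second direction; at the start the seed -/
def pr2 (l1 : List ℕ) : List ℕ → List ℕ → Cell
  | [], l3 => if l1 = [] ∧ l3 = [] then ⟨1, 1, 0⟩ else zero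
  | _ :: l, l3 => V dn pe ne sp e l1 l l3

/-- the cell before, in the first direction -/
def pr1 : List ℕ → List ℕ → List ℕ → Cell
  | [], _, _ => zero
  | _ :: l, l2, l3 => V dn pe ne sp e l l2 l3

/-- the conclusion for one cell -/
def Good (sat : List ℕ) (l1 l2 l3 : List ℕ) : Prop :=
  U l1 l2 l3 ∈ Idl dn.length (dnf dn) → ¬ SatF dn.length sat (U l1 l2 l3) →
    PP dn pe sp e (U l1 l2 l3) ≤ NN dn ne sp e (U l1 l2 l3)

variable {dn pe ne sp e}

theorem pr2_nil (l1 l3 : List ℕ) : pr2 dn pe ne sp e l1 [] l3 =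
    if l1 = [] ∧ l3 = [] then ⟨1, 1, 0⟩ else zero := rfl

theorem U_mask (l1 l2 l3 : List ℕ) :
    bs (Nat.lor (Nat.lor (msk l1) (msk l2)) (msk l3)) = U l1 l2 l3 := by
  rw [bs_lor, bs_lor, bs_msk, bs_msk, bs_msk]
  rfl

theorem U_erase3 {l1 l2 l3 : List ℕ} {x : ℕ} (h1 : x ∉ l1) (h2 : x ∉ l2) (h3 : x ∉ l3) :
    (U l1 l2 (x :: l3)).erase x = U l1 l2 l3 := by
  ext y
  unfold U
  simp only [mem_erase, mem_union, List.mem_toFinset, List.mem_cons]
  constructor
  · rintro ⟨h4, (h5 | h5) | h5 | h5⟩
    · exact Or.inl (Or.inl h5)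
    · exact Or.inl (Or.inr h5)
    · exact absurd h5 h4
    · exact Or.inr h5
  · rintro ((h5 | h5) | h5)
    · exact ⟨fun h => h1 (h ▸ h5), Or.inl (Or.inl h5)⟩
    · exact ⟨fun h => h2 (h ▸ h5), Or.inl (Or.inr h5)⟩
    · exact ⟨fun h => h3 (h ▸ h5), Or.inr (Or.inr h5)⟩

theorem U_erase2 {l1 l2 l3 : List ℕ} {x : ℕ} (h1 : x ∉ l1) (h2 : x ∉ l2) (h3 : x ∉ l3) :
    (U l1 (x :: l2) l3).erase x = U l1 l2 l3 := by
  ext y
  unfold U
  simp only [mem_erase, mem_union, List.mem_toFinset, List.mem_cons]
  constructor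
  · rintro ⟨h4, (h5 | h5 | h5) | h5⟩
    · exact Or.inl (Or.inl h5)
    · exact absurd h5 h4
    · exact Or.inl (Or.inr h5)
    · exact Or.inr h5
  · rintro ((h5 | h5) | h5)
    · exact ⟨fun h => h1 (h ▸ h5), Or.inl (Or.inl h5)⟩
    · exact ⟨fun h => h2 (h ▸ h5), Or.inl (Or.inr (Or.inr h5))⟩
    · exact ⟨fun h => h3 (h ▸ h5), Or.inr h5⟩

theorem U_erase1 {l1 l2 l3 : List ℕ} {x : ℕ} (h1 : x ∉ l1) (h2 : x ∉ l2) (h3 : x ∉ l3) :
    (U (x :: l1) l2 l3).erase x = U l1 l2 l3 := by
  ext y
  unfold U
  simp only [mem_erase, mem_union, List.mem_toFinset, List.mem_cons]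
  constructor
  · rintro ⟨h4, ((h5 | h5) | h5) | h5⟩
    · exact absurd h5 h4
    · exact Or.inl (Or.inl h5)
    · exact Or.inl (Or.inr h5)
    · exact Or.inr h5
  · rintro ((h5 | h5) | h5)
    · exact ⟨fun h => h1 (h ▸ h5), Or.inl (Or.inl (Or.inr h5))⟩
    · exact ⟨fun h => h2 (h ▸ h5), Or.inl (Or.inr h5)⟩
    · exact ⟨fun h => h3 (h ▸ h5), Or.inr h5⟩

variable {c1 c2 c3 : List ℕ}

/-- the computed cell is the cell of the ideal, with the start -/
theorem cell_V (hcfg : Cfg dn c1 c2 c3) (hpe : okE pe = true) (hne : okE ne = true)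
    (he0 : e ∅ = 1)
    (he : ∀ D ∈ Idl dn.length (dnf dn), D ≠ ∅ →
      e D = ∑ x ∈ D.filter (fun x => D.erase x ∈ Idl dn.length (dnf dn)), e (D.erase x))
    {l1 l2 l3 r1 r2 r3 : List ℕ} (h1 : c1 = l1.reverse ++ r1) (h2 : c2 = l2.reverse ++ r2)
    (h3 : c3 = l3.reverse ++ r3) {sp' : List Sp}
    (hsp : SpEq sp' sp (Nat.lor (Nat.lor (msk l1) (msk l2)) (msk l3)))
    (hF : U l1 l2 l3 ∈ Idl dn.length (dnf dn)) :
    nc (topE pe l1.head?) (topE ne l1.head?) (topE pe l2.head?) (topE ne l2.head?) sp'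
      (ent dn pe ne l3) (Nat.lor (Nat.lor (msk l1) (msk l2)) (msk l3))
      (pr3 dn pe ne sp e l1 l2 l3) (pr2 dn pe ne sp e l1 l2 l3) (pr1 dn pe ne sp e l1 l2 l3) =
      V dn pe ne sp e l1 l2 l3 := by
  classical
  obtain ⟨n1, n2, n3, n4, n5, n6⟩ := cfg_nodup hcfg h1 h2 h3
  have hcov := cfg_cov hcfg h1 h2 h3
  by_cases h0 : l1 = [] ∧ l2 = [] ∧ l3 = []
  · obtain ⟨rfl, rfl, rfl⟩ := h0
    have hU : U [] [] [] = ∅ := rfl
    have hm := U_mask [] [] []
    rw [hU] at hF hm
    have e2 : PP dn pe sp e ∅ = (sp.map fun s => if bs s.mask = ∅ then s.pos else 0).sum + 1 := by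
      unfold PP
      rw [Sg_eq]
      unfold kpos ekap
      simp
      omega
    have e3 : NN dn ne sp e ∅ = (sp.map fun s => if bs s.mask = ∅ then s.neg else 0).sum := by
      unfold NN
      rw [Sg_eq]
      unfold kneg ekap
      simp
    unfold V cv
    rw [hU, if_pos hF, he0, e2, e3]
    unfold nc
    have a1 : pr3 dn pe ne sp e [] [] [] = ⟨0, 0, 0⟩ := rfl
    have a2 : pr2 dn pe ne sp e [] [] [] = ⟨1, 1, 0⟩ := by
      rw [pr2_nil, if_pos ⟨rfl, rfl⟩]
    have a3 : pr1 dn pe ne sp e [] [] [] = ⟨0, 0, 0⟩ := rfl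
    rw [a1, a2, a3]
    have w : ∀ m e' acc, wE [] m e' acc = acc := fun _ _ _ => rfl
    have b1 : (ent dn pe ne []).pp = [] := rfl
    have b2 : (ent dn pe ne []).np = [] := rfl
    have b3 : topE pe ([] : List ℕ).head? = [] := rfl
    have b4 : topE ne ([] : List ℕ).head? = [] := rfl
    rw [b1, b2, b3, b4]
    simp only [w]
    rw [(hsp _).1, (hsp _).2, psum_eq, nsum_eq, hm]
    rfl
  · have hF0 : U l1 l2 l3 ≠ ∅ := by
      intro hc
      apply h0
      unfold U at hc
      rw [union_eq_empty, union_eq_empty] at hc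
      obtain ⟨⟨q1, q2⟩, q3⟩ := hc
      exact ⟨List.toFinset_eq_empty_iff l1 |>.1 q1, List.toFinset_eq_empty_iff l2 |>.1 q2,
        List.toFinset_eq_empty_iff l3 |>.1 q3⟩
    refine cell_eq hpe hne he hcov hF hF0 (U_mask l1 l2 l3) hsp ?_ ?_ ?_ _ rfl rfl
    · cases l3 with
      | nil => exact dir_none dn pe ne sp e _
      | cons x l =>
        have := dir_some dn pe ne sp e (U l1 l2 (x :: l)) x
        rw [U_erase3 (fun h => n5 x h (List.mem_cons_self ..))
          (fun h => n6 x h (List.mem_cons_self ..)) (List.nodup_cons.1 n3).1] at this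
        exact this
    · cases l2 with
      | nil =>
        have hp : pr2 dn pe ne sp e l1 [] l3 = zero := by
          rw [pr2_nil, if_neg]
          rintro ⟨q1, q2⟩
          exact h0 ⟨q1, rfl, q2⟩
        rw [hp]
        exact dir_none dn pe ne sp e _
      | cons x l =>
        have := dir_some dn pe ne sp e (U l1 (x :: l) l3) x
        rw [U_erase2 (fun h => n4 x h (List.mem_cons_self ..)) (List.nodup_cons.1 n2).1
          (n6 x (List.mem_cons_self ..))] at this
        exact this
    · cases l1 with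
      | nil => exact dir_none dn pe ne sp e _
      | cons x l =>
        have := dir_some dn pe ne sp e (U (x :: l) l2 l3) x
        rw [U_erase1 (List.nodup_cons.1 n1).1 (n4 x (List.mem_cons_self ..))
          (n5 x (List.mem_cons_self ..))] at this
        exact this

/-- the data common to the loops -/
structure Hyp (dn : List ℕ) (pe ne : List ET) (e : Finset ℕ → ℕ) (c1 c2 c3 : List ℕ) : Prop where
  cfg : Cfg dn c1 c2 c3
  tr : ∀ x < dn.length, ∀ y ∈ dnf dn x, dnf dn y ⊆ dnf dn x
  ope : okE pe = true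
  one : okE ne = true
  e0 : e ∅ = 1
  er : ∀ D ∈ Idl dn.length (dnf dn), D ≠ ∅ →
    e D = ∑ x ∈ D.filter (fun x => D.erase x ∈ Idl dn.length (dnf dn)), e (D.erase x)

theorem topD_sub {F : Finset ℕ} (o : Option ℕ) :
    bs (topD dn o) ⊆ F ↔ TopIn (dnf dn) F o := by
  cases o with
  | none =>
    show bs 0 ⊆ F ↔ True
    rw [bs_zero]
    simp
  | some x =>
    show bs (gt dn x) ⊆ F ↔ dnf dn x ⊆ F
    rw [gt_eq]
    rfl

/-- one step of `row` -/
theorem row_step (h : Hyp dn pe ne e c1 c2 c3) {sat : List ℕ} {l1 l2 l3 r1 r2 r3 : List ℕ}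
    (h1 : c1 = l1.reverse ++ r1) (h2 : c2 = l2.reverse ++ r2) (h3 : c3 = l3.reverse ++ r3)
    {sp' : List Sp} (hsp : SpEq sp' sp (Nat.lor (Nat.lor (msk l1) (msk l2)) (msk l3)))
    {es : List Ent} {bs' as' : List Cell} {k : List Cell → Bool}
    (hr : row sat (Nat.pred (Nat.shiftLeft 1 dn.length)) (Nat.lor (msk l1) (msk l2))
      (Nat.lor (topD dn l1.head?) (topD dn l2.head?)) (topE pe l1.head?) (topE ne l1.head?)
      (topE pe l2.head?) (topE ne l2.head?) sp' (ent dn pe ne l3 :: es)
      (pr3 dn pe ne sp e l1 l2 l3) (pr2 dn pe ne sp e l1 l2 l3 :: bs')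
      (pr1 dn pe ne sp e l1 l2 l3 :: as') k = true) :
    row sat (Nat.pred (Nat.shiftLeft 1 dn.length)) (Nat.lor (msk l1) (msk l2))
      (Nat.lor (topD dn l1.head?) (topD dn l2.head?)) (topE pe l1.head?) (topE ne l1.head?)
      (topE pe l2.head?) (topE ne l2.head?) sp' es
      (V dn pe ne sp e l1 l2 l3) bs' as' (fun r => k (V dn pe ne sp e l1 l2 l3 :: r)) = true ∧
    Good dn pe ne sp e sat l1 l2 l3 := by
  have hcov := cfg_cov h.cfg h1 h2 h3
  have hiff := hcov.idl_iff h.tr
  have hm := U_mask l1 l2 l3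
  have hsub : sub (Nat.lor (Nat.lor (topD dn l1.head?) (topD dn l2.head?)) (topD dn l3.head?))
      (Nat.lor (Nat.lor (msk l1) (msk l2)) (msk l3)) = true ↔
      U l1 l2 l3 ∈ Idl dn.length (dnf dn) := by
    rw [sub_iff, hm, bs_lor, bs_lor, union_subset_iff, union_subset_iff, topD_sub, topD_sub,
      topD_sub, hiff, and_assoc]
  have hrow : row sat (Nat.pred (Nat.shiftLeft 1 dn.length)) (Nat.lor (msk l1) (msk l2))
      (Nat.lor (topD dn l1.head?) (topD dn l2.head?)) (topE pe l1.head?) (topE ne l1.head?)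
      (topE pe l2.head?) (topE ne l2.head?) sp' (ent dn pe ne l3 :: es)
      (pr3 dn pe ne sp e l1 l2 l3) (pr2 dn pe ne sp e l1 l2 l3 :: bs')
      (pr1 dn pe ne sp e l1 l2 l3 :: as') k =
      cond (sub (Nat.lor (Nat.lor (topD dn l1.head?) (topD dn l2.head?)) (topD dn l3.head?))
        (Nat.lor (Nat.lor (msk l1) (msk l2)) (msk l3)))
        ((fun c : Cell => cond (cond (Nat.ble c.p c.n) true
          (cond (Nat.beq (Nat.lor (Nat.lor (msk l1) (msk l2)) (msk l3))
            (Nat.pred (Nat.shiftLeft 1 dn.length))) false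
            (inSat sat (Nat.lor (Nat.lor (msk l1) (msk l2)) (msk l3)))))
          (row sat (Nat.pred (Nat.shiftLeft 1 dn.length)) (Nat.lor (msk l1) (msk l2))
            (Nat.lor (topD dn l1.head?) (topD dn l2.head?)) (topE pe l1.head?) (topE ne l1.head?)
            (topE pe l2.head?) (topE ne l2.head?) sp' es c bs' as' (fun r => k (c :: r))) false)
          (nc (topE pe l1.head?) (topE ne l1.head?) (topE pe l2.head?) (topE ne l2.head?) sp'
            (ent dn pe ne l3) (Nat.lor (Nat.lor (msk l1) (msk l2)) (msk l3))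
            (pr3 dn pe ne sp e l1 l2 l3) (pr2 dn pe ne sp e l1 l2 l3)
            (pr1 dn pe ne sp e l1 l2 l3)))
        (row sat (Nat.pred (Nat.shiftLeft 1 dn.length)) (Nat.lor (msk l1) (msk l2))
            (Nat.lor (topD dn l1.head?) (topD dn l2.head?)) (topE pe l1.head?) (topE ne l1.head?)
            (topE pe l2.head?) (topE ne l2.head?) sp' es zero bs' as' (fun r => k (zero :: r))) :=
    rfl
  rw [hrow] at hr
  by_cases hF : U l1 l2 l3 ∈ Idl dn.length (dnf dn)
  · rw [hsub.2 hF, cell_V h.cfg h.ope h.one h.e0 h.er h1 h2 h3 hsp hF] at hr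
    simp only [cond_true] at hr
    rw [pre_cond] at hr
    refine ⟨hr.2, fun _ hns => ?_⟩
    have hV : V dn pe ne sp e l1 l2 l3 =
        ⟨e (U l1 l2 l3), PP dn pe sp e (U l1 l2 l3), NN dn ne sp e (U l1 l2 l3)⟩ := by
      unfold V cv
      rw [if_pos hF]
    rw [hV] at hr
    have h5 := hr.1
    simp only at h5
    cases hb : Nat.ble (PP dn pe sp e (U l1 l2 l3)) (NN dn ne sp e (U l1 l2 l3)) with
    | true => exact Nat.le_of_ble_eq_true hb
    | false =>
      exfalso
      rw [hb] at h5
      simp only [cond_false] at h5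
      apply hns
      cases hq : Nat.beq (Nat.lor (Nat.lor (msk l1) (msk l2)) (msk l3))
          (Nat.pred (Nat.shiftLeft 1 dn.length)) with
      | true =>
        rw [hq] at h5
        exact absurd h5 (by simp)
      | false =>
        rw [hq] at h5
        simp only [cond_false] at h5
        refine ⟨fun hU => ?_, ?_⟩
        · rw [← hm, ← bs_full] at hU
          rw [bs_inj hU, beq_iff.2 rfl] at hq
          exact absurd hq (by simp)
        · have := inSat_iff.1 h5
          rw [hm] at this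
          exact this
  · have h6 : sub (Nat.lor (Nat.lor (topD dn l1.head?) (topD dn l2.head?)) (topD dn l3.head?))
        (Nat.lor (Nat.lor (msk l1) (msk l2)) (msk l3)) = false := by
      cases hb : sub (Nat.lor (Nat.lor (topD dn l1.head?) (topD dn l2.head?))
          (topD dn l3.head?)) (Nat.lor (Nat.lor (msk l1) (msk l2)) (msk l3)) with
      | true => exact absurd (hsub.1 hb) hF
      | false => rfl
    rw [h6] at hr
    simp only [cond_false] at hr
    have hV : V dn pe ne sp e l1 l2 l3 = zero := by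
      unfold V cv
      rw [if_neg hF]
    rw [hV]
    exact ⟨hr, fun h7 => absurd h7 hF⟩

theorem row_ok (h : Hyp dn pe ne e c1 c2 c3) {sat : List ℕ} {l1 l2 r1 r2 : List ℕ}
    (h1 : c1 = l1.reverse ++ r1) (h2 : c2 = l2.reverse ++ r2) {sp' : List Sp}
    (hsp : ∀ l3 r3, c3 = l3.reverse ++ r3 →
      SpEq sp' sp (Nat.lor (Nat.lor (msk l1) (msk l2)) (msk l3)))
    (c l : List ℕ) (h3 : c3 = l.reverse ++ c) (k : List Cell → Bool)
    (hr : row sat (Nat.pred (Nat.shiftLeft 1 dn.length)) (Nat.lor (msk l1) (msk l2))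
      (Nat.lor (topD dn l1.head?) (topD dn l2.head?)) (topE pe l1.head?) (topE ne l1.head?)
      (topE pe l2.head?) (topE ne l2.head?) sp' ((l :: pfx l c).map (ent dn pe ne))
      (pr3 dn pe ne sp e l1 l2 l) ((l :: pfx l c).map (pr2 dn pe ne sp e l1 l2))
      ((l :: pfx l c).map (pr1 dn pe ne sp e l1 l2)) k = true) :
    k ((l :: pfx l c).map (V dn pe ne sp e l1 l2)) = true ∧
      ∀ l3 ∈ l :: pfx l c, Good dn pe ne sp e sat l1 l2 l3 := by
  induction c generalizing l k with
  | nil =>
    obtain ⟨h4, h5⟩ := row_step h h1 h2 h3 (hsp l [] h3) hr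
    refine ⟨h4, fun l3 hl3 => ?_⟩
    rw [show l :: pfx l [] = [l] from rfl, List.mem_singleton] at hl3
    rw [hl3]
    exact h5
  | cons x c ih =>
    obtain ⟨h4, h5⟩ := row_step h h1 h2 h3 (hsp l _ h3) hr
    have h6 : c3 = (x :: l).reverse ++ c := by rw [h3]; simp
    obtain ⟨h7, h8⟩ := ih (x :: l) h6 _ h4
    refine ⟨h7, fun l3 hl3 => ?_⟩
    rcases List.mem_cons.1 hl3 with h9 | h9
    · rw [h9]
      exact h5
    · exact h8 l3 h9

theorem pre_full {c l r : List ℕ} (h : c = l.reverse ++ r) : bs (msk l) ⊆ bs (full c) := by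
  rw [bs_msk, bs_full']
  intro x hx
  rw [List.mem_toFinset] at hx ⊢
  rw [h]
  simp [hx]

theorem SpEq.trans {a b c : List Sp} {m : ℕ} (h1 : SpEq a b m) (h2 : SpEq b c m) :
    SpEq a c m := fun acc => ⟨(h1 acc).1.trans (h2 acc).1, (h1 acc).2.trans (h2 acc).2⟩

theorem plane_ok (h : Hyp dn pe ne e c1 c2 c3) {sat : List ℕ} {l1 r1 : List ℕ}
    (h1 : c1 = l1.reverse ++ r1) {sp1 : List Sp}
    (hsp : ∀ l2 r2 l3 r3, c2 = l2.reverse ++ r2 → c3 = l3.reverse ++ r3 →
      SpEq sp1 sp (Nat.lor (Nat.lor (msk l1) (msk l2)) (msk l3)))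
    (c l : List ℕ) (h2 : c2 = l.reverse ++ c) (k : List (List Cell) → Bool)
    (hr : plane sat (Nat.pred (Nat.shiftLeft 1 dn.length)) (msk l1) (topD dn l1.head?)
      (topE pe l1.head?) (topE ne l1.head?) sp1 (full c3)
      (([] :: pfx [] c3).map (ent dn pe ne)) ((l :: pfx l c).map (ent dn pe ne))
      (([] :: pfx [] c3).map (pr2 dn pe ne sp e l1 l))
      ((l :: pfx l c).map fun l2 => ([] :: pfx [] c3).map (pr1 dn pe ne sp e l1 l2)) k = true) :
    k ((l :: pfx l c).map fun l2 => ([] :: pfx [] c3).map (V dn pe ne sp e l1 l2)) = true ∧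
      ∀ l2 ∈ l :: pfx l c, ∀ l3 ∈ [] :: pfx [] c3, Good dn pe ne sp e sat l1 l2 l3 := by
  have hspf : ∀ l2 r2, c2 = l2.reverse ++ r2 → ∀ l3 r3, c3 = l3.reverse ++ r3 →
      SpEq (flt sp1 (msk l2) (Nat.lor (Nat.lor (msk l1) (msk l2)) (full c3))) sp
        (Nat.lor (Nat.lor (msk l1) (msk l2)) (msk l3)) := by
    intro l2 r2 h4 l3 r3 h5
    refine (flt_eq sp1 _ _ _ ?_ ?_).trans (hsp l2 r2 l3 r3 h4 h5)
    · rw [bs_lor, bs_lor]
      exact subset_union_right.trans subset_union_left
    · rw [bs_lor, bs_lor, bs_lor, bs_lor]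
      exact union_subset_union_right (pre_full h5)
  induction c generalizing l k with
  | nil =>
    obtain ⟨h4, h5⟩ := row_ok h h1 h2 (hspf l [] h2) c3 [] rfl (fun r => k [r]) hr
    refine ⟨h4, fun l2 hl2 => ?_⟩
    rw [show l :: pfx l [] = [l] from rfl, List.mem_singleton] at hl2
    rw [hl2]
    exact h5
  | cons x c ih =>
    obtain ⟨h4, h5⟩ := row_ok h h1 h2 (hspf l _ h2) c3 [] rfl
      (fun r => plane sat (Nat.pred (Nat.shiftLeft 1 dn.length)) (msk l1) (topD dn l1.head?)
        (topE pe l1.head?) (topE ne l1.head?) sp1 (full c3)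
        (([] :: pfx [] c3).map (ent dn pe ne)) (((x :: l) :: pfx (x :: l) c).map (ent dn pe ne)) r
        (((x :: l) :: pfx (x :: l) c).map fun l2 =>
          ([] :: pfx [] c3).map (pr1 dn pe ne sp e l1 l2)) (fun rs => k (r :: rs))) hr
    have h6 : c2 = (x :: l).reverse ++ c := by rw [h2]; simp
    obtain ⟨h7, h8⟩ := ih (x :: l) h6
      (fun rs => k (([] :: pfx [] c3).map (V dn pe ne sp e l1 l) :: rs)) h4
    refine ⟨h7, fun l2 hl2 => ?_⟩
    rcases List.mem_cons.1 hl2 with h9 | h9
    · rw [h9]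
      exact h5
    · exact h8 l2 h9

theorem cube_ok (h : Hyp dn pe ne e c1 c2 c3) {sat : List ℕ}
    (c l : List ℕ) (h1 : c1 = l.reverse ++ c)
    (hr : cube sat (Nat.pred (Nat.shiftLeft 1 dn.length)) sp (full c3)
      (Nat.lor (full c2) (full c3))
      (([] :: pfx [] c3).map (ent dn pe ne)) (([] :: pfx [] c2).map (ent dn pe ne))
      (([] :: pfx [] c3).map fun _ => zero) ((l :: pfx l c).map (ent dn pe ne))
      (([] :: pfx [] c3).map (pr2 dn pe ne sp e l []))
      (([] :: pfx [] c2).map fun l2 => ([] :: pfx [] c3).map (pr1 dn pe ne sp e l l2)) = true) :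
    ∀ l1 ∈ l :: pfx l c, ∀ l2 ∈ [] :: pfx [] c2, ∀ l3 ∈ [] :: pfx [] c3,
      Good dn pe ne sp e sat l1 l2 l3 := by
  have hspf : ∀ l1 r1, c1 = l1.reverse ++ r1 → ∀ l2 r2 l3 r3, c2 = l2.reverse ++ r2 →
      c3 = l3.reverse ++ r3 →
      SpEq (flt sp (msk l1) (Nat.lor (msk l1) (Nat.lor (full c2) (full c3)))) sp
        (Nat.lor (Nat.lor (msk l1) (msk l2)) (msk l3)) := by
    intro l1 r1 h3 l2 r2 l3 r3 h4 h5
    refine flt_eq sp _ _ _ ?_ ?_
    · rw [bs_lor, bs_lor]
      exact subset_union_left.trans subset_union_left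
    · rw [bs_lor, bs_lor, bs_lor, bs_lor, union_assoc]
      exact union_subset_union_right (union_subset_union (pre_full h4) (pre_full h5))
  induction c generalizing l with
  | nil =>
    obtain ⟨h4, h5⟩ := plane_ok h h1 (hspf l [] h1) c2 [] rfl (fun _ => true) hr
    intro l1 hl1
    rw [show l :: pfx l [] = [l] from rfl, List.mem_singleton] at hl1
    rw [hl1]
    exact h5
  | cons x c ih =>
    obtain ⟨h4, h5⟩ := plane_ok h h1 (hspf l _ h1) c2 [] rfl
      (fun pl => cube sat (Nat.pred (Nat.shiftLeft 1 dn.length)) sp (full c3)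
        (Nat.lor (full c2) (full c3))
        (([] :: pfx [] c3).map (ent dn pe ne)) (([] :: pfx [] c2).map (ent dn pe ne))
        (([] :: pfx [] c3).map fun _ => zero) (((x :: l) :: pfx (x :: l) c).map (ent dn pe ne))
        (([] :: pfx [] c3).map fun _ => zero) pl) hr
    have h6 : c1 = (x :: l).reverse ++ c := by rw [h1]; simp
    have h7 : (([] :: pfx [] c3).map fun _ => zero) =
        ([] :: pfx [] c3).map (pr2 dn pe ne sp e (x :: l) []) := by
      refine List.map_congr_left fun l3 _ => ?_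
      rw [pr2_nil, if_neg]
      rintro ⟨h8, -⟩
      exact absurd h8 (by simp)
    have h8 := ih (x :: l) h6 (by rw [← h7]; exact h4)
    intro l1 hl1
    rcases List.mem_cons.1 hl1 with h9 | h9
    · rw [h9]
      exact h5
    · exact h8 l1 h9

theorem mem_pfx_take (c l : List ℕ) (i : ℕ) : (c.take i).reverse ++ l ∈ l :: pfx l c := by
  induction c generalizing l i with
  | nil => simp
  | cons x c ih =>
    cases i with
    | zero => simp
    | succ i =>
      have h := ih (x :: l) i
      have h1 : pfx l (x :: c) = (x :: l) :: pfx (x :: l) c := rfl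
      rw [h1, List.take_succ_cons, List.reverse_cons, List.append_assoc]
      exact List.mem_cons_of_mem _ h

theorem pfx_ne (c l : List ℕ) : ∀ l' ∈ pfx l c, l' ≠ [] := by
  induction c generalizing l with
  | nil => intro l' h; exact absurd h (List.not_mem_nil)
  | cons x c ih =>
    intro l' h
    have h1 : pfx l (x :: c) = (x :: l) :: pfx (x :: l) c := rfl
    rw [h1] at h
    rcases List.mem_cons.1 h with rfl | h
    · simp
    · exact ih _ l' h

end

/-- **The executable leaf is sound.** -/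
theorem nleaf_sound : NleafSound nleaf := by
  intro c1 c2 c3 dn sat pe ne sp e hlt htr he0 her hn
  refine ⟨PP dn pe sp e, NN dn ne sp e, fun F _ => Sg_eq _ _, fun F _ => Sg_eq _ _, ?_⟩
  unfold nleaf at hn
  rw [pre_cond, pre_cond, pre_cond, pre_cond, pre_cond, pre_cond, pre_cond] at hn
  obtain ⟨k1, k2, k3, k4, k5, k6, k7, hn⟩ := hn
  have hp := part3_of htr k1 k2 k3 k4 k5
  have hcfg : Cfg dn c1 c2 c3 := by
    refine ⟨hp.ch1, hp.ch2, hp.ch3, ?_, fun x => ?_⟩
    · rw [List.append_assoc]
      exact hp.nd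
    · rw [List.append_assoc]
      exact (hp.cov x).symm
  have hyp : Hyp dn pe ne e c1 c2 c3 := ⟨hcfg, htr, k6, k7, he0, her⟩
  have z3 : zrow zero c3 = (pfx [] c3).map fun _ => zero := zrow_eq _ _ _
  have q1 : ∀ c : List ℕ, (⟨0, 0, [], []⟩ : Ent) :: ents dn pe ne c 0 =
      ([] :: pfx [] c).map (ent dn pe ne) := by
    intro c
    have := ents_eq dn pe ne c []
    rw [show msk [] = 0 from rfl] at this
    rw [this]
    rfl
  have q2 : zero :: zrow zero c3 = ([] :: pfx [] c3).map fun _ => zero := by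
    rw [z3]
    rfl
  have q3 : (⟨1, 1, 0⟩ : Cell) :: zrow zero c3 =
      ([] :: pfx [] c3).map (pr2 dn pe ne sp e [] []) := by
    rw [z3, List.map_cons, pr2_nil, if_pos ⟨rfl, rfl⟩]
    congr 1
    refine List.map_congr_left fun l3 hl3 => ?_
    rw [pr2_nil, if_neg]
    rintro ⟨-, h8⟩
    exact pfx_ne c3 [] l3 hl3 h8
  have q4 : (zero :: zrow zero c3) :: zrow (zero :: zrow zero c3) c2 =
      ([] :: pfx [] c2).map fun l2 => ([] :: pfx [] c3).map (pr1 dn pe ne sp e [] l2) := by
    rw [zrow_eq (zero :: zrow zero c3) c2 [], q2]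
    rfl
  simp only [] at hn
  rw [q1, q1, q1, q2, q3] at hn
  rw [q2] at q4
  have hn' := hn
  rw [len_eq] at hn'
  rw [q4] at hn'
  have key := cube_ok hyp c1 [] rfl hn'
  intro F hF hns
  obtain ⟨i, -, j, -, l, -, hFe⟩ := hp.exists_at hF
  have m1 := mem_pfx_take c1 [] i
  have m2 := mem_pfx_take c2 [] j
  have m3 := mem_pfx_take c3 [] l
  rw [List.append_nil] at m1 m2 m3
  have hg := key _ m1 _ m2 _ m3
  have hU : U (c1.take i).reverse (c2.take j).reverse (c3.take l).reverse = F := by
    rw [hFe]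
    unfold U
    simp
  unfold Good at hg
  rw [hU] at hg
  exact hg hF hns

end Leaf

/-- the leaf -/
def leafB : List ℕ → List ℕ → List ℕ → List ℕ → List ℕ → List (Row × ℕ) → Bool :=
  mkLeaf Leaf.nleaf

theorem leaf_sound : LeafSound leafB := mkLeaf_sound Leaf.nleaf_sound

end Pool.Agent.W3
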