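import Pool.Agent.W3.Run

/-!
# Basic facts on masks and states
-/

set_option autoImplicit false

namespace Pool.Agent.W3

open Finset

theorem nbeq {a b : ℕ} : Nat.beq a b = true ↔ a = b :=
  ⟨Nat.eq_of_beq_eq_true, fun h => by rw [h]; exact Nat.beq_refl b⟩

theorem subm_iff {a b : ℕ} : subm a b = true ↔ ∀ i, a.testBit i = true → b.testBit i = true := by
  unfold subm
  rw [nbeq]
  constructor
  · intro h i hi
    have h1 : (a &&& b).testBit i = true := by
      rw [show a &&& b = a from h]; exact hi
    rw [Nat.testBit_land, Bool.and_eq_true] at h1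
    exact h1.2
  · intro h
    show a &&& b = a
    apply Nat.eq_of_testBit_eq
    intro i
    rw [Nat.testBit_land]
    cases ha : a.testBit i with
    | false => rfl
    | true => rw [h i ha]; rfl

theorem bit_eq (m i : ℕ) : bit m i = m.testBit i := by
  unfold bit Nat.testBit
  have h : (m >>> i) &&& 1 = 1 &&& (m >>> i) := Nat.land_comm _ _
  show Nat.beq ((m >>> i) &&& 1) 1 = (1 &&& (m >>> i) != 0)
  rw [h, Nat.one_and_eq_mod_two]
  rcases Nat.mod_two_eq_zero_or_one (m >>> i) with h0 | h0 <;> rw [h0] <;> rfl

theorem lt_of_bit {m k i : ℕ} (hm : m < 2 ^ k) (h : m.testBit i = true) : i < k := by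
  by_contra hk
  have h1 : m < 2 ^ i := lt_of_lt_of_le hm (Nat.pow_le_pow_right (by norm_num) (not_lt.mp hk))
  rw [Nat.testBit_lt_two_pow h1] at h
  exact Bool.false_ne_true h

theorem nth_eq {l : List ℕ} {i : ℕ} (h : i < l.length) : nth l i = l[i] := by
  induction l generalizing i with
  | nil => exact absurd h (by simp)
  | cons x l ih =>
    cases i with
    | zero => rfl
    | succ i => exact ih (by simpa using h)

theorem idlA_iff {l : List ℕ} {i m : ℕ} :
    idlA l i m = true ↔ ∀ (j : ℕ) (h : j < l.length), m.testBit (i + j) = true →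
      subm l[j] m = true := by
  induction l generalizing i with
  | nil => simp [idlA]
  | cons d l ih =>
    have key : idlA l (i + 1) m = true ↔ ∀ (j : ℕ) (h : j < l.length),
        m.testBit (i + (j + 1)) = true → subm l[j] m = true := by
      rw [ih]
      refine forall_congr' fun j => forall_congr' fun h => ?_
      rw [show i + 1 + j = i + (j + 1) by ring]
    constructor
    · intro h j hj hb
      cases j with
      | zero =>
        unfold idlA at h
        rw [bit_eq] at h
        rw [Nat.add_zero] at hb
        rw [hb] at h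
        simp only [cond_true] at h
        cases hs : subm d m with
        | true => exact hs
        | false => rw [hs] at h; exact absurd h (by simp)
      | succ j =>
        have h' : idlA l (i + 1) m = true := by
          unfold idlA at h
          cases hb' : bit m i <;> rw [hb'] at h
          · exact h
          · simp only [cond_true] at h
            cases hs : subm d m <;> rw [hs] at h
            · exact absurd h (by simp)
            · exact h
        exact key.mp h' j (by simpa using hj) hb
    · intro h
      unfold idlA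
      have h' : idlA l (i + 1) m = true := key.mpr fun j hj hb =>
        h (j + 1) (by simpa using hj) hb
      cases hb : bit m i with
      | false => simpa using h'
      | true =>
        rw [bit_eq] at hb
        have := h 0 (by simp) (by simpa using hb)
        simp only [List.getElem_cons_zero] at this
        rw [this]
        simpa using h'

theorem idl_iff {dn : List ℕ} {m : ℕ} :
    idl dn m = true ↔ m < 2 ^ dn.length ∧ ∀ (j : ℕ) (h : j < dn.length), m.testBit j = true →
      subm dn[j] m = true := by
  unfold idl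
  have h0 : (Nat.beq (Nat.shiftRight m dn.length) 0 = true) ↔ m < 2 ^ dn.length := by
    rw [nbeq]
    show m >>> dn.length = 0 ↔ _
    rw [Nat.shiftRight_eq_div_pow, Nat.div_eq_zero_iff]
    constructor
    · rintro (h | h)
      · exact absurd h (by positivity)
      · exact h
    · intro h; exact Or.inr h
  have h1 := @idlA_iff dn 0 m
  simp only [Nat.zero_add] at h1
  cases hb : Nat.beq (Nat.shiftRight m dn.length) 0 with
  | false =>
    rw [hb] at h0
    simp only [cond_false, Bool.false_eq_true, false_iff, not_and]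
    intro h
    exact absurd (h0.mpr h) (by simp)
  | true =>
    rw [hb] at h0
    simp only [cond_true]
    rw [h1]
    exact ⟨fun h => ⟨h0.mp rfl, h⟩, fun h => h.2⟩

theorem isSat_iff {l : List ℕ} {D : ℕ} : isSat l D = true ↔ ∃ S ∈ l, subm D S = true := by
  induction l with
  | nil => simp [isSat]
  | cons s l ih =>
    unfold isSat
    cases h : subm D s with
    | true => simp [h]
    | false => simp [h, ih]

theorem maskL_bit {l : List ℕ} {i : ℕ} : (maskL l).testBit i = true ↔ i ∈ l := by
  induction l with
  | nil => simp [maskL]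
  | cons x l ih =>
    unfold maskL
    show ((1 <<< x) ||| maskL l).testBit i = true ↔ _
    rw [Nat.testBit_lor, Bool.or_eq_true, ih, Nat.one_shiftLeft, Nat.testBit_two_pow]
    simp only [decide_eq_true_eq, List.mem_cons]
    constructor
    · rintro (h | h)
      · exact Or.inl h.symm
      · exact Or.inr h
    · rintro (h | h)
      · exact Or.inl h.symm
      · exact Or.inr h

theorem lt_two_pow_of_bits {m k : ℕ} (h : ∀ i, m.testBit i = true → i < k) : m < 2 ^ k := by
  by_contra hk
  obtain ⟨i, hi, hb⟩ := Nat.exists_ge_and_testBit_of_ge_two_pow (not_lt.mp hk)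
  exact absurd (h i hb) (not_lt.mpr hi)

section Im

variable {V : Type} [DecidableEq V] {φ : ℕ → V}

theorem im_mono {a b : ℕ} (h : subm a b = true) : im φ a ⊆ im φ b := by
  intro v hv
  obtain ⟨i, hi, rfl⟩ := mem_im.mp hv
  exact mem_im.mpr ⟨i, subm_iff.mp h i hi, rfl⟩

theorem im_zero : im φ 0 = ∅ := by
  ext v
  simp [mem_im]

variable {r : V → V → Prop} {dn sat : List ℕ}

theorem Base.mem_iff (B : Base r φ dn sat) {m i : ℕ} (hm : m < 2 ^ dn.length)
    (hi : i < dn.length) : φ i ∈ im φ m ↔ m.testBit i = true := by
  constructor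
  · intro h
    obtain ⟨j, hj, he⟩ := mem_im.mp h
    rwa [B.inj j (lt_of_bit hm hj) i hi he] at hj
  · intro h
    exact mem_im.mpr ⟨i, h, rfl⟩

theorem Base.lt' (B : Base r φ dn sat) (i : ℕ) (h : i < dn.length) : dn[i] < 2 ^ dn.length :=
  lt_of_lt_of_le (B.lt i h) (Nat.pow_le_pow_right (by norm_num) h.le)

theorem Base.dn_im (B : Base r φ dn sat) {m : ℕ} (h : idl dn m = true) : Dn r (im φ m) := by
  rw [idl_iff] at h
  intro v hv u hu
  obtain ⟨i, hi, rfl⟩ := mem_im.mp hv
  have hik : i < dn.length := lt_of_bit h.1 hi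
  by_cases he : u = φ i
  · rw [he]; exact hv
  · exact im_mono (h.2 i hik hi) ((B.down i hik u).mp ⟨hu, he⟩)

theorem Base.idl_of_dn (B : Base r φ dn sat) {m : ℕ} (hm : m < 2 ^ dn.length)
    (h : Dn r (im φ m)) : idl dn m = true := by
  rw [idl_iff]
  refine ⟨hm, fun j hj hb => subm_iff.mpr fun i hi => ?_⟩
  have hij : i < dn.length := lt_of_bit (B.lt' j hj) hi
  rw [← B.mem_iff hm hij]
  exact h (φ j) (mem_im.mpr ⟨j, hb, rfl⟩) (φ i)
    ((B.down j hj (φ i)).mpr (mem_im.mpr ⟨i, hi, rfl⟩)).1

/-- an element which is not known is not below a known one -/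
theorem Base.known_down (B : Base r φ dn sat) {u v : V} (hv : ¬ Unk φ dn.length v)
    (h : r u v) : ¬ Unk φ dn.length u := by
  unfold Unk at hv ⊢
  push Not at hv ⊢
  obtain ⟨i, hi, rfl⟩ := hv
  by_cases he : u = φ i
  · exact ⟨i, hi, he.symm⟩
  · obtain ⟨j, hj, hj'⟩ := mem_im.mp ((B.down i hi u).mp ⟨h, he⟩)
    exact ⟨j, lt_of_bit (B.lt' i hi) hj, hj'⟩

theorem Base.isSat (B : Base r φ dn sat) {D : ℕ} (h : isSat sat D = true) {v : V}
    (hv : Unk φ dn.length v) : ∃ u, r u v ∧ u ≠ v ∧ u ∉ im φ D := by
  obtain ⟨S, hS, hs⟩ := isSat_iff.mp h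
  obtain ⟨u, h1, h2, h3⟩ := B.sat S hS v hv
  exact ⟨u, h1, h2, fun h4 => h3 (im_mono hs h4)⟩

end Im

end Pool.Agent.W3
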