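import Mathlib

/-!
# The leaf of the search over sets of natural numbers

The known elements are `0, ..., k - 1`, `dn x` is the strict down-set of `x`.  `G` is a
superharmonic function on the known down-sets, harmonic on the saturated ones.
-/

set_option autoImplicit false

namespace Pool.Agent.W3

open Finset

/-- the down-sets of the known elements -/
def Idl (k : ℕ) (dn : ℕ → Finset ℕ) : Finset (Finset ℕ) :=
  (range k).powerset.filter fun D => ∀ x ∈ D, dn x ⊆ D

theorem mem_Idl {k : ℕ} {dn : ℕ → Finset ℕ} {D : Finset ℕ} :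
    D ∈ Idl k dn ↔ D ⊆ range k ∧ ∀ x ∈ D, dn x ⊆ D := by
  simp [Idl]

/-- what the leaf uses about the numbers `G D` -/
structure LSem (k : ℕ) (dn : ℕ → Finset ℕ) (sat : Finset ℕ → Prop) (G e : Finset ℕ → ℕ) :
    Prop where
  pos : 0 < G ∅
  sup : ∀ D ∈ Idl k dn, ∑ b ∈ (range k).filter (fun b => b ∉ D ∧ dn b ⊆ D), G (insert b D) ≤ G D
  harm : ∀ D ∈ Idl k dn, sat D →
    ∑ b ∈ (range k).filter (fun b => b ∉ D ∧ dn b ⊆ D), G (insert b D) = G D
  e_empty : e ∅ = 1
  e_rec : ∀ D ∈ Idl k dn, D ≠ ∅ →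
    e D = ∑ x ∈ D.filter (fun x => D.erase x ∈ Idl k dn), e (D.erase x)

variable {k : ℕ} {dn : ℕ → Finset ℕ}

/-- the pairs `F, x` with `x` removable and the pairs `D, x` with `x` addable -/
theorem sum_edges {M : Type*} [AddCommMonoid M] (hdn : ∀ x < k, x ∉ dn x)
    (f : Finset ℕ → ℕ → M) :
    ∑ F ∈ Idl k dn, ∑ x ∈ F.filter (fun x => F.erase x ∈ Idl k dn), f (F.erase x) x =
      ∑ D ∈ Idl k dn, ∑ b ∈ (range k).filter (fun b => b ∉ D ∧ dn b ⊆ D), f D b := by
  rw [sum_sigma', sum_sigma']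
  refine sum_bij' (fun x _ => ⟨x.1.erase x.2, x.2⟩) (fun x _ => ⟨insert x.2 x.1, x.2⟩) ?_ ?_ ?_ ?_ ?_
  · rintro ⟨F, a⟩ hx
    rw [mem_sigma, mem_filter] at hx
    obtain ⟨h1, h2, h3⟩ := hx
    rw [mem_sigma, mem_filter, mem_range]
    have h4 := mem_Idl.1 h1
    have hak : a < k := mem_range.1 (h4.1 h2)
    refine ⟨h3, hak, notMem_erase a F, ?_⟩
    exact subset_erase.2 ⟨h4.2 a h2, hdn a hak⟩
  · rintro ⟨D, a⟩ hx
    rw [mem_sigma, mem_filter, mem_range] at hx
    obtain ⟨h1, h2, h3, h4⟩ := hx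
    have h5 := mem_Idl.1 h1
    rw [mem_sigma, mem_filter]
    refine ⟨mem_Idl.2 ⟨insert_subset (mem_range.2 h2) h5.1, ?_⟩, mem_insert_self a D, ?_⟩
    · intro x hx
      rcases mem_insert.1 hx with rfl | h
      · exact h4.trans (subset_insert _ _)
      · exact (h5.2 x h).trans (subset_insert _ _)
    · dsimp only at h3 ⊢
      rw [erase_insert h3]
      exact h1
  · rintro ⟨F, a⟩ hx
    rw [mem_sigma, mem_filter] at hx
    exact Sigma.ext (insert_erase hx.2.1) HEq.rfl
  · rintro ⟨D, a⟩ hx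
    rw [mem_sigma, mem_filter] at hx
    exact Sigma.ext (erase_insert hx.2.2.1) HEq.rfl
  · rintro ⟨F, a⟩ hx
    rfl

/-- summation by parts -/
theorem parts_le (hdn : ∀ x < k, x ∉ dn x) {sat : Finset ℕ → Prop} {G e : Finset ℕ → ℕ}
    (h : LSem k dn sat G e) (kp kn P N : Finset ℕ → ℕ)
    (hP : ∀ F ∈ Idl k dn, P F = kp F + ∑ x ∈ F.filter (fun x => F.erase x ∈ Idl k dn), P (F.erase x))
    (hN : ∀ F ∈ Idl k dn, N F = kn F + ∑ x ∈ F.filter (fun x => F.erase x ∈ Idl k dn), N (F.erase x))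
    (hle : ∀ F ∈ Idl k dn, ¬ sat F → P F ≤ N F) :
    ∑ F ∈ Idl k dn, kp F * G F ≤ ∑ F ∈ Idl k dn, kn F * G F := by
  classical
  have key : ∀ (κ S : Finset ℕ → ℕ), (∀ F ∈ Idl k dn, S F = κ F +
      ∑ x ∈ F.filter (fun x => F.erase x ∈ Idl k dn), S (F.erase x)) →
      ∑ F ∈ Idl k dn, (κ F : ℤ) * G F = ∑ F ∈ Idl k dn, (S F : ℤ) * ((G F : ℤ) -
        ∑ b ∈ (range k).filter (fun b => b ∉ F ∧ dn b ⊆ F), (G (insert b F) : ℤ)) := by
    intro κ S hS
    have h1 : ∀ F ∈ Idl k dn, (κ F : ℤ) * G F = (S F : ℤ) * G F -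
        ∑ x ∈ F.filter (fun x => F.erase x ∈ Idl k dn),
          (S (F.erase x) : ℤ) * (G (insert x (F.erase x)) : ℤ) := by
      intro F hF
      have h3 : ∑ x ∈ F.filter (fun x => F.erase x ∈ Idl k dn),
          (S (F.erase x) : ℤ) * (G (insert x (F.erase x)) : ℤ) =
          (∑ x ∈ F.filter (fun x => F.erase x ∈ Idl k dn), (S (F.erase x) : ℤ)) * G F := by
        rw [sum_mul]
        refine sum_congr rfl fun a ha => ?_
        rw [insert_erase (mem_filter.1 ha).1]
      rw [h3, hS F hF]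
      push_cast
      ring
    have h2 : ∀ F ∈ Idl k dn, (S F : ℤ) * ((G F : ℤ) -
        ∑ b ∈ (range k).filter (fun b => b ∉ F ∧ dn b ⊆ F), (G (insert b F) : ℤ)) =
        (S F : ℤ) * G F - ∑ b ∈ (range k).filter (fun b => b ∉ F ∧ dn b ⊆ F),
          (S F : ℤ) * (G (insert b F) : ℤ) := by
      intro F _
      rw [mul_sub, mul_sum]
    rw [sum_congr rfl h1, sum_congr rfl h2, sum_sub_distrib, sum_sub_distrib,
      sum_edges hdn fun D a => (S D : ℤ) * (G (insert a D) : ℤ)]
  have h3 : ∑ F ∈ Idl k dn, (kp F : ℤ) * G F ≤ ∑ F ∈ Idl k dn, (kn F : ℤ) * G F := by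
    rw [key kp P hP, key kn N hN]
    refine sum_le_sum fun F hF => ?_
    by_cases hs : sat F
    · have h4 : ((G F : ℤ) - ∑ b ∈ (range k).filter (fun b => b ∉ F ∧ dn b ⊆ F),
          (G (insert b F) : ℤ)) = 0 := by
        rw [← h.harm F hF hs]
        push_cast
        ring
      rw [h4, mul_zero, mul_zero]
    · have h4 : (0 : ℤ) ≤ ((G F : ℤ) - ∑ b ∈ (range k).filter (fun b => b ∉ F ∧ dn b ⊆ F),
          (G (insert b F) : ℤ)) := by
        have h5 := h.sup F hF
        have h6 : ((∑ b ∈ (range k).filter (fun b => b ∉ F ∧ dn b ⊆ F), G (insert b F) : ℕ) : ℤ) ≤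
            (G F : ℤ) := by exact_mod_cast h5
        push_cast at h6
        linarith
      exact mul_le_mul_of_nonneg_right (by exact_mod_cast hle F hF hs) h4
  exact_mod_cast h3

/-- the meaning of a majority row `(a, b, w)` -/
def MajOk (k : ℕ) (dn : ℕ → Finset ℕ) (G e : Finset ℕ → ℕ) (a b : ℕ) : Prop :=
  500 * ∑ D ∈ (Idl k dn).filter (fun D => a ∉ D ∧ b ∉ D ∧ insert b D ∈ Idl k dn),
    e D * G (insert b D) ≤ 167 * G ∅

theorem sum_list_mul (l : List ℕ) (c : ℕ) : l.sum * c = (l.map fun x => x * c).sum := by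
  induction l with
  | nil => simp
  | cons a l ih => simp [add_mul, ih]

theorem sum_list_le {α : Type*} (l : List α) (f g : α → ℕ) (h : ∀ x ∈ l, f x ≤ g x) :
    (l.map f).sum ≤ (l.map g).sum := by
  induction l with
  | nil => simp
  | cons a l ih =>
    simp only [List.map_cons, List.sum_cons]
    exact Nat.add_le_add (h a (List.mem_cons_self ..))
      (ih fun x hx => h x (List.mem_cons_of_mem _ hx))

theorem sum_finset_list {α β : Type*} (s : Finset β) (l : List α) (f : β → α → ℕ) :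
    ∑ x ∈ s, (l.map (f x)).sum = (l.map fun a => ∑ x ∈ s, f x a).sum := by
  induction l with
  | nil => simp
  | cons a l ih => simp [sum_add_distrib, ih]

/-- **The leaf.** -/
theorem leaf_abs (hdn : ∀ x < k, x ∉ dn x) {sat : Finset ℕ → Prop} {G e : Finset ℕ → ℕ}
    (h : LSem k dn sat G e) (majs : List (ℕ × ℕ × ℕ))
    (lins : List (ℕ × Finset ℕ × ℕ × Finset ℕ × ℕ)) (P N : Finset ℕ → ℕ)
    (hmaj : ∀ m ∈ majs, MajOk k dn G e m.1 m.2.1)
    (hlin : ∀ l ∈ lins, l.2.1 ∈ Idl k dn ∧ l.2.2.2.1 ∈ Idl k dn ∧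
      l.1 * G l.2.1 ≤ l.2.2.1 * G l.2.2.2.1)
    (hP : ∀ F ∈ Idl k dn, P F = (if F = ∅ then 1 + 167 * (majs.map fun m => m.2.2).sum else 0) +
      (lins.map fun l => if l.2.2.2.1 = F then l.2.2.1 * l.2.2.2.2 else 0).sum +
      ∑ x ∈ F.filter (fun x => F.erase x ∈ Idl k dn), P (F.erase x))
    (hN : ∀ F ∈ Idl k dn, N F =
      (lins.map fun l => if l.2.1 = F then l.1 * l.2.2.2.2 else 0).sum +
      ∑ x ∈ F.filter (fun x => F.erase x ∈ Idl k dn), (N (F.erase x) +
        e (F.erase x) * (majs.map fun m => if m.2.1 = x ∧ m.1 ∉ F then 500 * m.2.2 else 0).sum))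
    (hle : ∀ F ∈ Idl k dn, ¬ sat F → P F ≤ N F) : False := by
  classical
  have hem : ∅ ∈ Idl k dn := mem_Idl.2 ⟨empty_subset _, by simp⟩
  obtain ⟨kp, hkp⟩ : ∃ kp : Finset ℕ → ℕ, kp = fun F =>
    (if F = ∅ then 1 + 167 * (majs.map fun m => m.2.2).sum else 0) +
      (lins.map fun l => if l.2.2.2.1 = F then l.2.2.1 * l.2.2.2.2 else 0).sum := ⟨_, rfl⟩
  obtain ⟨kn, hkn⟩ : ∃ kn : Finset ℕ → ℕ, kn = fun F =>
    (lins.map fun l => if l.2.1 = F then l.1 * l.2.2.2.2 else 0).sum +
      ∑ x ∈ F.filter (fun x => F.erase x ∈ Idl k dn),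
        e (F.erase x) * (majs.map fun m => if m.2.1 = x ∧ m.1 ∉ F then 500 * m.2.2 else 0).sum :=
    ⟨_, rfl⟩
  have key := parts_le hdn h kp kn P N (fun F hF => by rw [hkp]; exact hP F hF)
    (fun F hF => by
      rw [hN F hF, sum_add_distrib, hkn]
      ring) hle
  -- the left side
  have hL : ∑ F ∈ Idl k dn, kp F * G F = (1 + 167 * (majs.map fun m => m.2.2).sum) * G ∅ +
      (lins.map fun l => l.2.2.1 * G l.2.2.2.1 * l.2.2.2.2).sum := by
    have h1 : ∀ F ∈ Idl k dn, kp F * G F =
        (if F = ∅ then (1 + 167 * (majs.map fun m => m.2.2).sum) * G F else 0) +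
        (lins.map fun l => if l.2.2.2.1 = F then l.2.2.1 * l.2.2.2.2 * G F else 0).sum := by
      intro F _
      rw [hkp]
      simp only [add_mul, ite_mul, zero_mul, sum_list_mul, List.map_map]
      congr 2
      refine List.map_congr_left fun l _ => ?_
      simp only [Function.comp]
      split_ifs <;> simp
    rw [sum_congr rfl h1, sum_add_distrib, sum_ite_eq' (Idl k dn) ∅, if_pos hem]
    congr 1
    rw [sum_finset_list]
    congr 1
    refine List.map_congr_left fun l hl => ?_
    rw [sum_ite_eq (Idl k dn) l.2.2.2.1, if_pos (hlin l hl).2.1]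
    ring
  -- the right side
  have hR : ∑ F ∈ Idl k dn, kn F * G F ≤ (lins.map fun l => l.1 * G l.2.1 * l.2.2.2.2).sum +
      (majs.map fun m => 167 * G ∅ * m.2.2).sum := by
    have h1 : ∑ F ∈ Idl k dn, kn F * G F =
        (lins.map fun l => l.1 * G l.2.1 * l.2.2.2.2).sum +
        ∑ F ∈ Idl k dn, ∑ x ∈ F.filter (fun x => F.erase x ∈ Idl k dn),
          e (F.erase x) * (majs.map fun m => if m.2.1 = x ∧ m.1 ∉ F then 500 * m.2.2 else 0).sum *
            G F := by
      have h2 : ∀ F ∈ Idl k dn, kn F * G F =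
          (lins.map fun l => if l.2.1 = F then l.1 * l.2.2.2.2 * G F else 0).sum +
          ∑ x ∈ F.filter (fun x => F.erase x ∈ Idl k dn),
          e (F.erase x) * (majs.map fun m => if m.2.1 = x ∧ m.1 ∉ F then 500 * m.2.2 else 0).sum *
            G F := by
        intro F _
        rw [hkn]
        simp only [add_mul, sum_mul, sum_list_mul, List.map_map]
        congr 2
        refine List.map_congr_left fun l _ => ?_
        simp only [Function.comp]
        split_ifs <;> simp
      rw [sum_congr rfl h2, sum_add_distrib]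
      congr 1
      rw [sum_finset_list]
      congr 1
      refine List.map_congr_left fun l hl => ?_
      rw [sum_ite_eq (Idl k dn) l.2.1, if_pos (hlin l hl).1]
      ring
    rw [h1]
    refine Nat.add_le_add_left ?_ _
    have h2 : ∑ F ∈ Idl k dn, ∑ x ∈ F.filter (fun x => F.erase x ∈ Idl k dn),
          e (F.erase x) * (majs.map fun m => if m.2.1 = x ∧ m.1 ∉ F then 500 * m.2.2 else 0).sum *
            G F =
        (majs.map fun m => ∑ F ∈ Idl k dn, ∑ x ∈ F.filter (fun x => F.erase x ∈ Idl k dn),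
          e (F.erase x) * (if m.2.1 = x ∧ m.1 ∉ F then 500 * m.2.2 else 0) * G F).sum := by
      rw [← sum_finset_list]
      refine sum_congr rfl fun F _ => ?_
      rw [← sum_finset_list]
      refine sum_congr rfl fun x _ => ?_
      rw [mul_comm (e (F.erase x)), sum_list_mul, sum_list_mul, List.map_map, List.map_map]
      congr 1
      refine List.map_congr_left fun m _ => ?_
      simp only [Function.comp]
      ring
    rw [h2]
    refine sum_list_le _ _ _ fun m hm => ?_
    have h3 := hmaj m hm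
    unfold MajOk at h3
    have h4 : ∑ F ∈ Idl k dn, ∑ x ∈ F.filter (fun x => F.erase x ∈ Idl k dn),
          e (F.erase x) * (if m.2.1 = x ∧ m.1 ∉ F then 500 * m.2.2 else 0) * G F ≤
        (500 * ∑ D ∈ (Idl k dn).filter (fun D => m.1 ∉ D ∧ m.2.1 ∉ D ∧
          insert m.2.1 D ∈ Idl k dn), e D * G (insert m.2.1 D)) * m.2.2 := by
      have h5 : ∀ F ∈ Idl k dn, ∑ x ∈ F.filter (fun x => F.erase x ∈ Idl k dn),
          e (F.erase x) * (if m.2.1 = x ∧ m.1 ∉ F then 500 * m.2.2 else 0) * G F =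
          ∑ x ∈ F.filter (fun x => F.erase x ∈ Idl k dn),
            (fun D x => e D * (if m.2.1 = x ∧ m.1 ∉ insert x D then 500 * m.2.2 else 0) *
              G (insert x D)) (F.erase x) x := by
        intro F _
        refine sum_congr rfl fun x hx => ?_
        simp only [insert_erase (mem_filter.1 hx).1]
      rw [sum_congr rfl h5, sum_edges hdn (fun D x => e D * (if m.2.1 = x ∧ m.1 ∉ insert x D then
        500 * m.2.2 else 0) * G (insert x D)), mul_sum, sum_mul, sum_filter]
      refine sum_le_sum fun D hD => ?_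
      by_cases hc : m.1 ∉ D ∧ m.2.1 ∉ D ∧ insert m.2.1 D ∈ Idl k dn
      · rw [if_pos hc]
        calc ∑ b ∈ (range k).filter (fun b => b ∉ D ∧ dn b ⊆ D),
            e D * (if m.2.1 = b ∧ m.1 ∉ insert b D then 500 * m.2.2 else 0) * G (insert b D)
            ≤ ∑ b ∈ (range k).filter (fun b => b ∉ D ∧ dn b ⊆ D),
              if m.2.1 = b then 500 * (e D * G (insert b D)) * m.2.2 else 0 := by
              refine sum_le_sum fun b _ => ?_
              split_ifs with h6 h7 h7
              · exact le_of_eq (by ring)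
              · exact absurd h6.1 h7
              · simp
              · simp
          _ ≤ 500 * (e D * G (insert m.2.1 D)) * m.2.2 := by
              rw [sum_ite_eq]
              split_ifs
              · exact le_rfl
              · exact Nat.zero_le _
      · rw [if_neg hc]
        apply le_of_eq
        refine sum_eq_zero fun b hb => ?_
        rw [mem_filter, mem_range] at hb
        rw [if_neg, mul_zero, zero_mul]
        rintro ⟨h6, h7⟩
        apply hc
        rw [h6]
        refine ⟨fun h8 => h7 (mem_insert_of_mem h8), hb.2.1, ?_⟩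
        have h9 := mem_Idl.1 hD
        refine mem_Idl.2 ⟨insert_subset (mem_range.2 hb.1) h9.1, ?_⟩
        intro x hx
        rcases mem_insert.1 hx with rfl | h10
        · exact hb.2.2.trans (subset_insert _ _)
        · exact (h9.2 x h10).trans (subset_insert _ _)
    exact h4.trans (Nat.mul_le_mul_right _ h3)
  have hlins : (lins.map fun l => l.1 * G l.2.1 * l.2.2.2.2).sum ≤
      (lins.map fun l => l.2.2.1 * G l.2.2.2.1 * l.2.2.2.2).sum :=
    sum_list_le _ _ _ fun l hl => Nat.mul_le_mul_right _ (hlin l hl).2.2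
  have hmajs : (majs.map fun m => 167 * G ∅ * m.2.2).sum =
      167 * (majs.map fun m => m.2.2).sum * G ∅ := by
    rw [mul_assoc, sum_list_mul, List.map_map]
    have : ∀ l : List ℕ, (l.map fun x => 167 * x).sum = 167 * l.sum := by
      intro l
      induction l with
      | nil => simp
      | cons a l ih => simp [mul_add, ih]
    rw [← this, List.map_map]
    congr 1
    refine List.map_congr_left fun m _ => ?_
    simp only [Function.comp]
    ring
  have hfin := (hL.symm.le.trans key).trans hR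
  rw [hmajs, add_mul, one_mul] at hfin
  have := h.pos
  omega

end Pool.Agent.W3
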