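import Pool.Agent.W3.State
import Pool.Agent.W3.LeafAbs

/-!
# From the poset to the sets of numbers

The known elements are named by `0, ..., k - 1`; a set of numbers `F` stands for the set
`F.image φ` of elements.
-/

set_option autoImplicit false

namespace Pool.Agent.W3

open Finset

/-- the strict down-sets of the known elements -/
def dnf (dn : List ℕ) (x : ℕ) : Finset ℕ := bs (dn.getD x 0)

theorem mem_nx_br {V : Type} [Fintype V] [DecidableEq V] {r : V → V → Prop} {D : Finset V} {a : V} :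
    a ∈ nx r D ↔ a ∉ D ∧ Dn r (insert a D) := by
  simp [nx]

theorem mem_pv_br {V : Type} [Fintype V] [DecidableEq V] {r : V → V → Prop} {D : Finset V} {a : V} :
    a ∈ pv r D ↔ a ∈ D ∧ Dn r (D.erase a) := by
  simp [pv]

theorem nx_univ_br {V : Type} [Fintype V] [DecidableEq V] {r : V → V → Prop} :
    nx r (univ : Finset V) = ∅ := by
  ext a
  simp [mem_nx_br]

theorem bs_lt {m k i : ℕ} (h : m < 2 ^ k) (hi : i ∈ bs m) : i < k := by
  rw [mem_bs] at hi
  by_contra hc
  have h1 := Nat.ge_two_pow_of_testBit hi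
  have h2 : 2 ^ k ≤ 2 ^ i := Nat.pow_le_pow_right (by norm_num) (by omega)
  omega

theorem bs_subset_range {m k : ℕ} (h : m < 2 ^ k) : bs m ⊆ range k := fun _ hi =>
  mem_range.2 (bs_lt h hi)

theorem bs_zero : bs 0 = ∅ := by
  ext i
  simp [mem_bs]

section

variable {V : Type} [DecidableEq V] {r : V → V → Prop} {φ : ℕ → V} {dn sat : List ℕ}

theorem im_eq (m : ℕ) : im φ m = (bs m).image φ := rfl

theorem Base.getD (hB : Base r φ dn sat) {x : ℕ} (hx : x < dn.length) :
    dn.getD x 0 < 2 ^ x ∧ Exact r (im φ (dn.getD x 0)) (φ x) := by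
  have h1 : dn.getD x 0 = dn[x] := by
    rw [List.getD_eq_getElem _ _ hx]
  rw [h1]
  exact ⟨hB.lt x hx, hB.down x hx⟩

theorem Base.dnf_lt (hB : Base r φ dn sat) {x i : ℕ} (hx : x < dn.length) (hi : i ∈ dnf dn x) :
    i < x := bs_lt (hB.getD hx).1 hi

theorem Base.notMem (hB : Base r φ dn sat) : ∀ x < dn.length, x ∉ dnf dn x := fun _ hx h =>
  lt_irrefl _ (hB.dnf_lt hx h)

theorem Base.rel (hB : Base r φ dn sat) {x i : ℕ} (hx : x < dn.length) (hi : i < dn.length) :
    i ∈ dnf dn x ↔ r (φ i) (φ x) ∧ i ≠ x := by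
  have h1 := (hB.getD hx).2 (φ i)
  constructor
  · intro h
    have h2 : φ i ∈ im φ (dn.getD x 0) := mem_image_of_mem φ h
    obtain ⟨h3, h4⟩ := h1.2 h2
    exact ⟨h3, fun h => h4 (by rw [h])⟩
  · rintro ⟨h3, h4⟩
    have h5 : φ i ≠ φ x := fun h => h4 (hB.inj i hi x hx h)
    obtain ⟨j, hj, hji⟩ := mem_image.1 (h1.1 ⟨h3, h5⟩)
    have hjx : j < x := bs_lt (hB.getD hx).1 hj
    have := hB.inj j (by omega) i hi hji
    rwa [← this]

theorem Base.trans (hB : Base r φ dn sat) (hpo : Po r) {x y : ℕ} (hx : x < dn.length)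
    (hy : y ∈ dnf dn x) : dnf dn y ⊆ dnf dn x := by
  intro i hi
  have hyx := hB.dnf_lt hx hy
  have hyl : y < dn.length := by omega
  have hiy := hB.dnf_lt hyl hi
  have hil : i < dn.length := by omega
  rw [hB.rel hx hyl] at hy
  rw [hB.rel hyl hil] at hi
  rw [hB.rel hx hil]
  exact ⟨hpo.trans _ _ _ hi.1 hy.1, by omega⟩

theorem Base.mem_image (hB : Base r φ dn sat) {F : Finset ℕ} (hF : F ⊆ range dn.length) {i : ℕ}
    (hi : i < dn.length) : φ i ∈ F.image φ ↔ i ∈ F := by
  constructor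
  · intro h
    obtain ⟨j, hj, hji⟩ := Finset.mem_image.1 h
    rwa [← hB.inj j (mem_range.1 (hF hj)) i hi hji]
  · exact fun h => mem_image_of_mem φ h

theorem Base.dn_iff (hB : Base r φ dn sat) {F : Finset ℕ}
    (hF : F ⊆ range dn.length) : Dn r (F.image φ) ↔ F ∈ Idl dn.length (dnf dn) := by
  rw [mem_Idl]
  constructor
  · intro h
    refine ⟨hF, fun x hx i hi => ?_⟩
    have hxl := mem_range.1 (hF hx)
    have hil : i < dn.length := by
      have := hB.dnf_lt hxl hi
      omega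
    rw [← hB.mem_image hF hil]
    exact h (φ x) (mem_image_of_mem φ hx) (φ i) ((hB.rel hxl hil).1 hi).1
  · rintro ⟨-, h⟩ v hv u hu
    obtain ⟨x, hx, rfl⟩ := Finset.mem_image.1 hv
    have hxl := mem_range.1 (hF hx)
    by_cases hux : u = φ x
    · rw [hux]
      exact hv
    · have h1 := ((hB.getD hxl).2 u).1 ⟨hu, hux⟩
      obtain ⟨i, hi, rfl⟩ := Finset.mem_image.1 h1
      exact mem_image_of_mem φ (h x hx hi)

theorem Base.image_erase (hB : Base r φ dn sat) {F : Finset ℕ} (hF : F ⊆ range dn.length) {x : ℕ}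
    (hx : x ∈ F) : (F.erase x).image φ = (F.image φ).erase (φ x) := by
  ext v
  rw [Finset.mem_image, mem_erase, Finset.mem_image]
  constructor
  · rintro ⟨i, hi, rfl⟩
    obtain ⟨h1, h2⟩ := mem_erase.1 hi
    refine ⟨fun h => h1 ?_, i, h2, rfl⟩
    exact hB.inj i (mem_range.1 (hF h2)) x (mem_range.1 (hF hx)) h
  · rintro ⟨h1, i, hi, rfl⟩
    exact ⟨i, mem_erase.2 ⟨fun h => h1 (by rw [h]), hi⟩, rfl⟩

theorem Base.mem_Idl_insert (hB : Base r φ dn sat) {D : Finset ℕ}
    (hD : D ∈ Idl dn.length (dnf dn)) {b : ℕ} (hb : b < dn.length) (hbD : b ∉ D) :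
    insert b D ∈ Idl dn.length (dnf dn) ↔ dnf dn b ⊆ D := by
  have h1 := mem_Idl.1 hD
  rw [mem_Idl]
  constructor
  · rintro ⟨-, h2⟩ i hi
    rcases mem_insert.1 (h2 b (mem_insert_self b D) hi) with rfl | h
    · exact absurd hi (hB.notMem _ hb)
    · exact h
  · intro h
    refine ⟨insert_subset (mem_range.2 hb) h1.1, fun x hx => ?_⟩
    rcases mem_insert.1 hx with rfl | h2
    · exact h.trans (subset_insert _ _)
    · exact (h1.2 x h2).trans (subset_insert _ _)

variable [Fintype V]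

theorem Base.nx_inter (hB : Base r φ dn sat) {D : Finset ℕ}
    (hD : D ∈ Idl dn.length (dnf dn)) :
    nx r (D.image φ) ∩ (range dn.length).image φ =
      ((range dn.length).filter fun b => b ∉ D ∧ dnf dn b ⊆ D).image φ := by
  have hDr := (mem_Idl.1 hD).1
  ext v
  constructor
  · intro hv
    obtain ⟨h1, h4⟩ := mem_inter.1 hv
    obtain ⟨h1, h2⟩ := mem_nx_br.1 h1
    obtain ⟨b, hb, rfl⟩ := Finset.mem_image.1 h4
    have hbl := mem_range.1 hb
    have h3 : b ∉ D := fun h => h1 (mem_image_of_mem φ h)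
    refine mem_image_of_mem φ (mem_filter.2 ⟨hb, h3, ?_⟩)
    rw [← image_insert, hB.dn_iff (insert_subset hb hDr)] at h2
    exact (hB.mem_Idl_insert hD hbl h3).1 h2
  · intro hv
    obtain ⟨b, hb, rfl⟩ := Finset.mem_image.1 hv
    obtain ⟨h1, h2, h3⟩ := mem_filter.1 hb
    have hbl := mem_range.1 h1
    refine mem_inter.2 ⟨mem_nx_br.2 ⟨?_, ?_⟩, mem_image_of_mem φ h1⟩
    · rwa [hB.mem_image hDr hbl]
    · rw [← image_insert, hB.dn_iff (insert_subset h1 hDr)]
      exact (hB.mem_Idl_insert hD hbl h2).2 h3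

theorem Base.pv_eq (hB : Base r φ dn sat) {F : Finset ℕ}
    (hF : F ∈ Idl dn.length (dnf dn)) :
    pv r (F.image φ) = (F.filter fun x => F.erase x ∈ Idl dn.length (dnf dn)).image φ := by
  have hFr := (mem_Idl.1 hF).1
  ext v
  constructor
  · intro hv
    obtain ⟨h1, h2⟩ := mem_pv_br.1 hv
    obtain ⟨x, hx, rfl⟩ := Finset.mem_image.1 h1
    refine mem_image_of_mem φ (mem_filter.2 ⟨hx, ?_⟩)
    rw [← hB.image_erase hFr hx, hB.dn_iff ((erase_subset _ _).trans hFr)] at h2
    exact h2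
  · intro hv
    obtain ⟨x, hx, rfl⟩ := Finset.mem_image.1 hv
    obtain ⟨h1, h2⟩ := mem_filter.1 hx
    refine mem_pv_br.2 ⟨mem_image_of_mem φ h1, ?_⟩
    rw [← hB.image_erase hFr h1, hB.dn_iff ((erase_subset _ _).trans hFr)]
    exact h2

omit [Fintype V] in
theorem Base.injOn (hB : Base r φ dn sat) {F : Finset ℕ} (hF : F ⊆ range dn.length) :
    Set.InjOn φ (F : Set ℕ) := fun i hi j hj h =>
  hB.inj i (mem_range.1 (hF (mem_coe.1 hi))) j (mem_range.1 (hF (mem_coe.1 hj))) h

/-- `F` is contained in a saturated down-set -/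
def SatF (k : ℕ) (sat : List ℕ) (F : Finset ℕ) : Prop := F ≠ range k ∧ ∃ s ∈ sat, F ⊆ bs s

/-- **The bridge.** -/
theorem lsem (W : World r) (hB : Base r φ dn sat) :
    LSem dn.length (dnf dn) (SatF dn.length sat) (fun F => W.G (F.image φ))
      (fun F => W.e (F.image φ)) := by
  have hne : ∀ D ∈ Idl dn.length (dnf dn), D ≠ range dn.length → D.image φ ≠ univ := by
    intro D hD h h'
    apply h
    refine Subset.antisymm (mem_Idl.1 hD).1 fun i hi => ?_
    rw [← hB.mem_image (mem_Idl.1 hD).1 (mem_range.1 hi), h']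
    exact mem_univ _
  have hsum : ∀ D ∈ Idl dn.length (dnf dn),
      ∑ b ∈ (range dn.length).filter (fun b => b ∉ D ∧ dnf dn b ⊆ D), W.G ((insert b D).image φ) =
      ∑ a ∈ nx r (D.image φ) ∩ (range dn.length).image φ, W.G (insert a (D.image φ)) := by
    intro D hD
    rw [hB.nx_inter hD, sum_image (hB.injOn (filter_subset _ _))]
    exact sum_congr rfl fun b _ => by rw [image_insert]
  refine ⟨?_, ?_, ?_, ?_, ?_⟩
  · rw [image_empty]
    exact W.G_pos ∅ (by intro x hx; exact absurd hx (notMem_empty x))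
  · intro D hD
    rw [hsum D hD]
    by_cases h : D.image φ = univ
    · rw [h, nx_univ_br, empty_inter, sum_empty]
      exact Nat.zero_le _
    · rw [W.harm _ ((hB.dn_iff (mem_Idl.1 hD).1).2 hD) h]
      exact sum_le_sum_of_subset inter_subset_left
  · rintro D hD ⟨h1, s, hs, hDs⟩
    rw [hsum D hD, W.harm _ ((hB.dn_iff (mem_Idl.1 hD).1).2 hD) (hne D hD h1)]
    congr 1
    rw [inter_eq_left]
    intro a ha
    by_contra hc
    obtain ⟨u, h2, h3, h4⟩ := hB.sat s hs a fun i hi h => hc (by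
      rw [← h]
      exact mem_image_of_mem φ (mem_range.2 hi))
    have h5 := (mem_nx_br.1 ha).2 a (mem_insert_self _ _) u h2
    rcases mem_insert.1 h5 with h6 | h6
    · exact h3 h6
    · exact h4 (image_subset_image hDs h6)
  · rw [image_empty]
    exact W.e_empty
  · intro D hD h
    rw [W.e_rec _ ((hB.dn_iff (mem_Idl.1 hD).1).2 hD) (by simpa using h), hB.pv_eq hD,
      sum_image (hB.injOn ((filter_subset _ _).trans (mem_Idl.1 hD).1))]
    exact sum_congr rfl fun x hx => by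
      rw [hB.image_erase (mem_Idl.1 hD).1 (mem_filter.1 hx).1]

end

end Pool.Agent.W3
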