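import Pool.Agent.W3.Sound4
import Pool.Agent.W3.Cut

/-!
# The row of a cut
-/

set_option autoImplicit false

namespace Pool.Agent.W3

open Finset

/-- the value of a mask in a table -/
def look : List (ℕ × ℕ) → ℕ → Option ℕ
  | [], _ => none
  | p :: l, D => cond (Nat.beq p.1 D) (some p.2) (look l D)

/-- the sum of the values of the table at `D - i`, `i` maximal in `D`; `u` is the union of the
down-sets of the elements of `D` -/
def sumE (tab : List (ℕ × ℕ)) : List ℕ → ℕ → ℕ → ℕ → Option ℕ
  | [], _, _, _ => some 0
  | _ :: l, i, D, u => cond (cond (bit D i) (!(bit u i)) false)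
      (match look tab (Nat.xor D (Nat.shiftLeft 1 i)) with
        | none => none
        | some a => match sumE tab l (i + 1) D u with
          | none => none
          | some b => some (Nat.add a b))
      (sumE tab l (i + 1) D u)

/-- the number of linear extensions of `D` -/
def eD (dn : List ℕ) (tab : List (ℕ × ℕ)) (D : ℕ) : Option ℕ :=
  cond (Nat.beq D 0) (some 1) (sumE tab dn 0 D (unionA dn 0 D))

/-- `F` belongs to the cut -/
def memU : List (ℕ × ℕ) → ℕ → Bool
  | [], _ => false
  | p :: l, F => cond (cond (Nat.beq p.1 F) (!(Nat.beq p.2 0)) false) true (memU l F)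

/-- the mask of the capacity of an edge into `F`; `d` is the down-set of `w` -/
def capM (w d F : ℕ) : ℕ := cond (subm d F) (Nat.lor F (Nat.shiftLeft 1 w)) F

/-- the terms of the edges `D -> D + a` which leave the cut -/
def edgeT (U : List (ℕ × ℕ)) (w d c D : ℕ) : List ℕ → List (ℕ × ℕ)
  | [] => []
  | a :: l => cond (Nat.beq a w) (edgeT U w d c D l)
      (cond (memU U (Nat.lor D (Nat.shiftLeft 1 a))) (edgeT U w d c D l)
        ((capM w d (Nat.lor D (Nat.shiftLeft 1 a)), c) :: edgeT U w d c D l))

/-- the terms of the masks `D + a` -/
def addT (c D : ℕ) : List ℕ → List (ℕ × ℕ)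
  | [] => []
  | a :: l => (Nat.lor D (Nat.shiftLeft 1 a), c) :: addT c D l

/-- the terms of the unknown elements at `D`, left side -/
def exL (dn sat : List ℕ) (w d c D f : ℕ) : List (ℕ × ℕ) :=
  cond (isSat sat D) [] (cond (cond (Nat.beq f 2) (subm d D) false)
    (addT c (Nat.lor D (Nat.shiftLeft 1 w)) (addA dn 0 (Nat.lor D (Nat.shiftLeft 1 w))))
    (addT c D (addA dn 0 D)))

/-- the terms of the unknown elements at `D`, right side -/
def exR (sat : List ℕ) (w d c D f : ℕ) : List (ℕ × ℕ) :=
  cond (isSat sat D) [] (cond (cond (Nat.beq f 2) (subm d D) false)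
    [(Nat.lor D (Nat.shiftLeft 1 w), c)] [(D, c)])

/-- the terms of the row of a cut -/
def cutA (dn sat : List ℕ) (X w d : ℕ) (U : List (ℕ × ℕ)) :
    List (ℕ × ℕ) → List (ℕ × ℕ) → Option (List (ℕ × ℕ) × List (ℕ × ℕ))
  | [], _ => some ([], [])
  | p :: l, tab => cond (cond (idl dn p.1) (!(bit p.1 w)) false)
      (match eD dn tab p.1 with
        | none => none
        | some e => match cutA dn sat X w d U l ((p.1, e) :: tab) with
          | none => none
          | some LR => cond (Nat.beq p.2 0) (some LR)
              (cond (cond (subm X p.1) (subm d p.1) false) none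
                (some (exL dn sat w d (Nat.mul 1000000 e) p.1 p.2 ++ LR.1,
                  edgeT U w d (Nat.mul 1000000 e) p.1 (addA dn 0 p.1) ++
                    (exR sat w d (Nat.mul 1000000 e) p.1 p.2 ++ LR.2)))))
      none

/-- the row of a cut for `w` -/
def cutRow (s : St) (w : ℕ) (l : List (ℕ × ℕ)) : Option Row :=
  cond (Nat.blt w s.dn.length)
    (match l with
      | [] => cond (Nat.beq (nth s.dn w) 0)
          (some (.gen [(0, 77954)] [(Nat.lor 0 (Nat.shiftLeft 1 w), 1000000)])) none
      | _ :: _ => cond (cond (bit (maskL s.sp) w) false (memU l 0))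
        (match cutA s.dn s.sat (maskL s.sp) w (nth s.dn w) l l [] with
          | none => none
          | some LR => some (.gen ((0, 77954) :: LR.1) LR.2)) none)
    none

theorem look_mem {l : List (ℕ × ℕ)} {D e : ℕ} (h : look l D = some e) : (D, e) ∈ l := by
  induction l with
  | nil => exact absurd h (by simp [look])
  | cons p l ih =>
    rw [show look (p :: l) D = cond (Nat.beq p.1 D) (some p.2) (look l D) from rfl] at h
    cases hb : Nat.beq p.1 D with
    | true =>
      rw [hb, cond_true] at h
      rw [nbeq] at hb
      rw [← hb, ← Option.some.inj h]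
      exact List.mem_cons_self
    | false =>
      rw [hb, cond_false] at h
      exact List.mem_cons_of_mem _ (ih h)

theorem sumE_eq {tab : List (ℕ × ℕ)} {f : ℕ → ℕ} (ht : ∀ p ∈ tab, f p.1 = p.2)
    {l : List ℕ} {i D u e : ℕ} (h : sumE tab l i D u = some e) :
    e = ∑ j ∈ (range l.length).filter (fun j => D.testBit (i + j) = true ∧
      u.testBit (i + j) = false), f (D ^^^ 2 ^ (i + j)) := by
  induction l generalizing i e with
  | nil =>
    rw [show sumE tab [] i D u = some 0 from rfl] at h
    rw [← Option.some.inj h]
    simp
  | cons d l ih =>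
    rw [show sumE tab (d :: l) i D u = cond (cond (bit D i) (!(bit u i)) false)
      (match look tab (Nat.xor D (Nat.shiftLeft 1 i)) with
        | none => none
        | some a => match sumE tab l (i + 1) D u with
          | none => none
          | some b => some (Nat.add a b))
      (sumE tab l (i + 1) D u) from rfl, bit_eq, bit_eq] at h
    have key : ∀ e', sumE tab l (i + 1) D u = some e' →
        e' = ∑ j ∈ range l.length, if (D.testBit (i + (j + 1)) = true ∧
          u.testBit (i + (j + 1)) = false) then f (D ^^^ 2 ^ (i + (j + 1))) else 0 := by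
      intro e' he'
      rw [ih he', sum_filter]
      refine sum_congr rfl fun j _ => ?_
      rw [show i + 1 + j = i + (j + 1) by ring]
    rw [List.length_cons, sum_filter, sum_range_succ', Nat.add_zero]
    cases hc : (cond (D.testBit i) (!(u.testBit i)) false) with
    | false =>
      rw [hc, cond_false] at h
      rw [if_neg, Nat.add_zero]
      · exact key e h
      · rintro ⟨h1, h2⟩
        rw [h1, h2] at hc
        exact absurd hc (by simp)
    | true =>
      rw [hc, cond_true] at h
      have h12 : D.testBit i = true ∧ u.testBit i = false := by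
        cases h1 : D.testBit i <;> cases h2 : u.testBit i <;> rw [h1, h2] at hc <;>
          simp at hc ⊢
      rw [if_pos h12]
      cases ha : look tab (Nat.xor D (Nat.shiftLeft 1 i)) with
      | none => rw [ha] at h; exact absurd h (by simp)
      | some a =>
        rw [ha] at h
        cases hb : sumE tab l (i + 1) D u with
        | none => simp only [hb] at h; exact absurd h (by simp)
        | some b =>
          simp only [hb] at h
          have he : Nat.add a b = e := Option.some.inj h
          have hfa : f (Nat.xor D (Nat.shiftLeft 1 i)) = a := ht _ (look_mem ha)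
          have hxor : Nat.xor D (Nat.shiftLeft 1 i) = D ^^^ 2 ^ i := by
            have : Nat.shiftLeft 1 i = 2 ^ i := Nat.one_shiftLeft i
            rw [this]; rfl
          rw [hxor] at hfa
          rw [← key b hb, hfa, ← he]
          exact Nat.add_comm a b

theorem memU_iff {l : List (ℕ × ℕ)} {F : ℕ} :
    memU l F = true ↔ ∃ p ∈ l, p.1 = F ∧ p.2 ≠ 0 := by
  induction l with
  | nil => simp [memU]
  | cons p l ih =>
    rw [show memU (p :: l) F = cond (cond (Nat.beq p.1 F) (!(Nat.beq p.2 0)) false) true
      (memU l F) from rfl, cond_true_eq, cond_false_eq, nbeq, ih]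
    have h0 : (!(Nat.beq p.2 0)) = true ↔ p.2 ≠ 0 := by
      rw [Bool.not_eq_true', ← Bool.not_eq_true, nbeq]
    rw [h0]
    simp only [List.mem_cons, exists_eq_or_imp]

variable {V : Type} [Fintype V] [DecidableEq V] {r : V → V → Prop} {W : World r} {φ : ℕ → V}
  {s : St}

theorem Sem.xor_erase (S : Sem W φ s) {D i : ℕ} (hlt : D < 2 ^ s.dn.length)
    (hi : i < s.dn.length) (hb : D.testBit i = true) :
    im φ (D ^^^ 2 ^ i) = (im φ D).erase (φ i) := by
  ext v
  rw [mem_erase, mem_im, mem_im]
  constructor
  · rintro ⟨j, hj, rfl⟩
    rw [Nat.testBit_xor, Nat.testBit_two_pow] at hj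
    have hji : i ≠ j := by
      rintro rfl
      rw [hb] at hj
      simp at hj
    rw [decide_eq_false hji, Bool.xor_false] at hj
    refine ⟨fun h => hji (S.base.inj i hi j (lt_of_bit hlt hj) h.symm), j, hj, rfl⟩
  · rintro ⟨h1, j, hj, rfl⟩
    refine ⟨j, ?_, rfl⟩
    have hji : i ≠ j := by
      rintro rfl
      exact h1 rfl
    rw [Nat.testBit_xor, Nat.testBit_two_pow, decide_eq_false hji, Bool.xor_false]
    exact hj

/-- the maximal elements of a known down-set -/
theorem Sem.pv_eq (S : Sem W φ s) {D : ℕ} (hlt : D < 2 ^ s.dn.length) (hD : Dn r (im φ D)) :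
    pv r (im φ D) = ((range s.dn.length).filter fun j => D.testBit j = true ∧
      (unionA s.dn 0 D).testBit j = false).image φ := by
  ext v
  rw [mem_pv', mem_image]
  constructor
  · rintro ⟨hv, hv'⟩
    obtain ⟨j, hj, rfl⟩ := mem_im.mp hv
    have hjk : j < s.dn.length := lt_of_bit hlt hj
    refine ⟨j, ?_, rfl⟩
    rw [mem_filter, mem_range]
    refine ⟨hjk, hj, ?_⟩
    cases hb : (unionA s.dn 0 D).testBit j with
    | false => rfl
    | true =>
      obtain ⟨i, hi, h1, h2⟩ := unionA_bit.mp hb
      rw [Nat.zero_add] at h1
      have h3 := S.rel hi h2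
      have h4 : φ i ∈ (im φ D).erase (φ j) :=
        mem_erase.mpr ⟨h3.2.symm, mem_im.mpr ⟨i, h1, rfl⟩⟩
      have h5 := hv' _ h4 _ h3.1
      exact absurd rfl (mem_erase.mp h5).1
  · rintro ⟨j, hj, rfl⟩
    rw [mem_filter, mem_range] at hj
    obtain ⟨hjk, hjX, h2⟩ := hj
    refine ⟨mem_im.mpr ⟨j, hjX, rfl⟩, ?_⟩
    intro u hu z hz
    rw [mem_erase] at hu ⊢
    refine ⟨?_, hD u hu.2 z hz⟩
    rintro rfl
    obtain ⟨i, hi, rfl⟩ := mem_im.mp hu.2
    have hik : i < s.dn.length := lt_of_bit hlt hi
    have h3 := (S.base.down i hik (φ j)).mp ⟨hz, hu.1.symm⟩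
    rw [S.base.mem_iff (S.base.lt' i hik) hjk] at h3
    have h4 : (unionA s.dn 0 D).testBit j = true :=
      unionA_bit.mpr ⟨i, hik, by rwa [Nat.zero_add], h3⟩
    rw [h2] at h4
    exact Bool.false_ne_true h4

/-- the number of linear extensions is computed correctly -/
theorem Sem.eD_eq (S : Sem W φ s) {tab : List (ℕ × ℕ)}
    (ht : ∀ p ∈ tab, W.e (im φ p.1) = p.2) {D e : ℕ} (hD : idl s.dn D = true)
    (h : eD s.dn tab D = some e) : W.e (im φ D) = e := by
  have hlt := (idl_iff.mp hD).1
  have hDn := S.base.dn_im hD
  unfold eD at h
  cases h0 : Nat.beq D 0 with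
  | true =>
    rw [h0, cond_true] at h
    rw [nbeq] at h0
    rw [h0, im_zero, W.e_empty]
    exact Option.some.inj h
  | false =>
    rw [h0, cond_false] at h
    have hne : im φ D ≠ ∅ := by
      intro he
      have hD0 : D = 0 := by
        apply Nat.eq_of_testBit_eq
        intro i
        rw [Nat.zero_testBit]
        cases hb : D.testBit i with
        | false => rfl
        | true =>
          have : φ i ∈ im φ D := mem_im.mpr ⟨i, hb, rfl⟩
          rw [he] at this
          exact absurd this (notMem_empty _)
      rw [nbeq.mpr hD0] at h0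
      exact Bool.false_ne_true h0.symm
    rw [W.e_rec _ hDn hne, S.pv_eq hlt hDn, sum_image]
    · rw [sumE_eq (f := fun m => W.e (im φ m)) ht h]
      refine sum_congr ?_ fun j hj => ?_
      · refine filter_congr fun j _ => ?_
        rw [Nat.zero_add]
      · rw [mem_filter, mem_range] at hj
        rw [Nat.zero_add, S.xor_erase hlt hj.1]
        have h3 := hj.2.1
        rwa [Nat.zero_add] at h3
    · intro i hi j hj hij
      rw [mem_coe, mem_filter, mem_range] at hi hj
      exact S.base.inj i hi.1 j hj.1 hij

/-- the known elements which can be added to a known down-set -/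
theorem Sem.nx_known (S : Sem W φ s) {D : ℕ} (hD : idl s.dn D = true) :
    (nx r (im φ D)).filter (fun a => a ∈ (range s.dn.length).image φ) =
      (addA s.dn 0 D).toFinset.image φ := by
  have hlt := (idl_iff.mp hD).1
  ext v
  rw [mem_filter, mem_nx', mem_image, mem_image]
  constructor
  · rintro ⟨⟨h1, h2⟩, i, hi, rfl⟩
    rw [mem_range] at hi
    refine ⟨i, ?_, rfl⟩
    rw [List.mem_toFinset, addA_mem]
    refine ⟨i, hi, by ring, ?_, ?_⟩
    · rw [Nat.zero_add]
      cases hb : D.testBit i with
      | false => rfl
      | true => exact absurd (mem_im.mpr ⟨i, hb, rfl⟩) h1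
    · refine subm_iff.mpr fun j hj => ?_
      have hjk : j < s.dn.length := lt_of_bit (S.base.lt' i hi) hj
      have h3 := S.rel hi hj
      rw [← S.base.mem_iff hlt hjk]
      have := h2 _ (mem_insert_self _ _) (φ j) h3.1
      rw [mem_insert] at this
      exact this.resolve_left h3.2
  · rintro ⟨i, hi, rfl⟩
    rw [List.mem_toFinset] at hi
    obtain ⟨h1, h2, h3⟩ := S.addA_lt hi
    refine ⟨⟨?_, S.dn_insert h1 hD h3⟩, i, mem_range.mpr h1, rfl⟩
    rw [S.base.mem_iff hlt h1, h2]
    exact Bool.false_ne_true

/-- sum over a list of known elements -/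
theorem Sem.sum_addA (S : Sem W φ s) {D : ℕ} (g : V → ℕ) :
    ∑ a ∈ (addA s.dn 0 D).toFinset.image φ, g a = ((addA s.dn 0 D).map fun i => g (φ i)).sum := by
  rw [sum_image, List.sum_toFinset _ addA_nodup]
  intro i hi j hj hij
  rw [mem_coe, List.mem_toFinset] at hi hj
  exact S.base.inj i (S.addA_lt hi).1 j (S.addA_lt hj).1 hij

/-- the weighted sum of the terms of a row -/
def rs (W : World r) (φ : ℕ → V) (L : List (ℕ × ℕ)) : ℕ :=
  (L.map fun t => t.2 * W.G (im φ t.1)).sum

theorem rs_append (A B : List (ℕ × ℕ)) : rs W φ (A ++ B) = rs W φ A + rs W φ B := by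
  unfold rs
  rw [List.map_append, List.sum_append]

theorem rs_addT {c D : ℕ} {l : List ℕ} :
    rs W φ (addT c D l) = c * (l.map fun i => W.G (insert (φ i) (im φ D))).sum := by
  induction l with
  | nil => simp [rs, addT]
  | cons a l ih =>
    have h1 : rs W φ (addT c D (a :: l)) =
        c * W.G (im φ (Nat.lor D (Nat.shiftLeft 1 a))) + rs W φ (addT c D l) := by
      simp [rs, addT]
    rw [h1, ih, im_insert, List.map_cons, List.sum_cons]
    ring

theorem idl_insert (S : Sem W φ s) {D a : ℕ} (hD : idl s.dn D = true)
    (ha : a ∈ addA s.dn 0 D) : idl s.dn (Nat.lor D (Nat.shiftLeft 1 a)) = true := by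
  obtain ⟨h1, h2, h3⟩ := S.addA_lt ha
  refine S.base.idl_of_dn (lor_lt (idl_iff.mp hD).1 h1) ?_
  rw [im_insert]
  exact S.dn_insert h1 hD h3

/-- the capacity of a known edge -/
theorem Sem.capG_eq (S : Sem W φ s) {w F : ℕ} (hw : w < s.dn.length)
    (hF : idl s.dn F = true) :
    W.capG (φ w) (im φ F) = W.G (im φ (capM w (nth s.dn w) F)) := by
  unfold World.capG capM
  have hlt := (idl_iff.mp hF).1
  cases hs : subm (nth s.dn w) F with
  | true =>
    rw [if_pos (S.dn_insert hw hF hs), cond_true, im_insert]
  | false =>
    rw [if_neg, cond_false]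
    intro h
    have h1 : subm (nth s.dn w) F = true := by
      rw [nth_eq hw]
      refine subm_iff.mpr fun j hj => ?_
      have hjk : j < s.dn.length := lt_of_bit (S.base.lt' w hw) hj
      have h3 := S.rel hw hj
      rw [← S.base.mem_iff hlt hjk]
      have := h _ (mem_insert_self _ _) (φ j) h3.1
      rw [mem_insert] at this
      exact this.resolve_left h3.2
    rw [hs] at h1
    exact Bool.false_ne_true h1

/-- the finite set of down-sets described by the list -/
def setU (φ : ℕ → V) (l : List (ℕ × ℕ)) : Finset (Finset V) :=
  ((l.filter fun p => !(Nat.beq p.2 0)).map fun p => im φ p.1).toFinset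

omit [Fintype V] in
theorem mem_setU {l : List (ℕ × ℕ)} {D : Finset V} :
    D ∈ setU φ l ↔ ∃ p ∈ l, p.2 ≠ 0 ∧ im φ p.1 = D := by
  unfold setU
  rw [List.mem_toFinset, List.mem_map]
  constructor
  · rintro ⟨p, hp, rfl⟩
    rw [List.mem_filter] at hp
    refine ⟨p, hp.1, ?_, rfl⟩
    have := hp.2
    rwa [Bool.not_eq_true', ← Bool.not_eq_true, nbeq] at this
  · rintro ⟨p, hp, h, rfl⟩
    refine ⟨p, List.mem_filter.mpr ⟨hp, ?_⟩, rfl⟩
    rwa [Bool.not_eq_true', ← Bool.not_eq_true, nbeq]

/-- the terms of the known edges -/
theorem Sem.edge_le (S : Sem W φ s) {U : List (ℕ × ℕ)}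
    {w D c : ℕ} (hw : w < s.dn.length)
    (hD : idl s.dn D = true) (l : List ℕ) (hl : ∀ a ∈ l, a ∈ addA s.dn 0 D) :
    c * (l.map fun i => if φ i ≠ φ w ∧ insert (φ i) (im φ D) ∉ setU φ U then
      W.capG (φ w) (insert (φ i) (im φ D)) else 0).sum ≤
      rs W φ (edgeT U w (nth s.dn w) c D l) := by
  induction l with
  | nil => simp
  | cons a l ih =>
    have ih' := ih fun b hb => hl b (List.mem_cons_of_mem _ hb)
    have ha := hl a List.mem_cons_self
    obtain ⟨ha1, ha2, ha3⟩ := S.addA_lt ha
    rw [List.map_cons, List.sum_cons, mul_add,
      show edgeT U w (nth s.dn w) c D (a :: l) = cond (Nat.beq a w)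
        (edgeT U w (nth s.dn w) c D l)
        (cond (memU U (Nat.lor D (Nat.shiftLeft 1 a))) (edgeT U w (nth s.dn w) c D l)
          ((capM w (nth s.dn w) (Nat.lor D (Nat.shiftLeft 1 a)), c) ::
            edgeT U w (nth s.dn w) c D l)) from rfl]
    cases hb : Nat.beq a w with
    | true =>
      rw [cond_true, if_neg, mul_zero, zero_add]
      · exact ih'
      · rw [nbeq] at hb
        rw [hb]
        exact fun h => h.1 rfl
    | false =>
      rw [cond_false]
      cases hm : memU U (Nat.lor D (Nat.shiftLeft 1 a)) with
      | true =>
        rw [cond_true, if_neg, mul_zero, zero_add]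
        · exact ih'
        · obtain ⟨p, hp, h1, h2⟩ := memU_iff.mp hm
          rintro ⟨_, h3⟩
          refine h3 (mem_setU.mpr ⟨p, hp, h2, ?_⟩)
          rw [h1, im_insert]
      | false =>
        rw [cond_false]
        have h1 : rs W φ ((capM w (nth s.dn w) (Nat.lor D (Nat.shiftLeft 1 a)), c) ::
            edgeT U w (nth s.dn w) c D l) =
            c * W.G (im φ (capM w (nth s.dn w) (Nat.lor D (Nat.shiftLeft 1 a)))) +
              rs W φ (edgeT U w (nth s.dn w) c D l) := by
          simp [rs]
        rw [h1]
        refine Nat.add_le_add (Nat.mul_le_mul_left _ ?_) ih'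
        split_ifs
        · rw [← im_insert, S.capG_eq hw (idl_insert S hD ha)]
        · exact Nat.zero_le _

/-- the inequality at one down-set of the cut -/
theorem Sem.cut_one (S : Sem W φ s) {U : List (ℕ × ℕ)}
    {w D c f : ℕ} (hw : w < s.dn.length)
    (hD : idl s.dn D = true) (hwD : D.testBit w = false) :
    c * (∑ a ∈ nx r (im φ D), if a ≠ φ w ∧ insert a (im φ D) ∉ setU φ U then
        W.capG (φ w) (insert a (im φ D)) else 0) +
      rs W φ (exL s.dn s.sat w (nth s.dn w) c D f) ≤
    rs W φ (edgeT U w (nth s.dn w) c D (addA s.dn 0 D)) +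
      rs W φ (exR s.sat w (nth s.dn w) c D f) := by
  classical
  have hlt := (idl_iff.mp hD).1
  have hDn := S.base.dn_im hD
  have hwn : φ w ∉ im φ D := by
    rw [S.base.mem_iff hlt hw, hwD]
    exact Bool.false_ne_true
  set K := (range s.dn.length).image φ with hK
  have hwK : φ w ∈ K := mem_image.mpr ⟨w, mem_range.mpr hw, rfl⟩
  set g : V → ℕ := fun a => if a ≠ φ w ∧ insert a (im φ D) ∉ setU φ U then
        W.capG (φ w) (insert a (im φ D)) else 0 with hg
  have hsplit : ∑ a ∈ nx r (im φ D), g a =
      ((addA s.dn 0 D).map fun i => g (φ i)).sum +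
        ∑ a ∈ (nx r (im φ D)).filter (fun a => a ∉ K), g a := by
    rw [← sum_filter_add_sum_filter_not (nx r (im φ D)) (fun a => a ∈ K), S.nx_known hD,
      S.sum_addA]
  have hedge := S.edge_le (U := U) (c := c) hw hD (addA s.dn 0 D) fun a ha => ha
  have hun : c * ∑ a ∈ (nx r (im φ D)).filter (fun a => a ∉ K), g a +
      rs W φ (exL s.dn s.sat w (nth s.dn w) c D f) ≤
      rs W φ (exR s.sat w (nth s.dn w) c D f) := by
    have hgle : ∑ a ∈ (nx r (im φ D)).filter (fun a => a ∉ K), g a ≤
        ∑ a ∈ (nx r (im φ D)).filter (fun a => a ∉ K), W.capG (φ w) (insert a (im φ D)) := by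
      refine sum_le_sum fun a _ => ?_
      simp only [hg]
      split_ifs
      · exact le_rfl
      · exact Nat.zero_le _
    unfold exL exR
    cases hs : isSat s.sat D with
    | true =>
      rw [cond_true, cond_true]
      have : (nx r (im φ D)).filter (fun a => a ∉ K) = ∅ := by
        rw [filter_eq_empty_iff]
        intro a ha hn
        rw [S.nx_eq hlt hDn hs, mem_image] at ha
        obtain ⟨i, hi, rfl⟩ := ha
        rw [List.mem_toFinset] at hi
        exact hn (mem_image.mpr ⟨i, mem_range.mpr (S.addA_lt hi).1, rfl⟩)
      rw [this]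
      simp [rs]
    | false =>
      rw [cond_false, cond_false]
      cases hf : (cond (Nat.beq f 2) (subm (nth s.dn w) D) false) with
      | true =>
        rw [cond_false_eq] at hf
        rw [cond_true, cond_true]
        have hwnx : φ w ∈ nx r (im φ D) := mem_nx'.mpr ⟨hwn, S.dn_insert hw hD hf.2⟩
        have h1 := W.unknown_le hwnx hwK
        have hwadd : w ∈ addA s.dn 0 D := by
          rw [addA_mem]
          refine ⟨w, hw, by ring, by rwa [Nat.zero_add], ?_⟩
          rw [← nth_eq hw]
          exact hf.2
        have hDw := idl_insert S hD hwadd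
        rw [← im_insert, S.nx_known hDw, S.sum_addA] at h1
        rw [rs_addT]
        have h2 : rs W φ [(Nat.lor D (Nat.shiftLeft 1 w), c)] =
            c * W.G (im φ (Nat.lor D (Nat.shiftLeft 1 w))) := by
          simp [rs]
        rw [h2, ← mul_add]
        exact Nat.mul_le_mul_left _ ((Nat.add_le_add_right hgle _).trans h1)
      | false =>
        rw [cond_false, cond_false]
        have h1 := W.unknown_le' hDn hwn hwK
        rw [S.nx_known hD, S.sum_addA] at h1
        rw [rs_addT]
        have h2 : rs W φ [(D, c)] = c * W.G (im φ D) := by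
          simp [rs]
        rw [h2, ← mul_add]
        exact Nat.mul_le_mul_left _ ((Nat.add_le_add_right hgle _).trans h1)
  rw [hsplit, mul_add]
  simp only [hg] at hun hedge ⊢
  omega

theorem exR_idl (S : Sem W φ s) {w D c f : ℕ} (hw : w < s.dn.length)
    (hD : idl s.dn D = true) (hwD : D.testBit w = false) {t : ℕ × ℕ}
    (ht : t ∈ exR s.sat w (nth s.dn w) c D f) : idl s.dn t.1 = true := by
  unfold exR at ht
  cases hs : isSat s.sat D with
  | true => rw [hs, cond_true] at ht; exact absurd ht (by simp)
  | false =>
    rw [hs, cond_false] at ht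
    cases hf : (cond (Nat.beq f 2) (subm (nth s.dn w) D) false) with
    | true =>
      rw [hf, cond_true, List.mem_singleton] at ht
      rw [cond_false_eq] at hf
      subst ht
      refine idl_insert S hD ?_
      rw [addA_mem]
      exact ⟨w, hw, by ring, by rwa [Nat.zero_add], by rw [← nth_eq hw]; exact hf.2⟩
    | false =>
      rw [hf, cond_false, List.mem_singleton] at ht
      subst ht
      exact hD

theorem addT_idl (S : Sem W φ s) {D c : ℕ} (hD : idl s.dn D = true) (l : List ℕ)
    (hl : ∀ a ∈ l, a ∈ addA s.dn 0 D) {t : ℕ × ℕ} (ht : t ∈ addT c D l) :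
    idl s.dn t.1 = true := by
  induction l with
  | nil => exact absurd ht (by simp [addT])
  | cons a l ih =>
    rcases List.mem_cons.mp (show t ∈ (Nat.lor D (Nat.shiftLeft 1 a), c) :: addT c D l from ht)
      with rfl | ht
    · exact idl_insert S hD (hl a List.mem_cons_self)
    · exact ih (fun b hb => hl b (List.mem_cons_of_mem _ hb)) ht

theorem exL_idl (S : Sem W φ s) {w D c f : ℕ} (hw : w < s.dn.length)
    (hD : idl s.dn D = true) (hwD : D.testBit w = false) {t : ℕ × ℕ}
    (ht : t ∈ exL s.dn s.sat w (nth s.dn w) c D f) : idl s.dn t.1 = true := by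
  unfold exL at ht
  cases hs : isSat s.sat D with
  | true => rw [hs, cond_true] at ht; exact absurd ht (by simp)
  | false =>
    rw [hs, cond_false] at ht
    cases hf : (cond (Nat.beq f 2) (subm (nth s.dn w) D) false) with
    | true =>
      rw [hf, cond_true] at ht
      rw [cond_false_eq] at hf
      refine addT_idl S (idl_insert S hD ?_) _ (fun a ha => ha) ht
      rw [addA_mem]
      exact ⟨w, hw, by ring, by rwa [Nat.zero_add], by rw [← nth_eq hw]; exact hf.2⟩
    | false =>
      rw [hf, cond_false] at ht
      exact addT_idl S hD _ (fun a ha => ha) ht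

theorem edgeT_idl (S : Sem W φ s) {U : List (ℕ × ℕ)} {w D c : ℕ} (hw : w < s.dn.length)
    (hD : idl s.dn D = true) (hwD : D.testBit w = false) (l : List ℕ)
    (hl : ∀ a ∈ l, a ∈ addA s.dn 0 D) {t : ℕ × ℕ}
    (ht : t ∈ edgeT U w (nth s.dn w) c D l) : idl s.dn t.1 = true := by
  induction l with
  | nil => exact absurd ht (by simp [edgeT])
  | cons a l ih =>
    have ih' := ih fun b hb => hl b (List.mem_cons_of_mem _ hb)
    have ha := hl a List.mem_cons_self
    rw [show edgeT U w (nth s.dn w) c D (a :: l) = cond (Nat.beq a w)
        (edgeT U w (nth s.dn w) c D l)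
        (cond (memU U (Nat.lor D (Nat.shiftLeft 1 a))) (edgeT U w (nth s.dn w) c D l)
          ((capM w (nth s.dn w) (Nat.lor D (Nat.shiftLeft 1 a)), c) ::
            edgeT U w (nth s.dn w) c D l)) from rfl] at ht
    cases hb : Nat.beq a w with
    | true => rw [hb, cond_true] at ht; exact ih' ht
    | false =>
      rw [hb, cond_false] at ht
      cases hm : memU U (Nat.lor D (Nat.shiftLeft 1 a)) with
      | true => rw [hm, cond_true] at ht; exact ih' ht
      | false =>
        rw [hm, cond_false] at ht
        rcases List.mem_cons.mp ht with rfl | ht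
        · have hF := idl_insert S hD ha
          unfold capM
          cases hs : subm (nth s.dn w) (Nat.lor D (Nat.shiftLeft 1 a)) with
          | false => exact hF
          | true =>
            rw [cond_true]
            refine idl_insert S hF ?_
            rw [addA_mem]
            refine ⟨w, hw, by ring, ?_, by rw [← nth_eq hw]; exact hs⟩
            rw [Nat.zero_add]
            have haw : a ≠ w := fun h' => by
              rw [nbeq.mpr h'] at hb; exact Bool.false_ne_true hb.symm
            show (D ||| 1 <<< a).testBit w = false
            rw [Nat.testBit_lor, hwD, Nat.one_shiftLeft, Nat.testBit_two_pow, Bool.false_or]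
            exact decide_eq_false haw
        · exact ih' ht

/-- what `cutA` computes -/
theorem Sem.cutA_sound (S : Sem W φ s) {U : List (ℕ × ℕ)} {w : ℕ} (hw : w < s.dn.length)
    (l : List (ℕ × ℕ)) : ∀ (tab : List (ℕ × ℕ)) (LR : List (ℕ × ℕ) × List (ℕ × ℕ)),
    (∀ p ∈ tab, W.e (im φ p.1) = p.2) →
    cutA s.dn s.sat (maskL s.sp) w (nth s.dn w) U l tab = some LR →
    (∀ p ∈ l, idl s.dn p.1 = true ∧ p.1.testBit w = false) ∧
    (∀ p ∈ l, p.2 ≠ 0 → ¬ (subm (maskL s.sp) p.1 = true ∧ subm (nth s.dn w) p.1 = true)) ∧
    (∀ t ∈ LR.1, idl s.dn t.1 = true) ∧ (∀ t ∈ LR.2, idl s.dn t.1 = true) ∧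
    1000000 * (∑ D ∈ setU φ l, W.e D * ∑ a ∈ nx r D, if a ≠ φ w ∧ insert a D ∉ setU φ U then
        W.capG (φ w) (insert a D) else 0) + rs W φ LR.1 ≤ rs W φ LR.2 := by
  classical
  induction l with
  | nil =>
    intro tab LR _ h
    rw [show cutA s.dn s.sat (maskL s.sp) w (nth s.dn w) U [] tab = some ([], []) from rfl] at h
    rw [← Option.some.inj h]
    refine ⟨by simp, by simp, by simp, by simp, ?_⟩
    simp [setU, rs]
  | cons p l ih =>
    intro tab LR ht h
    rw [show cutA s.dn s.sat (maskL s.sp) w (nth s.dn w) U (p :: l) tab =
      cond (cond (idl s.dn p.1) (!(bit p.1 w)) false)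
      (match eD s.dn tab p.1 with
        | none => none
        | some e => match cutA s.dn s.sat (maskL s.sp) w (nth s.dn w) U l ((p.1, e) :: tab) with
          | none => none
          | some LR => cond (Nat.beq p.2 0) (some LR)
              (cond (cond (subm (maskL s.sp) p.1) (subm (nth s.dn w) p.1) false) none
                (some (exL s.dn s.sat w (nth s.dn w) (Nat.mul 1000000 e) p.1 p.2 ++ LR.1,
                  edgeT U w (nth s.dn w) (Nat.mul 1000000 e) p.1 (addA s.dn 0 p.1) ++
                    (exR s.sat w (nth s.dn w) (Nat.mul 1000000 e) p.1 p.2 ++ LR.2)))))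
      none from rfl] at h
    cases hc : (cond (idl s.dn p.1) (!(bit p.1 w)) false) with
    | false => rw [hc] at h; exact absurd h (by simp)
    | true =>
      rw [hc, cond_true] at h
      rw [cond_false_eq] at hc
      obtain ⟨hD, hwb⟩ := hc
      have hwD : p.1.testBit w = false := by
        rw [bit_eq] at hwb
        cases hb : p.1.testBit w with
        | false => rfl
        | true => rw [hb] at hwb; exact absurd hwb (by simp)
      cases he : eD s.dn tab p.1 with
      | none => rw [he] at h; exact absurd h (by simp)
      | some e =>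
        rw [he] at h
        cases hr : cutA s.dn s.sat (maskL s.sp) w (nth s.dn w) U l ((p.1, e) :: tab) with
        | none => simp only [hr] at h; exact absurd h (by simp)
        | some LR' =>
          simp only [hr] at h
          have hee := S.eD_eq ht hD he
          have ht' : ∀ q ∈ (p.1, e) :: tab, W.e (im φ q.1) = q.2 := by
            intro q hq
            rcases List.mem_cons.mp hq with rfl | hq
            · exact hee
            · exact ht q hq
          obtain ⟨i1, i2, i3, i4, i5⟩ := ih _ _ ht' hr
          cases hf : Nat.beq p.2 0 with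
          | true =>
            rw [hf, cond_true] at h
            rw [nbeq] at hf
            have hLR := Option.some.inj h
            subst hLR
            refine ⟨?_, ?_, i3, i4, ?_⟩
            · intro q hq
              rcases List.mem_cons.mp hq with rfl | hq
              · exact ⟨hD, hwD⟩
              · exact i1 q hq
            · intro q hq
              rcases List.mem_cons.mp hq with rfl | hq
              · exact fun h' => absurd hf h'
              · exact i2 q hq
            · have hset : setU φ (p :: l) = setU φ l := by
                ext D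
                rw [mem_setU, mem_setU]
                constructor
                · rintro ⟨q, hq, h1, h2⟩
                  rcases List.mem_cons.mp hq with rfl | hq
                  · exact absurd hf h1
                  · exact ⟨q, hq, h1, h2⟩
                · rintro ⟨q, hq, h1, h2⟩
                  exact ⟨q, List.mem_cons_of_mem _ hq, h1, h2⟩
              rw [hset]
              exact i5
          | false =>
            rw [hf, cond_false] at h
            have hf' : p.2 ≠ 0 := fun h' => by
              rw [nbeq.mpr h'] at hf; exact Bool.false_ne_true hf.symm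
            cases hx : (cond (subm (maskL s.sp) p.1) (subm (nth s.dn w) p.1) false) with
            | true => rw [hx] at h; exact absurd h (by simp)
            | false =>
              rw [hx, cond_false] at h
              have hLR := Option.some.inj h
              subst hLR
              have hone := S.cut_one (U := U) (c := Nat.mul 1000000 e) (f := p.2) hw hD hwD
              refine ⟨?_, ?_, ?_, ?_, ?_⟩
              · intro q hq
                rcases List.mem_cons.mp hq with rfl | hq
                · exact ⟨hD, hwD⟩
                · exact i1 q hq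
              · intro q hq
                rcases List.mem_cons.mp hq with rfl | hq
                · intro _ h'
                  rw [cond_false_eq.mpr h'] at hx
                  exact Bool.false_ne_true hx.symm
                · exact i2 q hq
              · intro t ht1
                rcases List.mem_append.mp ht1 with ht1 | ht1
                · exact exL_idl S hw hD hwD ht1
                · exact i3 t ht1
              · intro t ht1
                rcases List.mem_append.mp ht1 with ht1 | ht1
                · exact edgeT_idl S hw hD hwD _ (fun a ha => ha) ht1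
                · rcases List.mem_append.mp ht1 with ht1 | ht1
                  · exact exR_idl S hw hD hwD ht1
                  · exact i4 t ht1
              · have hset : setU φ (p :: l) = insert (im φ p.1) (setU φ l) := by
                  ext D
                  rw [mem_insert, mem_setU, mem_setU]
                  constructor
                  · rintro ⟨q, hq, h1, h2⟩
                    rcases List.mem_cons.mp hq with rfl | hq
                    · exact Or.inl h2.symm
                    · exact Or.inr ⟨q, hq, h1, h2⟩
                  · rintro (h1 | ⟨q, hq, h1, h2⟩)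
                    · exact ⟨p, List.mem_cons_self, hf', h1.symm⟩
                    · exact ⟨q, List.mem_cons_of_mem _ hq, h1, h2⟩
                rw [hset, rs_append, rs_append, rs_append]
                have hcm : Nat.mul 1000000 e = 1000000 * e := rfl
                rw [hcm] at hone ⊢
                have hins : ∑ D ∈ insert (im φ p.1) (setU φ l), W.e D *
                    (∑ a ∈ nx r D, if a ≠ φ w ∧ insert a D ∉ setU φ U then
                      W.capG (φ w) (insert a D) else 0) ≤
                    e * (∑ a ∈ nx r (im φ p.1), if a ≠ φ w ∧ insert a (im φ p.1) ∉ setU φ U then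
                      W.capG (φ w) (insert a (im φ p.1)) else 0) +
                    ∑ D ∈ setU φ l, W.e D *
                    (∑ a ∈ nx r D, if a ≠ φ w ∧ insert a D ∉ setU φ U then
                      W.capG (φ w) (insert a D) else 0) := by
                  by_cases hm : im φ p.1 ∈ setU φ l
                  · rw [insert_eq_of_mem hm]
                    exact Nat.le_add_left _ _
                  · rw [sum_insert hm, hee]
                have h7 := Nat.mul_le_mul_left 1000000 hins
                rw [mul_add, ← mul_assoc] at h7
                omega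

/-- soundness of the row of a cut -/
theorem cutRow_sound : CutSound cutRow := by
  intro V _ _ r W φ s w l ρ S h
  unfold cutRow at h
  cases hw : Nat.blt w s.dn.length with
  | false => rw [hw] at h; exact absurd h (by simp)
  | true =>
    rw [hw, cond_true] at h
    rw [blt_iff] at hw
    cases l with
    | nil =>
      simp only at h
      cases h0 : Nat.beq (nth s.dn w) 0 with
      | false => rw [h0] at h; exact absurd h (by simp)
      | true =>
        rw [h0, cond_true] at h
        rw [nbeq] at h0
        rw [← Option.some.inj h]
        have hid : idl s.dn 0 = true := by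
          rw [idl_iff]
          refine ⟨by positivity, fun j _ hj => ?_⟩
          rw [Nat.zero_testBit] at hj
          exact absurd hj Bool.false_ne_true
        have hD0 := S.base.dn_im hid
        have hsub : subm (nth s.dn w) 0 = true := by
          rw [h0, subm_iff]
          exact fun i hi => hi
        have hDw := S.dn_insert hw hid hsub
        refine ⟨?_, ?_, ?_⟩
        · intro t ht
          rw [List.mem_singleton] at ht
          subst ht
          exact ⟨by positivity, hD0⟩
        · intro t ht
          rw [List.mem_singleton] at ht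
          subst ht
          refine ⟨lor_lt (by positivity) hw, ?_⟩
          rw [im_insert]
          exact hDw
        · simp only [List.map_cons, List.map_nil, List.sum_cons, List.sum_nil, add_zero]
          rw [im_insert, im_zero]
          rw [im_zero] at hDw
          have h1 : insert (φ w) (∅ : Finset V) = {φ w} := by
            ext
            simp
          rw [h1] at hDw ⊢
          exact W.cut_node' hDw
    | cons q l =>
      simp only at h
      cases hc : (cond (bit (maskL s.sp) w) false (memU (q :: l) 0)) with
      | false => rw [hc] at h; exact absurd h (by simp)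
      | true =>
        rw [hc, cond_true] at h
        have hwX : (maskL s.sp).testBit w = false := by
          cases hb : bit (maskL s.sp) w with
          | false => rwa [bit_eq] at hb
          | true => rw [hb] at hc; exact absurd hc (by simp)
        have hm0 : memU (q :: l) 0 = true := by
          rw [bit_eq, hwX, cond_false] at hc
          exact hc
        cases hA : cutA s.dn s.sat (maskL s.sp) w (nth s.dn w) (q :: l) (q :: l) [] with
        | none => rw [hA] at h; exact absurd h (by simp)
        | some LR =>
          rw [hA] at h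
          rw [← Option.some.inj h]
          obtain ⟨i1, i2, i3, i4, i5⟩ := S.cutA_sound (U := q :: l) hw (q :: l) [] LR
            (by simp) hA
          have hid : idl s.dn 0 = true := by
            rw [idl_iff]
            refine ⟨by positivity, fun j _ hj => ?_⟩
            rw [Nat.zero_testBit] at hj
            exact absurd hj Bool.false_ne_true
          refine ⟨?_, ?_, ?_⟩
          · intro t ht
            rcases List.mem_cons.mp ht with rfl | ht
            · exact ⟨by positivity, S.base.dn_im hid⟩
            · exact ⟨(idl_iff.mp (i3 t ht)).1, S.base.dn_im (i3 t ht)⟩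
          · intro t ht
            exact ⟨(idl_iff.mp (i4 t ht)).1, S.base.dn_im (i4 t ht)⟩
          · have h0 : (∅ : Finset V) ∈ setU φ (q :: l) := by
              obtain ⟨p, hp, h1, h2⟩ := memU_iff.mp hm0
              exact mem_setU.mpr ⟨p, hp, h2, by rw [h1, im_zero]⟩
            have hU : ∀ D ∈ setU φ (q :: l), Dn r D ∧ φ w ∉ D := by
              intro D hD
              obtain ⟨p, hp, _, rfl⟩ := mem_setU.mp hD
              refine ⟨S.base.dn_im (i1 p hp).1, ?_⟩
              rw [S.base.mem_iff (idl_iff.mp (i1 p hp).1).1 hw, (i1 p hp).2]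
              exact Bool.false_ne_true
            have hX : before W.pos (φ w) ∉ setU φ (q :: l) := by
              intro hX
              obtain ⟨p, hp, h1, h2⟩ := mem_setU.mp hX
              have hlt := (idl_iff.mp (i1 p hp).1).1
              refine i2 p hp h1 ⟨subm_iff.mpr fun i hi => ?_, subm_iff.mpr fun i hi => ?_⟩
              · have hik : i < s.dn.length := lt_of_bit S.spine_lt hi
                rw [← S.base.mem_iff hlt hik, h2]
                have h3 : φ i ∈ im φ (maskL s.sp) := mem_im.mpr ⟨i, hi, rfl⟩
                have h4 : φ w ∉ im φ (maskL s.sp) := by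
                  rw [S.base.mem_iff S.spine_lt hw, hwX]
                  exact Bool.false_ne_true
                rw [S.spine_set, mem_filter] at h3 h4
                have h5 : s.sp.length ≤ W.pos (φ w) := by
                  by_contra hcon
                  exact h4 ⟨mem_univ _, not_le.mp hcon⟩
                unfold before
                rw [mem_filter]
                exact ⟨mem_univ _, lt_of_lt_of_le h3.2 h5⟩
              · rw [nth_eq hw] at hi
                have hik : i < s.dn.length := lt_of_bit (S.base.lt' w hw) hi
                rw [← S.base.mem_iff hlt hik, h2]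
                unfold before
                rw [mem_filter]
                have h3 := S.rel hw hi
                exact ⟨mem_univ _, S.pos_lt h3.1 h3.2⟩
            have hcut := W.cut' (φ w) h0 hU hX
            change rs W φ ((0, 77954) :: LR.1) ≤ rs W φ LR.2
            have h9 : rs W φ ((0, 77954) :: LR.1) = 77954 * W.G ∅ + rs W φ LR.1 := by
              simp [rs, im_zero]
            rw [h9]
            refine (Nat.add_le_add_right (hcut.trans (le_of_eq ?_)) _).trans i5
            congr 1
            refine sum_congr rfl fun D _ => ?_
            rw [sum_filter]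

end Pool.Agent.W3
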