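import Mathlib.Data.Nat.Basic

/-!
# The executable leaf

Known poset: element `x` has strict down-set `dn[x]` (bit mask).  The ideals are enumerated as
triples of prefixes of three chains `c1`, `c2`, `c3`.  All functions are written with recursors
so that the kernel evaluates them quickly.
-/

set_option autoImplicit false

noncomputable section

namespace Pool.Agent.W3

/-- an edge term: weight `w * e D` at `D + x`, for the `D` which contain `req` and are contained
in one of the `his` -/
structure ET where
  x : Nat
  req : Nat
  his : List Nat
  w : Nat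

/-- a sparse coefficient: positive and negative part at the ideal with the given mask -/
structure Sp where
  mask : Nat
  pos : Nat
  neg : Nat

namespace Leaf

/-- entry of a chain: mask of a prefix, strict down-set of its top, edge terms of the top -/
structure Ent where
  mask : Nat
  down : Nat
  pp : List ET
  np : List ET

/-- values at one ideal: number of linear extensions, positive part, negative part -/
structure Cell where
  e : Nat
  p : Nat
  n : Nat

def zero : Cell := ⟨0, 0, 0⟩

/-- the bit `x` of `m` -/
def tb (m x : Nat) : Bool := Nat.beq (Nat.land (Nat.shiftRight m x) 1) 1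

/-- `a` is contained in `b` -/
def sub (a b : Nat) : Bool := Nat.beq (Nat.lor b a) b

/-- `m` is contained in one of the masks of `sat` -/
def inSat (sat : List Nat) (m : Nat) : Bool :=
  List.rec (motive := fun _ => Bool) false (fun s _ ih => cond (sub m s) true ih) sat

/-- contribution of the edge terms into the ideal `m` -/
def wE (l : List ET) (m e acc : Nat) : Nat :=
  List.rec (motive := fun _ => Nat) acc
    (fun t _ ih => cond (cond (sub t.req m) (inSat t.his m) false)
      (Nat.add (Nat.mul t.w e) ih) ih) l

def psum (l : List Sp) (m acc : Nat) : Nat :=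
  List.rec (motive := fun _ => Nat) acc
    (fun q _ ih => cond (Nat.beq q.mask m) (Nat.add q.pos ih) ih) l

def nsum (l : List Sp) (m acc : Nat) : Nat :=
  List.rec (motive := fun _ => Nat) acc
    (fun q _ ih => cond (Nat.beq q.mask m) (Nat.add q.neg ih) ih) l

/-- entries whose mask contains `lo` and is contained in `hi` -/
def flt (l : List Sp) (lo hi : Nat) : List Sp :=
  List.rec (motive := fun _ => List Sp) []
    (fun q _ ih => cond (sub lo q.mask) (cond (sub q.mask hi) (q :: ih) ih) ih) l

/-- one row -/
def row (sat : List Nat) (fl m12 d12 : Nat) (p1 n1 p2 n2 : List ET) (sp : List Sp)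
    (es : List Ent) :
    (prev : Cell) → (rb ra : List Cell) → (List Cell → Bool) → Bool :=
  List.rec (motive := fun _ => Cell → List Cell → List Cell → (List Cell → Bool) → Bool)
    (fun _ _ _ k => k [])
    (fun e _ ih prev rb ra k =>
      List.rec (motive := fun _ => Bool) false (fun b bs _ =>
        List.rec (motive := fun _ => Bool) false (fun a as _ =>
          (fun m =>
            cond (sub (Nat.lor d12 e.down) m)
              ((fun c : Cell =>
                cond (cond (Nat.ble c.p c.n) true (cond (Nat.beq m fl) false (inSat sat m)))
                  (ih c bs as (fun r => k (c :: r))) false)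
               ⟨Nat.add prev.e (Nat.add b.e a.e),
                wE e.pp m prev.e (wE p2 m b.e (wE p1 m a.e
                  (psum sp m (Nat.add prev.p (Nat.add b.p a.p))))),
                wE e.np m prev.e (wE n2 m b.e (wE n1 m a.e
                  (nsum sp m (Nat.add prev.n (Nat.add b.n a.n)))))⟩)
              (ih zero bs as (fun r => k (zero :: r)))) (Nat.lor m12 e.mask)) ra) rb) es

/-- one plane -/
def plane (sat : List Nat) (fl m1 d1 : Nat) (p1 n1 : List ET) (sp : List Sp) (f3 : Nat)
    (c3 : List Ent) (c2 : List Ent) :
    (rb : List Cell) → (pa : List (List Cell)) → (List (List Cell) → Bool) → Bool :=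
  List.rec (motive := fun _ => List Cell → List (List Cell) → (List (List Cell) → Bool) → Bool)
    (fun _ _ k => k [])
    (fun e _ ih rb pa k =>
      List.rec (motive := fun _ => Bool) false (fun ra ras _ =>
        row sat fl (Nat.lor m1 e.mask) (Nat.lor d1 e.down) p1 n1 e.pp e.np
          (flt sp e.mask (Nat.lor (Nat.lor m1 e.mask) f3)) c3 zero rb ra
          (fun r => ih r ras (fun rs => k (r :: rs)))) pa) c2

/-- the whole grid -/
def cube (sat : List Nat) (fl : Nat) (sp : List Sp) (f3 f23 : Nat) (c3 c2 : List Ent)
    (zrow : List Cell) (c1 : List Ent) :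
    (rb : List Cell) → (pa : List (List Cell)) → Bool :=
  List.rec (motive := fun _ => List Cell → List (List Cell) → Bool)
    (fun _ _ => true)
    (fun e _ ih rb pa =>
      plane sat fl e.mask e.down e.pp e.np (flt sp e.mask (Nat.lor e.mask f23)) f3 c3 c2 rb pa
        (fun pl => ih zrow pl)) c1

/-- the element number `x` of a list of numbers, `0` beyond its end -/
def gt (dn : List Nat) (x : Nat) : Nat :=
  List.rec (motive := fun _ => Nat → Nat) (fun _ => 0)
    (fun d _ ih x => Nat.rec (motive := fun _ => Nat) d (fun y _ => ih y) x) dn x

/-- the masks with the bit `b` added -/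
def addBit (b : Nat) (l : List Nat) : List Nat :=
  List.rec (motive := fun _ => List Nat) [] (fun h _ ih => Nat.lor h b :: ih) l

/-- edge terms of `x` -/
def ets (l : List ET) (x : Nat) : List ET :=
  List.rec (motive := fun _ => List ET) []
    (fun t _ ih => cond (Nat.beq t.x x)
      (⟨t.x, t.req, addBit (Nat.shiftLeft 1 x) t.his, t.w⟩ :: ih) ih) l

/-- entries of a chain, above the mask `m` -/
def ents (dn : List Nat) (pe ne : List ET) (c : List Nat) (m : Nat) : List Ent :=
  List.rec (motive := fun _ => Nat → List Ent) (fun _ => [])
    (fun x _ ih m => (fun m' => (⟨m', gt dn x, ets pe x, ets ne x⟩ : Ent) :: ih m')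
      (Nat.lor m (Nat.shiftLeft 1 x))) c m

/-- union of the bits of the elements of a list -/
def full (c : List Nat) : Nat :=
  List.rec (motive := fun _ => Nat) 0 (fun x _ ih => Nat.lor (Nat.shiftLeft 1 x) ih) c

/-- consecutive elements of the list are comparable -/
def isChain (dn : List Nat) (c : List Nat) : Bool :=
  List.rec (motive := fun _ => Bool) true
    (fun x cs ih => cond (List.rec (motive := fun _ => Bool) true
      (fun y _ _ => tb (gt dn y) x) cs) ih false) c

def len (c : List Nat) : Nat :=
  List.rec (motive := fun _ => Nat) 0 (fun _ _ ih => Nat.add ih 1) c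

/-- the edge terms are well formed -/
def okE (l : List ET) : Bool :=
  List.rec (motive := fun _ => Bool) true (fun t _ ih => cond (tb t.req t.x) false ih) l

def zrow {α : Type} (z : α) (c : List Nat) : List α :=
  List.rec (motive := fun _ => List α) [] (fun _ _ ih => z :: ih) c

/-- the leaf check: the three chains, the saturated masks, the positive and the negative edge
terms, the sparse coefficients -/
def nleaf (c1 c2 c3 dn sat : List Nat) (pe ne : List ET) (sp : List Sp) : Bool :=
  cond (isChain dn c1) (cond (isChain dn c2) (cond (isChain dn c3)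
  (cond (Nat.beq (Nat.add (len c1) (Nat.add (len c2) (len c3))) (len dn))
  (cond (Nat.beq (Nat.succ (Nat.lor (full c1) (Nat.lor (full c2) (full c3))))
      (Nat.shiftLeft 1 (len dn)))
  (cond (okE pe) (cond (okE ne)
  ((fun z3 => cube sat (Nat.pred (Nat.shiftLeft 1 (len dn))) sp (full c3)
    (Nat.lor (full c2) (full c3))
    ((⟨0, 0, [], []⟩ : Ent) :: ents dn pe ne c3 0)
    ((⟨0, 0, [], []⟩ : Ent) :: ents dn pe ne c2 0)
    (zero :: z3)
    ((⟨0, 0, [], []⟩ : Ent) :: ents dn pe ne c1 0)
    (⟨1, 1, 0⟩ :: z3)
    ((zero :: z3) :: zrow (zero :: z3) c2))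
    (zrow zero c3)) false) false) false) false) false) false) false

end Leaf

end Pool.Agent.W3
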