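import Pool.Agent.W3.Rows
import Pool.Agent.W3.LeafDef

/-!
# From the rows of a certificate to the coefficients of the leaf

`compile` turns the rows of a certificate with their multipliers into sparse coefficients `Sp`
and edge terms `ET`.
-/

set_option autoImplicit false

namespace Pool.Agent.W3

open Finset

/-- the condition on `D` in an edge term -/
def ET.cond (t : ET) (D : Finset ℕ) : Prop := bs t.req ⊆ D ∧ ∃ h ∈ t.his, D ⊆ bs h

open Classical in
/-- the edge part of the coefficient of `G F` -/
noncomputable def ekap (k : ℕ) (dn : ℕ → Finset ℕ) (e : Finset ℕ → ℕ) (l : List ET)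
    (F : Finset ℕ) : ℕ :=
  ∑ x ∈ F.filter (fun x => F.erase x ∈ Idl k dn),
    e (F.erase x) * (l.map fun t => if t.x = x ∧ t.cond (F.erase x) then t.w else 0).sum

/-- the coefficient of `G F` on the positive side -/
noncomputable def kpos (k : ℕ) (dn : ℕ → Finset ℕ) (e : Finset ℕ → ℕ) (pe : List ET)
    (sp : List Sp) (F : Finset ℕ) : ℕ :=
  (if F = ∅ then 1 else 0) + (sp.map fun s => if bs s.mask = F then s.pos else 0).sum +
    ekap k dn e pe F

/-- the coefficient of `G F` on the negative side -/
noncomputable def kneg (k : ℕ) (dn : ℕ → Finset ℕ) (e : Finset ℕ → ℕ) (ne : List ET)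
    (sp : List Sp) (F : Finset ℕ) : ℕ :=
  (sp.map fun s => if bs s.mask = F then s.neg else 0).sum + ekap k dn e ne F

open Classical in
/-- the sum of an edge term, without its weight -/
noncomputable def esum (k : ℕ) (dn : ℕ → Finset ℕ) (G e : Finset ℕ → ℕ) (t : ET) : ℕ :=
  ∑ D ∈ (Idl k dn).filter (fun D => t.x < k ∧ t.x ∉ D ∧ dn t.x ⊆ D ∧ t.cond D),
    e D * G (insert t.x D)

section

variable {k : ℕ} {dn : ℕ → Finset ℕ}

/-- the sum of the edge part -/
theorem sum_ekap (hdn : ∀ x < k, x ∉ dn x) (G e : Finset ℕ → ℕ) (l : List ET) :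
    ∑ F ∈ Idl k dn, ekap k dn e l F * G F = (l.map fun t => t.w * esum k dn G e t).sum := by
  classical
  have h1 : ∀ F ∈ Idl k dn, ekap k dn e l F * G F =
      ∑ x ∈ F.filter (fun x => F.erase x ∈ Idl k dn),
        (fun D x => e D * (l.map fun t => if t.x = x ∧ t.cond D then t.w else 0).sum *
          G (insert x D)) (F.erase x) x := by
    intro F _
    unfold ekap
    rw [sum_mul]
    refine sum_congr rfl fun x hx => ?_
    simp only [insert_erase (mem_filter.1 hx).1]
  rw [sum_congr rfl h1, sum_edges hdn (fun D x => e D *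
    (l.map fun t => if t.x = x ∧ t.cond D then t.w else 0).sum * G (insert x D))]
  have h2 : ∀ D ∈ Idl k dn, ∑ b ∈ (range k).filter (fun b => b ∉ D ∧ dn b ⊆ D),
      e D * (l.map fun t => if t.x = b ∧ t.cond D then t.w else 0).sum * G (insert b D) =
      (l.map fun t => if t.x < k ∧ t.x ∉ D ∧ dn t.x ⊆ D ∧ t.cond D then
        t.w * (e D * G (insert t.x D)) else 0).sum := by
    intro D _
    have h3 : ∀ b ∈ (range k).filter (fun b => b ∉ D ∧ dn b ⊆ D),
        e D * (l.map fun t => if t.x = b ∧ t.cond D then t.w else 0).sum * G (insert b D) =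
        (l.map fun t => if t.x = b then (if t.cond D then
          t.w * (e D * G (insert t.x D)) else 0) else 0).sum := by
      intro b _
      rw [mul_comm (e D), mul_assoc, sum_list_mul, List.map_map]
      congr 1
      refine List.map_congr_left fun t _ => ?_
      simp only [Function.comp]
      by_cases hb : t.x = b
      · subst hb
        by_cases hc : t.cond D
        · simp [hc]
        · simp [hc]
      · simp [hb]
    rw [sum_congr rfl h3, sum_finset_list]
    congr 1
    refine List.map_congr_left fun t _ => ?_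
    rw [sum_ite_eq, ]
    by_cases hc : t.cond D
    · by_cases hx : t.x ∈ (range k).filter (fun b => b ∉ D ∧ dn b ⊆ D)
      · have hx' := mem_filter.1 hx
        rw [if_pos hx, if_pos hc, if_pos ⟨mem_range.1 hx'.1, hx'.2.1, hx'.2.2, hc⟩]
      · rw [if_neg hx, if_neg]
        rintro ⟨h4, h5, h6, -⟩
        exact hx (mem_filter.2 ⟨mem_range.2 h4, h5, h6⟩)
    · have h4 : ¬ (t.x < k ∧ t.x ∉ D ∧ dn t.x ⊆ D ∧ t.cond D) := fun h => hc h.2.2.2
      rw [if_neg hc, if_neg h4, ite_self]
  rw [sum_congr rfl h2, sum_finset_list]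
  congr 1
  refine List.map_congr_left fun t _ => ?_
  unfold esum
  rw [mul_sum, sum_filter]

/-- the sum of the sparse part -/
theorem sum_sparse (G : Finset ℕ → ℕ) (f : Sp → ℕ) (sp : List Sp)
    (h : ∀ s ∈ sp, bs s.mask ∈ Idl k dn) :
    ∑ F ∈ Idl k dn, (sp.map fun s => if bs s.mask = F then f s else 0).sum * G F =
      (sp.map fun s => f s * G (bs s.mask)).sum := by
  have h1 : ∀ F ∈ Idl k dn, (sp.map fun s => if bs s.mask = F then f s else 0).sum * G F =
      (sp.map fun s => if bs s.mask = F then f s * G F else 0).sum := by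
    intro F _
    rw [sum_list_mul, List.map_map]
    congr 1
    refine List.map_congr_left fun s _ => ?_
    simp only [Function.comp]
    split_ifs <;> simp
  rw [sum_congr rfl h1, sum_finset_list]
  congr 1
  refine List.map_congr_left fun s hs => ?_
  rw [sum_ite_eq, if_pos (h s hs)]

/-- **The leaf for compiled rows.** -/
theorem leaf_rows (hdn : ∀ x < k, x ∉ dn x) {sat : Finset ℕ → Prop} {G e : Finset ℕ → ℕ}
    (h : LSem k dn sat G e) (pe ne : List ET) (sp : List Sp)
    (hsp : ∀ s ∈ sp, bs s.mask ∈ Idl k dn)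
    (hrows : (sp.map fun s => s.neg * G (bs s.mask)).sum +
      (ne.map fun t => t.w * esum k dn G e t).sum ≤
      (sp.map fun s => s.pos * G (bs s.mask)).sum + (pe.map fun t => t.w * esum k dn G e t).sum)
    (P N : Finset ℕ → ℕ)
    (hP : ∀ F ∈ Idl k dn, P F = kpos k dn e pe sp F +
      ∑ x ∈ F.filter (fun x => F.erase x ∈ Idl k dn), P (F.erase x))
    (hN : ∀ F ∈ Idl k dn, N F = kneg k dn e ne sp F +
      ∑ x ∈ F.filter (fun x => F.erase x ∈ Idl k dn), N (F.erase x))
    (hle : ∀ F ∈ Idl k dn, ¬ sat F → P F ≤ N F) : False := by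
  have hem : ∅ ∈ Idl k dn := mem_Idl.2 ⟨empty_subset _, by simp⟩
  have key := parts_le hdn h _ _ P N hP hN hle
  unfold kpos kneg at key
  simp only [add_mul, sum_add_distrib] at key
  rw [sum_sparse G (fun s => s.pos) sp hsp, sum_sparse G (fun s => s.neg) sp hsp,
    sum_ekap hdn, sum_ekap hdn] at key
  simp only [ite_mul, one_mul, zero_mul] at key
  rw [sum_ite_eq' (Idl k dn) ∅, if_pos hem] at key
  have := h.pos
  omega

end

/-- the sparse coefficients of the left side of a general row, put before `ih` -/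
noncomputable def spL (L : List (ℕ × ℕ)) (w : ℕ) (ih : List Sp) : List Sp :=
  List.rec (motive := fun _ => List Sp) ih
    (fun p _ ih => (⟨p.1, 0, Nat.mul p.2 w⟩ : Sp) :: ih) L

/-- the sparse coefficients of the right side of a general row, put before `ih` -/
noncomputable def spR (R : List (ℕ × ℕ)) (w : ℕ) (ih : List Sp) : List Sp :=
  List.rec (motive := fun _ => List Sp) ih
    (fun p _ ih => (⟨p.1, Nat.mul p.2 w, 0⟩ : Sp) :: ih) R

/-- the sparse coefficients of the rows -/
noncomputable def spC (rows : List (Row × ℕ)) : List Sp :=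
  List.rec (motive := fun _ => List Sp) []
    (fun t _ ih => Row.rec (motive := fun _ => List Sp)
      (fun _ _ => (⟨0, Nat.mul 167 t.2, 0⟩ : Sp) :: ih)
      (fun _ _ c => (⟨0, 0, Nat.mul c t.2⟩ : Sp) :: ih)
      (fun L R => spL L t.2 (spR R t.2 ih)) t.1) rows

/-- the edge terms of the positive side -/
noncomputable def peC (rows : List (Row × ℕ)) : List ET :=
  List.rec (motive := fun _ => List ET) []
    (fun t _ ih => Row.rec (motive := fun _ => List ET)
      (fun _ _ => ih)
      (fun X x _ => (⟨x, X, [X], Nat.mul 1000000 t.2⟩ : ET) :: ih)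
      (fun _ _ => ih) t.1) rows

/-- the edge terms of the negative side; `K` is the mask of all known elements -/
noncomputable def neC (K : ℕ) (rows : List (Row × ℕ)) : List ET :=
  List.rec (motive := fun _ => List ET) []
    (fun t _ ih => Row.rec (motive := fun _ => List ET)
      (fun a b => (⟨b, 0, [Nat.xor K (Nat.shiftLeft 1 a)], Nat.mul 500 t.2⟩ : ET) :: ih)
      (fun _ _ _ => ih)
      (fun _ _ => ih) t.1) rows

theorem mem_spL {L : List (ℕ × ℕ)} {w : ℕ} {l : List Sp} {s : Sp} (h : s ∈ spL L w l) :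
    (∃ p ∈ L, s.mask = p.1) ∨ s ∈ l := by
  induction L with
  | nil => exact Or.inr h
  | cons p L ih =>
    rcases List.mem_cons.1 h with h | h
    · exact Or.inl ⟨p, List.mem_cons_self .., by rw [h]⟩
    · rcases ih h with ⟨q, hq, hs⟩ | h
      · exact Or.inl ⟨q, List.mem_cons_of_mem _ hq, hs⟩
      · exact Or.inr h

theorem mem_spR {L : List (ℕ × ℕ)} {w : ℕ} {l : List Sp} {s : Sp} (h : s ∈ spR L w l) :
    (∃ p ∈ L, s.mask = p.1) ∨ s ∈ l := by
  induction L with
  | nil => exact Or.inr h
  | cons p L ih =>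
    rcases List.mem_cons.1 h with h | h
    · exact Or.inl ⟨p, List.mem_cons_self .., by rw [h]⟩
    · rcases ih h with ⟨q, hq, hs⟩ | h
      · exact Or.inl ⟨q, List.mem_cons_of_mem _ hq, hs⟩
      · exact Or.inr h

theorem sum_spL_neg (g : ℕ → ℕ) (L : List (ℕ × ℕ)) (w : ℕ) (l : List Sp) :
    ((spL L w l).map fun s => s.neg * g s.mask).sum =
      (L.map fun p => p.2 * g p.1).sum * w + (l.map fun s => s.neg * g s.mask).sum := by
  induction L with
  | nil => simp [spL]
  | cons p L ih =>
    have h : spL (p :: L) w l = (⟨p.1, 0, p.2 * w⟩ : Sp) :: spL L w l := rfl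
    rw [h, List.map_cons, List.sum_cons, ih, List.map_cons, List.sum_cons]
    ring

theorem sum_spL_pos (g : ℕ → ℕ) (L : List (ℕ × ℕ)) (w : ℕ) (l : List Sp) :
    ((spL L w l).map fun s => s.pos * g s.mask).sum = (l.map fun s => s.pos * g s.mask).sum := by
  induction L with
  | nil => rfl
  | cons p L ih =>
    have h : spL (p :: L) w l = (⟨p.1, 0, p.2 * w⟩ : Sp) :: spL L w l := rfl
    rw [h, List.map_cons, List.sum_cons, ih]
    ring

theorem sum_spR_pos (g : ℕ → ℕ) (L : List (ℕ × ℕ)) (w : ℕ) (l : List Sp) :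
    ((spR L w l).map fun s => s.pos * g s.mask).sum =
      (L.map fun p => p.2 * g p.1).sum * w + (l.map fun s => s.pos * g s.mask).sum := by
  induction L with
  | nil => simp [spR]
  | cons p L ih =>
    have h : spR (p :: L) w l = (⟨p.1, p.2 * w, 0⟩ : Sp) :: spR L w l := rfl
    rw [h, List.map_cons, List.sum_cons, ih, List.map_cons, List.sum_cons]
    ring

theorem sum_spR_neg (g : ℕ → ℕ) (L : List (ℕ × ℕ)) (w : ℕ) (l : List Sp) :
    ((spR L w l).map fun s => s.neg * g s.mask).sum = (l.map fun s => s.neg * g s.mask).sum := by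
  induction L with
  | nil => rfl
  | cons p L ih =>
    have h : spR (p :: L) w l = (⟨p.1, p.2 * w, 0⟩ : Sp) :: spR L w l := rfl
    rw [h, List.map_cons, List.sum_cons, ih]
    ring

section

open Classical in
theorem esum_eq (k : ℕ) (dn : ℕ → Finset ℕ) (G e : Finset ℕ → ℕ) (t : ET) (s : Finset (Finset ℕ))
    (h : ∀ D, D ∈ s ↔ D ∈ Idl k dn ∧ t.x < k ∧ t.x ∉ D ∧ dn t.x ⊆ D ∧ t.cond D) :
    esum k dn G e t = ∑ D ∈ s, e D * G (insert t.x D) := by
  unfold esum
  refine sum_congr ?_ fun _ _ => rfl
  ext D
  rw [h, mem_filter]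

variable {V : Type} [Fintype V] [DecidableEq V] {r : V → V → Prop} {φ : ℕ → V} {dn sat : List ℕ}

/-- all masks of the compiled rows are ideals -/
theorem spC_mem (W : World r) (hB : Base r φ dn sat) (rows : List (Row × ℕ))
    (h : ∀ ρ ∈ rows, ρ.1.ok W φ dn.length) :
    ∀ s ∈ spC rows, bs s.mask ∈ Idl dn.length (dnf dn) := by
  have hem : bs 0 ∈ Idl dn.length (dnf dn) := by
    rw [bs_zero]
    exact mem_Idl.2 ⟨empty_subset _, by simp⟩
  induction rows with
  | nil => exact fun s hs => absurd hs (List.not_mem_nil)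
  | cons t rows ih =>
    have ih' := ih fun ρ hρ => h ρ (List.mem_cons_of_mem _ hρ)
    have ht := h t (List.mem_cons_self ..)
    obtain ⟨ρ, w⟩ := t
    intro s hs
    cases ρ with
    | maj a b =>
      rcases List.mem_cons.1 hs with hs | hs
      · rw [hs]; exact hem
      · exact ih' s hs
    | spn X x c =>
      rcases List.mem_cons.1 hs with hs | hs
      · rw [hs]; exact hem
      · exact ih' s hs
    | gen L R =>
      obtain ⟨h1, h2, -⟩ := ht
      rcases mem_spL hs with ⟨p, hp, hm⟩ | hs
      · rw [hm]; exact bs_mem_Idl hB (h1 p hp).1 (h1 p hp).2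
      · rcases mem_spR hs with ⟨p, hp, hm⟩ | hs
        · rw [hm]; exact bs_mem_Idl hB (h2 p hp).1 (h2 p hp).2
        · exact ih' s hs

/-- the rows, compiled -/
theorem rows_le (W : World r) (hB : Base r φ dn sat) (K : ℕ)
    (hK : ∀ i, i < dn.length ↔ K.testBit i = true) (rows : List (Row × ℕ))
    (h : ∀ ρ ∈ rows, ρ.1.ok W φ dn.length) :
    ((spC rows).map fun s => s.neg * W.G ((bs s.mask).image φ)).sum +
      ((neC K rows).map fun t => t.w * esum dn.length (dnf dn) (fun F => W.G (F.image φ))
        (fun F => W.e (F.image φ)) t).sum ≤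
    ((spC rows).map fun s => s.pos * W.G ((bs s.mask).image φ)).sum +
      ((peC rows).map fun t => t.w * esum dn.length (dnf dn) (fun F => W.G (F.image φ))
        (fun F => W.e (F.image φ)) t).sum := by
  induction rows with
  | nil => exact le_rfl
  | cons t rows ih =>
    have ih' := ih fun ρ hρ => h ρ (List.mem_cons_of_mem _ hρ)
    have ht := h t (List.mem_cons_self ..)
    clear ih h
    obtain ⟨ρ, w⟩ := t
    cases ρ with
    | maj a b =>
      obtain ⟨ha, hb, hab⟩ := ht
      have h1 : spC ((Row.maj a b, w) :: rows) = (⟨0, 167 * w, 0⟩ : Sp) :: spC rows := rfl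
      have h2 : neC K ((Row.maj a b, w) :: rows) =
        (⟨b, 0, [Nat.xor K (Nat.shiftLeft 1 a)], 500 * w⟩ : ET) :: neC K rows := rfl
      have h3 : peC ((Row.maj a b, w) :: rows) = peC rows := rfl
      rw [h1, h2, h3]
      simp only [List.map_cons, List.sum_cons, bs_zero, image_empty, zero_mul, zero_add]
      have h4 := majOk W hB ha hb hab
      unfold MajOk at h4
      dsimp only at h4
      rw [image_empty] at h4
      have h5 : esum dn.length (dnf dn) (fun F => W.G (F.image φ)) (fun F => W.e (F.image φ))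
          ⟨b, 0, [Nat.xor K (Nat.shiftLeft 1 a)], 500 * w⟩ =
          ∑ D ∈ (Idl dn.length (dnf dn)).filter (fun D => a ∉ D ∧ b ∉ D ∧
            insert b D ∈ Idl dn.length (dnf dn)), W.e (D.image φ) * W.G ((insert b D).image φ) := by
        refine esum_eq _ _ _ _ _ _ fun D => ?_
        rw [mem_filter]
        refine and_congr_right fun hD => ?_
        have hDr := (mem_Idl.1 hD).1
        refine Iff.symm ?_
        constructor
        · rintro ⟨-, h6, h7, -, hi, h8, h9⟩
          rw [List.mem_singleton] at h8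
          subst h8
          refine ⟨fun h10 => ?_, h6, (hB.mem_Idl_insert hD hb h6).2 h7⟩
          have h11 := h9 h10
          rw [mem_bs] at h11
          have h12 : (K ^^^ (1 <<< a)).testBit a = true := h11
          rw [Nat.testBit_xor, (hK a).1 ha, Nat.one_shiftLeft, Nat.testBit_two_pow_self] at h12
          exact absurd h12 (by decide)
        · rintro ⟨h6, h7, h8⟩
          refine ⟨hb, h7, (hB.mem_Idl_insert hD hb h7).1 h8, ?_, _, List.mem_singleton.2 rfl, ?_⟩
          · rw [bs_zero]
            exact empty_subset _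
          · intro i hi
            rw [mem_bs]
            show (K ^^^ (1 <<< a)).testBit i = true
            have hia : a ≠ i := fun h => h6 (by rwa [h])
            rw [Nat.testBit_xor, (hK i).1 (mem_range.1 (hDr hi)), Nat.one_shiftLeft,
              Nat.testBit_two_pow_of_ne hia]
            rfl
      rw [h5]
      have h6 := Nat.mul_le_mul_right w h4
      have e1 : 500 * w * ∑ D ∈ (Idl dn.length (dnf dn)).filter (fun D => a ∉ D ∧ b ∉ D ∧
            insert b D ∈ Idl dn.length (dnf dn)), W.e (D.image φ) * W.G ((insert b D).image φ) =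
          500 * (∑ D ∈ (Idl dn.length (dnf dn)).filter (fun D => a ∉ D ∧ b ∉ D ∧
            insert b D ∈ Idl dn.length (dnf dn)), W.e (D.image φ) * W.G ((insert b D).image φ)) *
            w := by ring
      have e2 : 167 * w * W.G ∅ = 167 * W.G ∅ * w := by ring
      rw [e1, e2]
      omega
    | spn X x c =>
      obtain ⟨hX, hx, hdX, hxX, hdx, hc⟩ := ht
      have h1 : spC ((Row.spn X x c, w) :: rows) = (⟨0, 0, c * w⟩ : Sp) :: spC rows := rfl
      have h2 : neC K ((Row.spn X x c, w) :: rows) = neC K rows := rfl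
      have h3 : peC ((Row.spn X x c, w) :: rows) =
        (⟨x, X, [X], 1000000 * w⟩ : ET) :: peC rows := rfl
      rw [h1, h2, h3]
      simp only [List.map_cons, List.sum_cons, bs_zero, image_empty, zero_mul, zero_add]
      have hXI := bs_mem_Idl hB hX hdX
      have hXr := (mem_Idl.1 hXI).1
      have hxX' : x ∉ bs X := fun h => hxX (mem_image_of_mem φ h)
      have h5 : esum dn.length (dnf dn) (fun F => W.G (F.image φ)) (fun F => W.e (F.image φ))
          ⟨x, X, [X], 1000000 * w⟩ = W.e (im φ X) * W.G (insert (φ x) (im φ X)) := by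
        rw [esum_eq _ _ _ _ _ {bs X} fun D => ?_]
        · rw [sum_singleton]
          dsimp only
          rw [image_insert]
          rfl
        · rw [mem_singleton]
          constructor
          · intro hD
            subst hD
            refine ⟨hXI, hx, hxX', ?_, Subset.refl _, X, List.mem_singleton.2 rfl,
              Subset.refl _⟩
            rw [im_eq, ← image_insert,
              hB.dn_iff (insert_subset (mem_range.2 hx) hXr)] at hdx
            exact (hB.mem_Idl_insert hXI hx hxX').1 hdx
          · rintro ⟨-, -, -, -, h6, hi, h7, h8⟩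
            rw [List.mem_singleton] at h7
            subst h7
            exact Subset.antisymm h8 h6
      rw [h5]
      have h6 := Nat.mul_le_mul_right w hc
      have e1 : c * w * W.G ∅ = c * W.G ∅ * w := by ring
      have e2 : 1000000 * w * (W.e (im φ X) * W.G (insert (φ x) (im φ X))) =
          1000000 * (W.e (im φ X) * W.G (insert (φ x) (im φ X))) * w := by ring
      rw [e1, e2]
      omega
    | gen L R =>
      obtain ⟨-, -, hc⟩ := ht
      have h1 : spC ((Row.gen L R, w) :: rows) = spL L w (spR R w (spC rows)) := rfl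
      have h2 : neC K ((Row.gen L R, w) :: rows) = neC K rows := rfl
      have h3 : peC ((Row.gen L R, w) :: rows) = peC rows := rfl
      rw [h1, h2, h3, sum_spL_neg (fun m => W.G ((bs m).image φ)),
        sum_spL_pos (fun m => W.G ((bs m).image φ)), sum_spR_neg (fun m => W.G ((bs m).image φ)),
        sum_spR_pos (fun m => W.G ((bs m).image φ))]
      have h6 := Nat.mul_le_mul_right w hc
      simp only [im_eq] at h6
      omega

end

/-- what is wanted from the numerical leaf -/
def NleafSound (nleaf : List ℕ → List ℕ → List ℕ → List ℕ → List ℕ → List ET → List ET →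
    List Sp → Bool) : Prop :=
  ∀ (c1 c2 c3 dn sat : List ℕ) (pe ne : List ET) (sp : List Sp) (e : Finset ℕ → ℕ),
    (∀ x < dn.length, dn.getD x 0 < 2 ^ x) →
    (∀ x < dn.length, ∀ y ∈ dnf dn x, dnf dn y ⊆ dnf dn x) →
    e ∅ = 1 →
    (∀ D ∈ Idl dn.length (dnf dn), D ≠ ∅ →
      e D = ∑ x ∈ D.filter (fun x => D.erase x ∈ Idl dn.length (dnf dn)), e (D.erase x)) →
    nleaf c1 c2 c3 dn sat pe ne sp = true →
    ∃ P N : Finset ℕ → ℕ,
      (∀ F ∈ Idl dn.length (dnf dn), P F = kpos dn.length (dnf dn) e pe sp F +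
        ∑ x ∈ F.filter (fun x => F.erase x ∈ Idl dn.length (dnf dn)), P (F.erase x)) ∧
      (∀ F ∈ Idl dn.length (dnf dn), N F = kneg dn.length (dnf dn) e ne sp F +
        ∑ x ∈ F.filter (fun x => F.erase x ∈ Idl dn.length (dnf dn)), N (F.erase x)) ∧
      ∀ F ∈ Idl dn.length (dnf dn), ¬ SatF dn.length sat F → P F ≤ N F

/-- length of a list -/
def lenR (c : List ℕ) : ℕ :=
  List.rec (motive := fun _ => ℕ) 0 (fun _ _ ih => Nat.succ ih) c

theorem lenR_eq (c : List ℕ) : lenR c = c.length := by
  induction c with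
  | nil => rfl
  | cons x c ih =>
    have h : lenR (x :: c) = Nat.succ (lenR c) := rfl
    rw [h, ih]
    rfl

/-- the mask of all known elements -/
def fullK (dn : List ℕ) : ℕ := Nat.pred (Nat.shiftLeft 1 (lenR dn))

theorem fullK_iff (dn : List ℕ) (i : ℕ) : i < dn.length ↔ (fullK dn).testBit i = true := by
  have h : fullK dn = 2 ^ dn.length - 1 := by
    unfold fullK
    rw [lenR_eq]
    show 1 <<< dn.length - 1 = _
    rw [Nat.one_shiftLeft]
  rw [h, Nat.testBit_two_pow_sub_one]
  simp

/-- the leaf from the numerical leaf -/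
noncomputable def mkLeaf (nleaf : List ℕ → List ℕ → List ℕ → List ℕ → List ℕ → List ET →
    List ET → List Sp → Bool) (c1 c2 c3 dn sat : List ℕ) (rows : List (Row × ℕ)) : Bool :=
  nleaf c1 c2 c3 dn sat (peC rows) (neC (fullK dn) rows) (spC rows)

/-- **Soundness of the leaf** from the soundness of the numerical leaf. -/
theorem mkLeaf_sound {nleaf : List ℕ → List ℕ → List ℕ → List ℕ → List ℕ → List ET → List ET →
    List Sp → Bool} (hn : NleafSound nleaf) : LeafSound (mkLeaf nleaf) := by
  intro V _ _ r W φ c1 c2 c3 dn sat rows hB hrows hleaf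
  have hL := lsem W hB
  obtain ⟨P, N, hP, hN, hle⟩ := hn c1 c2 c3 dn sat _ _ _ (fun F => W.e (F.image φ))
    (fun x hx => (hB.getD hx).1) (fun x hx y hy => hB.trans W.po hx hy) hL.e_empty hL.e_rec hleaf
  exact leaf_rows hB.notMem hL (peC rows) (neC (fullK dn) rows) (spC rows)
    (spC_mem W hB rows hrows) (rows_le W hB _ (fullK_iff dn) rows hrows) P N hP hN hle

end Pool.Agent.W3
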