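import Pool.Agent.W3.Base

/-!
# Correlation inequalities for the set of the elements before `w`

`Lw r w` is the lattice of the down-sets `D` without `w` such that `D + w` is a down-set;
`mu r w D = e D * H (D + w)` is the number of linear extensions in which the elements before `w`
form the set `D`.
-/

set_option autoImplicit false

namespace Pool.Agent.W3

open Finset Pool.BFT

variable {V : Type*} [Fintype V] [DecidableEq V] {r : V → V → Prop}

/-- the sets which can occur before `w` -/
def IsL (r : V → V → Prop) (w : V) (D : Finset V) : Prop := Dn r D ∧ w ∉ D ∧ Dn r (insert w D)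

open Classical in
/-- number of linear extensions in which the elements before `w` are `D` -/
noncomputable def mu (r : V → V → Prop) (w : V) (D : Finset V) : ℕ :=
  if IsL r w D then e r D * H r (insert w D) else 0

omit [Fintype V] in
theorem IsL.inter {w : V} {A B : Finset V} (hA : IsL r w A) (hB : IsL r w B) :
    IsL r w (A ∩ B) := by
  refine ⟨hA.1.inter hB.1, fun h => hA.2.1 (mem_inter.1 h).1, ?_⟩
  rw [insert_inter_distrib]
  exact hA.2.2.inter hB.2.2

omit [Fintype V] in
theorem IsL.union {w : V} {A B : Finset V} (hA : IsL r w A) (hB : IsL r w B) :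
    IsL r w (A ∪ B) := by
  refine ⟨hA.1.union hB.1, fun h => (mem_union.1 h).elim hA.2.1 hB.2.1, ?_⟩
  rw [insert_union_distrib]
  exact hA.2.2.union hB.2.2

theorem mu_of {w : V} {D : Finset V} (h : IsL r w D) : mu r w D = e r D * H r (insert w D) :=
  if_pos h

theorem mu_of_not {w : V} {D : Finset V} (h : ¬ IsL r w D) : mu r w D = 0 := if_neg h

/-- `mu r w` is log-supermodular -/
theorem mu_mul (w : V) (A B : Finset V) :
    mu r w A * mu r w B ≤ mu r w (A ∩ B) * mu r w (A ∪ B) := by
  by_cases hA : IsL r w A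
  · by_cases hB : IsL r w B
    · rw [mu_of hA, mu_of hB, mu_of (hA.inter hB), mu_of (hA.union hB)]
      exact mu_mul_le hA.1 hB.1 hA.2.2 hB.2.2
    · rw [mu_of_not hB, Nat.mul_zero]
      exact Nat.zero_le _
  · rw [mu_of_not hA, Nat.zero_mul]
    exact Nat.zero_le _

open Classical in
/-- the mass of a family -/
noncomputable def ms (r : V → V → Prop) (w : V) (P : Finset V → Prop) : ℕ :=
  ∑ D ∈ univ.filter P, mu r w D

open Classical in
theorem ms_eq (w : V) (P : Finset V → Prop) :
    ms r w P = ∑ D : Finset V, if P D then mu r w D else 0 := by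
  rw [ms, sum_filter]

open Classical in
/-- the mass of a family in terms of `e` and `H` -/
theorem ms_eq_sum (w : V) (P : Finset V → Prop) :
    ms r w P = ∑ D ∈ univ.filter (fun D => Dn r D ∧ P D ∧ w ∉ D ∧ Dn r (insert w D)),
      e r D * H r (insert w D) := by
  rw [ms, sum_filter, sum_filter]
  refine sum_congr rfl fun D _ => ?_
  by_cases hP : P D
  · rw [if_pos hP]
    by_cases hL : IsL r w D
    · rw [mu_of hL, if_pos ⟨hL.1, hP, hL.2.1, hL.2.2⟩]
    · rw [mu_of_not hL, if_neg fun h => hL ⟨h.1, h.2.2.1, h.2.2.2⟩]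
  · rw [if_neg hP, if_neg fun h => hP h.2.1]

theorem ms_mono (w : V) {P Q : Finset V → Prop} (h : ∀ D, IsL r w D → P D → Q D) :
    ms r w P ≤ ms r w Q := by
  classical
  rw [ms_eq, ms_eq]
  refine sum_le_sum fun D _ => ?_
  by_cases hP : P D
  · by_cases hL : IsL r w D
    · rw [if_pos hP, if_pos (h D hL hP)]
    · rw [mu_of_not hL, ite_self]
      exact Nat.zero_le _
  · rw [if_neg hP]
    exact Nat.zero_le _

/-- the four functions theorem for families -/
theorem ms_four (w : V) {P Q R S : Finset V → Prop}
    (h : ∀ A B, IsL r w A → IsL r w B → P A → Q B → R (A ∩ B) ∧ S (A ∪ B)) :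
    ms r w P * ms r w Q ≤ ms r w R * ms r w S := by
  classical
  simp only [ms_eq]
  refine four_functions_theorem_univ (α := Finset V) (β := ℕ) (fun D => if P D then mu r w D else 0)
    (fun D => if Q D then mu r w D else 0) (fun D => if R D then mu r w D else 0)
    (fun D => if S D then mu r w D else 0) (fun _ => Nat.zero_le _) (fun _ => Nat.zero_le _)
    (fun _ => Nat.zero_le _) (fun _ => Nat.zero_le _) fun A B => ?_
  by_cases hP : P A
  · by_cases hQ : Q B
    · by_cases hA : IsL r w A
      · by_cases hB : IsL r w B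
        · obtain ⟨h1, h2⟩ := h A B hA hB hP hQ
          rw [if_pos hP, if_pos hQ, inf_eq_inter, sup_eq_union, if_pos h1, if_pos h2]
          exact mu_mul w A B
        · rw [mu_of_not hB, ite_self, Nat.mul_zero]
          exact Nat.zero_le _
      · rw [mu_of_not hA, ite_self, Nat.zero_mul]
        exact Nat.zero_le _
    · rw [if_neg hQ, Nat.mul_zero]
      exact Nat.zero_le _
  · rw [if_neg hP, Nat.zero_mul]
    exact Nat.zero_le _

/-- **FKG**: an up-closed and a down-closed family are negatively correlated -/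
theorem fkg_up_down (w : V) {P Q : Finset V → Prop}
    (hP : ∀ A B, IsL r w A → IsL r w B → A ⊆ B → P A → P B)
    (hQ : ∀ A B, IsL r w A → IsL r w B → A ⊆ B → Q B → Q A) :
    ms r w (fun D => P D ∧ Q D) * ms r w (fun _ => True) ≤ ms r w P * ms r w Q := by
  rw [Nat.mul_comm (ms r w P)]
  refine ms_four w fun A B hA hB hPA _ => ⟨?_, ?_⟩
  · exact hQ _ _ (hA.inter hB) hA inter_subset_left hPA.2
  · exact hP _ _ hA (hA.union hB) subset_union_left hPA.1

/-- **FKG**: two up-closed families are positively correlated -/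
theorem fkg_up_up (w : V) {P Q : Finset V → Prop}
    (hP : ∀ A B, IsL r w A → IsL r w B → A ⊆ B → P A → P B)
    (hQ : ∀ A B, IsL r w A → IsL r w B → A ⊆ B → Q A → Q B) :
    ms r w P * ms r w Q ≤ ms r w (fun D => P D ∧ Q D) * ms r w (fun _ => True) := by
  rw [Nat.mul_comm (ms r w fun D => P D ∧ Q D)]
  refine ms_four w fun A B hA hB hPA hQB => ⟨trivial, ?_, ?_⟩
  · exact hP _ _ hA (hA.union hB) subset_union_left hPA
  · exact hQ _ _ hB (hA.union hB) subset_union_right hQB

/-- **FKG**: two down-closed families are positively correlated -/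
theorem fkg_down_down (w : V) {P Q : Finset V → Prop}
    (hP : ∀ A B, IsL r w A → IsL r w B → A ⊆ B → P B → P A)
    (hQ : ∀ A B, IsL r w A → IsL r w B → A ⊆ B → Q B → Q A) :
    ms r w P * ms r w Q ≤ ms r w (fun D => P D ∧ Q D) * ms r w (fun _ => True) := by
  refine ms_four w fun A B hA hB hPA hQB => ⟨⟨?_, ?_⟩, trivial⟩
  · exact hP _ _ (hA.inter hB) hA inter_subset_left hPA
  · exact hQ _ _ (hA.inter hB) hB inter_subset_right hQB

/-- the total mass -/
theorem ms_true {n : ℕ} {r : Fin n → Fin n → Prop}
    (hr : Pool.Agent.Helper1.Balance.IsPoset r) (w : Fin n) :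
    ms r w (fun _ => True) = H r ∅ := by
  classical
  rw [← sum_bf hr w, ms_eq_sum]
  refine sum_congr ?_ fun _ _ => rfl
  ext D
  rw [mem_Sx]
  simp only [mem_filter, mem_univ, true_and]
  tauto

end Pool.Agent.W3
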