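import Pool.Agent.W3.LeafRow

/-!
# The grid of the ideals for three covering chains
-/

set_option autoImplicit false

namespace Pool.Agent.W3

open Finset

/-- the solution of the recursion with source `κ` -/
noncomputable def Sg (k : ℕ) (dn : ℕ → Finset ℕ) (κ : Finset ℕ → ℕ) (F : Finset ℕ) : ℕ :=
  κ F + ∑ x : F, if F.erase x.1 ∈ Idl k dn then Sg k dn κ (F.erase x.1) else 0
termination_by F.card
decreasing_by exact card_lt_card (erase_ssubset x.2)

variable {k : ℕ} {dn : ℕ → Finset ℕ}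

theorem Sg_eq (κ : Finset ℕ → ℕ) (F : Finset ℕ) : Sg k dn κ F = κ F +
    ∑ x ∈ F.filter (fun x => F.erase x ∈ Idl k dn), Sg k dn κ (F.erase x) := by
  rw [Sg, sum_filter]
  congr 1
  exact sum_coe_sort F (fun x => if F.erase x ∈ Idl k dn then Sg k dn κ (F.erase x) else 0)

/-- `o` is the last element of the chain `A` -/
def Top (dn : ℕ → Finset ℕ) (A : Finset ℕ) : Option ℕ → Prop
  | none => A = ∅
  | some x => x ∈ A ∧ A.erase x ⊆ dn x

/-- the down-set of the top is inside `F` -/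
def TopIn (dn : ℕ → Finset ℕ) (F : Finset ℕ) : Option ℕ → Prop
  | none => True
  | some x => dn x ⊆ F

theorem Top.of_mem {A : Finset ℕ} {o : Option ℕ} (h : Top dn A o) {y : ℕ} (hy : y ∈ A) :
    ∃ x, o = some x ∧ x ∈ A ∧ (y = x ∨ y ∈ dn x) := by
  cases o with
  | none =>
    rw [Top] at h
    rw [h] at hy
    exact absurd hy (notMem_empty y)
  | some x =>
    obtain ⟨h1, h2⟩ := h
    refine ⟨x, rfl, h1, ?_⟩
    by_cases hyx : y = x
    · exact Or.inl hyx
    · exact Or.inr (h2 (mem_erase.2 ⟨hyx, hy⟩))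

section

variable {A1 A2 A3 F : Finset ℕ} {o1 o2 o3 : Option ℕ}

/-- three chains with their tops which cover `F` -/
structure Cov (k : ℕ) (dn : ℕ → Finset ℕ) (F A1 A2 A3 : Finset ℕ) (o1 o2 o3 : Option ℕ) :
    Prop where
  un : F = A1 ∪ A2 ∪ A3
  rg : F ⊆ range k
  t1 : Top dn A1 o1
  t2 : Top dn A2 o2
  t3 : Top dn A3 o3
  d12 : Disjoint A1 A2
  d13 : Disjoint A1 A3
  d23 : Disjoint A2 A3

theorem Cov.top (h : Cov k dn F A1 A2 A3 o1 o2 o3) {y : ℕ} (hy : y ∈ F) :
    ∃ x ∈ F, (o1 = some x ∨ o2 = some x ∨ o3 = some x) ∧ (y = x ∨ y ∈ dn x) := by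
  rw [h.un, mem_union, mem_union] at hy
  rcases hy with (hy | hy) | hy
  · obtain ⟨x, h1, h2, h3⟩ := h.t1.of_mem hy
    exact ⟨x, by rw [h.un]; exact mem_union_left _ (mem_union_left _ h2), Or.inl h1, h3⟩
  · obtain ⟨x, h1, h2, h3⟩ := h.t2.of_mem hy
    exact ⟨x, by rw [h.un]; exact mem_union_left _ (mem_union_right _ h2), Or.inr (Or.inl h1), h3⟩
  · obtain ⟨x, h1, h2, h3⟩ := h.t3.of_mem hy
    exact ⟨x, by rw [h.un]; exact mem_union_right _ h2, Or.inr (Or.inr h1), h3⟩

theorem Cov.m1 (h : Cov k dn F A1 A2 A3 o1 o2 o3) {x : ℕ} (hx : o1 = some x) :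
    x ∈ A1 ∧ x ∈ F := by
  have := h.t1
  rw [hx] at this
  exact ⟨this.1, by rw [h.un]; exact mem_union_left _ (mem_union_left _ this.1)⟩

theorem Cov.m2 (h : Cov k dn F A1 A2 A3 o1 o2 o3) {x : ℕ} (hx : o2 = some x) :
    x ∈ A2 ∧ x ∈ F := by
  have := h.t2
  rw [hx] at this
  exact ⟨this.1, by rw [h.un]; exact mem_union_left _ (mem_union_right _ this.1)⟩

theorem Cov.m3 (h : Cov k dn F A1 A2 A3 o1 o2 o3) {x : ℕ} (hx : o3 = some x) :
    x ∈ A3 ∧ x ∈ F := by
  have := h.t3
  rw [hx] at this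
  exact ⟨this.1, by rw [h.un]; exact mem_union_right _ this.1⟩

/-- the ideal test -/
theorem Cov.idl_iff (h : Cov k dn F A1 A2 A3 o1 o2 o3)
    (htr : ∀ x < k, ∀ y ∈ dn x, dn y ⊆ dn x) :
    F ∈ Idl k dn ↔ TopIn dn F o1 ∧ TopIn dn F o2 ∧ TopIn dn F o3 := by
  rw [mem_Idl]
  constructor
  · rintro ⟨-, h1⟩
    refine ⟨?_, ?_, ?_⟩
    · cases ho : o1 with
      | none => exact trivial
      | some x => exact h1 x (h.m1 ho).2
    · cases ho : o2 with
      | none => exact trivial
      | some x => exact h1 x (h.m2 ho).2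
    · cases ho : o3 with
      | none => exact trivial
      | some x => exact h1 x (h.m3 ho).2
  · rintro ⟨h1, h2, h3⟩
    refine ⟨h.rg, fun y hy => ?_⟩
    obtain ⟨x, hx, ho, hyx⟩ := h.top hy
    have hd : dn x ⊆ F := by
      rcases ho with ho | ho | ho
      · rw [ho] at h1; exact h1
      · rw [ho] at h2; exact h2
      · rw [ho] at h3; exact h3
    rcases hyx with rfl | hyx
    · exact hd
    · exact (htr x (mem_range.1 (h.rg hx)) y hyx).trans hd

/-- the contribution of one top -/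
def topSum (k : ℕ) (dn : ℕ → Finset ℕ) (F : Finset ℕ) (f : ℕ → ℕ) : Option ℕ → ℕ
  | none => 0
  | some x => if F.erase x ∈ Idl k dn then f x else 0

/-- the predecessors of an ideal in the grid -/
theorem Cov.sum (h : Cov k dn F A1 A2 A3 o1 o2 o3) (f : ℕ → ℕ) :
    ∑ x ∈ F.filter (fun x => F.erase x ∈ Idl k dn), f x =
      topSum k dn F f o3 + (topSum k dn F f o2 + topSum k dn F f o1) := by
  have key : ∀ (A : Finset ℕ) (o : Option ℕ), A ⊆ F → Top dn A o →
      ∑ x ∈ A.filter (fun x => F.erase x ∈ Idl k dn), f x = topSum k dn F f o := by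
    intro A o hA ht
    cases o with
    | none =>
      rw [Top] at ht
      rw [ht]
      rfl
    | some x =>
      obtain ⟨h1, h2⟩ := ht
      have h3 : ∀ y ∈ A, F.erase y ∈ Idl k dn → y = x := by
        intro y hy hI
        by_contra hne
        have h4 := h2 (mem_erase.2 ⟨hne, hy⟩)
        have h5 := (mem_Idl.1 hI).2 x (mem_erase.2 ⟨fun h => hne h.symm, hA h1⟩)
        exact notMem_erase y F (h5 h4)
      rw [topSum]
      split_ifs with hI
      · rw [sum_eq_single_of_mem x (mem_filter.2 ⟨h1, hI⟩)]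
        intro y hy hne
        exact absurd (h3 y (mem_filter.1 hy).1 (mem_filter.1 hy).2) hne
      · refine sum_eq_zero fun y hy => ?_
        obtain ⟨h6, h7⟩ := mem_filter.1 hy
        rw [h3 y h6 h7] at h7
        exact absurd h7 hI
  have h1 : A1 ⊆ F := by rw [h.un]; exact subset_union_left.trans subset_union_left
  have h2 : A2 ⊆ F := by rw [h.un]; exact subset_union_right.trans subset_union_left
  have h3 : A3 ⊆ F := by rw [h.un]; exact subset_union_right
  rw [← key A1 o1 h1 h.t1, ← key A2 o2 h2 h.t2, ← key A3 o3 h3 h.t3]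
  have h4 : F.filter (fun x => F.erase x ∈ Idl k dn) =
      A1.filter (fun x => F.erase x ∈ Idl k dn) ∪ A2.filter (fun x => F.erase x ∈ Idl k dn) ∪
        A3.filter (fun x => F.erase x ∈ Idl k dn) := by
    rw [← filter_union, ← filter_union, ← h.un]
  rw [h4, sum_union, sum_union]
  · ring
  · exact disjoint_filter_filter h.d12
  · rw [← filter_union]
    exact disjoint_filter_filter (disjoint_union_left.2 ⟨h.d13, h.d23⟩)

end

/-- the elements of the list are a chain -/
def ChainL (dn : ℕ → Finset ℕ) : List ℕ → Prop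
  | [] => True
  | x :: c => (∀ y ∈ c, x ∈ dn y) ∧ ChainL dn c

/-- an ideal meets a chain in a prefix -/
theorem prefix_of_ideal {F : Finset ℕ} (hF : F ∈ Idl k dn) {c : List ℕ} (hc : ChainL dn c) :
    ∃ i ≤ c.length, ∀ y, y ∈ F ∧ y ∈ c ↔ y ∈ c.take i := by
  induction c with
  | nil => exact ⟨0, le_rfl, fun y => by simp⟩
  | cons x c ih =>
    obtain ⟨h1, h2⟩ := hc
    by_cases hx : x ∈ F
    · obtain ⟨i, hi, h3⟩ := ih h2
      refine ⟨i + 1, by simpa using hi, fun y => ?_⟩
      rw [List.take_succ_cons, List.mem_cons, List.mem_cons, ← h3 y]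
      constructor
      · rintro ⟨h4, rfl | h5⟩
        · exact Or.inl rfl
        · exact Or.inr ⟨h4, h5⟩
      · rintro (rfl | ⟨h4, h5⟩)
        · exact ⟨hx, Or.inl rfl⟩
        · exact ⟨h4, Or.inr h5⟩
    · refine ⟨0, Nat.zero_le _, fun y => ?_⟩
      rw [List.take_zero]
      constructor
      · rintro ⟨h4, h5⟩
        rcases List.mem_cons.1 h5 with rfl | h5
        · exact absurd h4 hx
        · exact absurd ((mem_Idl.1 hF).2 y h4 (h1 y h5)) hx
      · intro h4
        exact absurd h4 (List.not_mem_nil)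

end Pool.Agent.W3
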