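import Pool.Agent.W3.Grid

/-!
# Preparations for the numerical leaf: masks, chains
-/

set_option autoImplicit false

namespace Pool.Agent.W3

open Finset

theorem pre_nbeq {a b : ℕ} : Nat.beq a b = true ↔ a = b :=
  ⟨Nat.eq_of_beq_eq_true, fun h => by rw [h]; exact Nat.beq_refl b⟩

theorem pre_cond {a b : Bool} : cond a b false = true ↔ a = true ∧ b = true := by
  cases a <;> simp

theorem bs_inj {a b : ℕ} (h : bs a = bs b) : a = b := by
  apply Nat.eq_of_testBit_eq
  intro i
  have h1 : i ∈ bs a ↔ i ∈ bs b := by rw [h]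
  rw [mem_bs, mem_bs] at h1
  cases ha : a.testBit i with
  | true => exact (h1.1 ha).symm
  | false =>
    cases hb : b.testBit i with
    | true => rw [h1.2 hb] at ha; exact ha.symm
    | false => rfl

theorem bs_lor (a b : ℕ) : bs (Nat.lor a b) = bs a ∪ bs b := by
  ext i
  rw [mem_union, mem_bs, mem_bs, mem_bs]
  show (a ||| b).testBit i = true ↔ _
  rw [Nat.testBit_lor, Bool.or_eq_true]

theorem bs_shl (x : ℕ) : bs (Nat.shiftLeft 1 x) = {x} := by
  ext i
  rw [mem_singleton, mem_bs]
  show (1 <<< x).testBit i = true ↔ _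
  rw [Nat.one_shiftLeft, Nat.testBit_two_pow]
  simp only [decide_eq_true_eq]
  exact eq_comm

theorem bs_full (k : ℕ) : bs (Nat.pred (Nat.shiftLeft 1 k)) = range k := by
  ext i
  rw [mem_range, mem_bs]
  show (1 <<< k - 1).testBit i = true ↔ _
  rw [Nat.one_shiftLeft, Nat.testBit_two_pow_sub_one]
  simp

theorem lt_of_bs {m k : ℕ} (h : bs m ⊆ range k) : m < 2 ^ k := by
  by_contra hk
  obtain ⟨i, hi, hb⟩ := Nat.exists_ge_and_testBit_of_ge_two_pow (not_lt.mp hk)
  have := mem_range.1 (h (mem_bs.2 hb))
  omega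

namespace Leaf

theorem tb_iff {m x : ℕ} : tb m x = true ↔ x ∈ bs m := by
  rw [mem_bs]
  unfold tb Nat.testBit
  have h : (m >>> x) &&& 1 = 1 &&& (m >>> x) := Nat.land_comm _ _
  show Nat.beq ((m >>> x) &&& 1) 1 = true ↔ (1 &&& (m >>> x) != 0) = true
  rw [h, Nat.one_and_eq_mod_two]
  rcases Nat.mod_two_eq_zero_or_one (m >>> x) with h0 | h0 <;> rw [h0] <;> decide

theorem sub_iff {a b : ℕ} : sub a b = true ↔ bs a ⊆ bs b := by
  unfold sub
  rw [pre_nbeq]
  constructor
  · intro h
    rw [← h, bs_lor]
    exact subset_union_right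
  · intro h
    apply bs_inj
    rw [bs_lor]
    exact union_eq_left.2 h

theorem inSat_iff {sat : List ℕ} {m : ℕ} : inSat sat m = true ↔ ∃ s ∈ sat, bs m ⊆ bs s := by
  induction sat with
  | nil =>
    constructor
    · intro h
      exact absurd h (by simp [inSat])
    · rintro ⟨s, hs, -⟩
      exact absurd hs (List.not_mem_nil)
  | cons s sat ih =>
    have h : inSat (s :: sat) m = cond (sub m s) true (inSat sat m) := rfl
    rw [h]
    cases hs : sub m s with
    | true =>
      simp only [cond_true, true_iff]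
      exact ⟨s, List.mem_cons_self .., sub_iff.1 hs⟩
    | false =>
      rw [cond_false, ih]
      constructor
      · rintro ⟨t, ht, h1⟩
        exact ⟨t, List.mem_cons_of_mem _ ht, h1⟩
      · rintro ⟨t, ht, h1⟩
        rcases List.mem_cons.1 ht with rfl | ht
        · rw [sub_iff.2 h1] at hs
          exact absurd hs (by decide)
        · exact ⟨t, ht, h1⟩

theorem gt_eq (dn : List ℕ) (x : ℕ) : gt dn x = dn.getD x 0 := by
  induction dn generalizing x with
  | nil => rfl
  | cons d dn ih =>
    cases x with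
    | zero => rfl
    | succ x => exact ih x

theorem len_eq (c : List ℕ) : len c = c.length := by
  induction c with
  | nil => rfl
  | cons x c ih =>
    have h : len (x :: c) = len c + 1 := rfl
    rw [h, ih]
    rfl

theorem bs_full' (c : List ℕ) : bs (full c) = c.toFinset := by
  induction c with
  | nil => exact bs_zero
  | cons x c ih =>
    have h : full (x :: c) = Nat.lor (Nat.shiftLeft 1 x) (full c) := rfl
    rw [h, bs_lor, bs_shl, ih, List.toFinset_cons]
    rfl

theorem isChain_chainL {dn : List ℕ} (htr : ∀ x < dn.length, ∀ y ∈ dnf dn x, dnf dn y ⊆ dnf dn x)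
    {c : List ℕ} (hc : ∀ x ∈ c, x < dn.length) (h : isChain dn c = true) :
    ChainL (dnf dn) c := by
  induction c with
  | nil => exact trivial
  | cons x c ih =>
    cases c with
    | nil => exact ⟨fun y hy => absurd hy (List.not_mem_nil), trivial⟩
    | cons y c =>
      have h1 : isChain dn (x :: y :: c) = cond (tb (gt dn y) x) (isChain dn (y :: c)) false := rfl
      rw [h1, pre_cond] at h
      have ih' := ih (fun z hz => hc z (List.mem_cons_of_mem _ hz)) h.2
      have hxy : x ∈ dnf dn y := by
        have := tb_iff.1 h.1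
        rwa [gt_eq] at this
      refine ⟨fun z hz => ?_, ih'⟩
      rcases List.mem_cons.1 hz with rfl | hz
      · exact hxy
      · exact htr z (hc z (List.mem_cons_of_mem _ (List.mem_cons_of_mem _ hz))) y (ih'.1 z hz) hxy

end Leaf

/-- the three lists partition `range k` into chains -/
structure Part3 (k : ℕ) (dn : ℕ → Finset ℕ) (c1 c2 c3 : List ℕ) : Prop where
  ch1 : ChainL dn c1
  ch2 : ChainL dn c2
  ch3 : ChainL dn c3
  nd : (c1 ++ (c2 ++ c3)).Nodup
  cov : ∀ x, x < k ↔ x ∈ c1 ++ (c2 ++ c3)

/-- the top of a prefix -/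
def topL (u : List ℕ) : ℕ → Option ℕ
  | 0 => none
  | i + 1 => u[i]?

theorem topL_top {dn : ℕ → Finset ℕ} {u : List ℕ} (hc : ChainL dn u) (hn : u.Nodup) {i : ℕ}
    (hi : i ≤ u.length) : Top dn (u.take i).toFinset (topL u i) := by
  induction u generalizing i with
  | nil =>
    have : i = 0 := by simpa using hi
    subst this
    rfl
  | cons x u ih =>
    cases i with
    | zero => rfl
    | succ i =>
      have hi' : i ≤ u.length := by simpa using hi
      have hn' := List.nodup_cons.1 hn
      have ih' := ih hc.2 hn'.2 hi'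
      rw [List.take_succ_cons, List.toFinset_cons]
      cases i with
      | zero =>
        refine ⟨mem_insert_self _ _, ?_⟩
        intro y hy
        have := mem_erase.1 hy
        rcases mem_insert.1 this.2 with h | h
        · exact absurd h this.1
        · simp at h
      | succ i =>
        have h1 : topL (x :: u) (i + 1 + 1) = topL u (i + 1) := rfl
        rw [h1]
        cases ho : topL u (i + 1) with
        | none =>
          exfalso
          have h2 : u[i]? = none := ho
          rw [List.getElem?_eq_none_iff] at h2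
          omega
        | some z =>
          rw [ho] at ih'
          obtain ⟨h2, h3⟩ := ih'
          refine ⟨mem_insert_of_mem h2, ?_⟩
          intro y hy
          obtain ⟨h4, h5⟩ := mem_erase.1 hy
          rcases mem_insert.1 h5 with rfl | h5
          · exact hc.1 z (List.mem_of_mem_take (List.mem_toFinset.1 h2))
          · exact h3 (mem_erase.2 ⟨h4, h5⟩)

section

variable {k : ℕ} {dn : ℕ → Finset ℕ} {c1 c2 c3 : List ℕ}

theorem Part3.covAt (h : Part3 k dn c1 c2 c3) {i j l : ℕ} (hi : i ≤ c1.length)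
    (hj : j ≤ c2.length) (hl : l ≤ c3.length) :
    Cov k dn ((c1.take i).toFinset ∪ (c2.take j).toFinset ∪ (c3.take l).toFinset)
      (c1.take i).toFinset (c2.take j).toFinset (c3.take l).toFinset
      (topL c1 i) (topL c2 j) (topL c3 l) := by
  obtain ⟨n1, n23, d1⟩ := List.nodup_append.1 h.nd
  obtain ⟨n2, n3, d23⟩ := List.nodup_append.1 n23
  refine ⟨rfl, ?_, topL_top h.ch1 n1 hi, topL_top h.ch2 n2 hj, topL_top h.ch3 n3 hl, ?_, ?_, ?_⟩
  · intro x hx
    rw [mem_range, h.cov]
    rw [mem_union, mem_union, List.mem_toFinset, List.mem_toFinset, List.mem_toFinset] at hx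
    rw [List.mem_append, List.mem_append]
    rcases hx with (hx | hx) | hx
    · exact Or.inl (List.mem_of_mem_take hx)
    · exact Or.inr (Or.inl (List.mem_of_mem_take hx))
    · exact Or.inr (Or.inr (List.mem_of_mem_take hx))
  · rw [disjoint_left]
    intro x hx hx'
    rw [List.mem_toFinset] at hx hx'
    exact d1 x (List.mem_of_mem_take hx) x
      (List.mem_append.2 (Or.inl (List.mem_of_mem_take hx'))) rfl
  · rw [disjoint_left]
    intro x hx hx'
    rw [List.mem_toFinset] at hx hx'
    exact d1 x (List.mem_of_mem_take hx) x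
      (List.mem_append.2 (Or.inr (List.mem_of_mem_take hx'))) rfl
  · rw [disjoint_left]
    intro x hx hx'
    rw [List.mem_toFinset] at hx hx'
    exact d23 x (List.mem_of_mem_take hx) x (List.mem_of_mem_take hx') rfl

theorem Part3.exists_at (h : Part3 k dn c1 c2 c3) {F : Finset ℕ} (hF : F ∈ Idl k dn) :
    ∃ i ≤ c1.length, ∃ j ≤ c2.length, ∃ l ≤ c3.length,
      F = (c1.take i).toFinset ∪ (c2.take j).toFinset ∪ (c3.take l).toFinset := by
  obtain ⟨i, hi, h1⟩ := prefix_of_ideal hF h.ch1
  obtain ⟨j, hj, h2⟩ := prefix_of_ideal hF h.ch2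
  obtain ⟨l, hl, h3⟩ := prefix_of_ideal hF h.ch3
  refine ⟨i, hi, j, hj, l, hl, ?_⟩
  ext x
  rw [mem_union, mem_union, List.mem_toFinset, List.mem_toFinset, List.mem_toFinset, ← h1, ← h2,
    ← h3]
  constructor
  · intro hx
    have h4 := (h.cov x).1 (mem_range.1 ((mem_Idl.1 hF).1 hx))
    rw [List.mem_append, List.mem_append] at h4
    rcases h4 with h4 | h4 | h4
    · exact Or.inl (Or.inl ⟨hx, h4⟩)
    · exact Or.inl (Or.inr ⟨hx, h4⟩)
    · exact Or.inr ⟨hx, h4⟩
  · rintro ((⟨hx, -⟩ | ⟨hx, -⟩) | ⟨hx, -⟩) <;> exact hx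

end

namespace Leaf

/-- the tests of the chains -/
theorem part3_of {dn c1 c2 c3 : List ℕ}
    (htr : ∀ x < dn.length, ∀ y ∈ dnf dn x, dnf dn y ⊆ dnf dn x)
    (h1 : isChain dn c1 = true) (h2 : isChain dn c2 = true) (h3 : isChain dn c3 = true)
    (hl : Nat.beq (Nat.add (len c1) (Nat.add (len c2) (len c3))) (len dn) = true)
    (hf : Nat.beq (Nat.succ (Nat.lor (full c1) (Nat.lor (full c2) (full c3))))
      (Nat.shiftLeft 1 (len dn)) = true) :
    Part3 dn.length (dnf dn) c1 c2 c3 := by
  rw [pre_nbeq] at hl hf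
  rw [len_eq, len_eq, len_eq, len_eq] at hl
  rw [len_eq] at hf
  have hl' : c1.length + (c2.length + c3.length) = dn.length := hl
  have hfull : (c1 ++ (c2 ++ c3)).toFinset = range dn.length := by
    have h4 : Nat.lor (full c1) (Nat.lor (full c2) (full c3)) =
        Nat.pred (Nat.shiftLeft 1 dn.length) := by rw [← hf]; rfl
    rw [← bs_full, ← h4, bs_lor, bs_lor, bs_full', bs_full', bs_full', List.toFinset_append,
      List.toFinset_append]
  have hcov : ∀ x, x < dn.length ↔ x ∈ c1 ++ (c2 ++ c3) := by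
    intro x
    rw [← List.mem_toFinset, hfull, mem_range]
  have hnd : (c1 ++ (c2 ++ c3)).Nodup := by
    rw [← Multiset.coe_nodup, ← Multiset.toFinset_card_eq_card_iff_nodup]
    have h5 : (((c1 ++ (c2 ++ c3) : List ℕ) : Multiset ℕ)).toFinset =
        (c1 ++ (c2 ++ c3)).toFinset := rfl
    rw [h5, hfull, card_range, Multiset.coe_card, List.length_append, List.length_append, hl']
  refine ⟨isChain_chainL htr (fun x hx => (hcov x).2 (List.mem_append.2 (Or.inl hx))) h1,
    isChain_chainL htr (fun x hx => (hcov x).2 (List.mem_append.2 (Or.inr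
      (List.mem_append.2 (Or.inl hx))))) h2,
    isChain_chainL htr (fun x hx => (hcov x).2 (List.mem_append.2 (Or.inr
      (List.mem_append.2 (Or.inr hx))))) h3, hnd, hcov⟩

end Leaf

end Pool.Agent.W3
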