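import Pool.Agent.W3.Bridge

/-!
# The majority rows over sets of numbers
-/

set_option autoImplicit false

namespace Pool.Agent.W3

open Finset

variable {V : Type} [Fintype V] [DecidableEq V] {r : V → V → Prop} {φ : ℕ → V} {dn sat : List ℕ}

theorem image_inj (hB : Base r φ dn sat) {D D' : Finset ℕ} (hD : D ⊆ range dn.length)
    (hD' : D' ⊆ range dn.length) (h : D.image φ = D'.image φ) : D = D' := by
  ext i
  constructor
  · intro hi
    have hil := mem_range.1 (hD hi)
    rw [← hB.mem_image hD' hil, ← h]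
    exact mem_image_of_mem φ hi
  · intro hi
    have hil := mem_range.1 (hD' hi)
    rw [← hB.mem_image hD hil, h]
    exact mem_image_of_mem φ hi

/-- **The majority row.** -/
theorem majOk (W : World r) (hB : Base r φ dn sat) {a b : ℕ} (ha : a < dn.length)
    (hb : b < dn.length) (hab : W.pos (φ a) < W.pos (φ b)) :
    MajOk dn.length (dnf dn) (fun F => W.G (F.image φ)) (fun F => W.e (F.image φ)) a b := by
  classical
  unfold MajOk
  dsimp only
  rw [image_empty]
  refine le_trans (Nat.mul_le_mul_left _ ?_) (W.maj (φ a) (φ b) hab)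
  have h1 : ∑ D ∈ (Idl dn.length (dnf dn)).filter (fun D => a ∉ D ∧ b ∉ D ∧
      insert b D ∈ Idl dn.length (dnf dn)), W.e (D.image φ) * W.G ((insert b D).image φ) =
      ∑ D ∈ ((Idl dn.length (dnf dn)).filter (fun D => a ∉ D ∧ b ∉ D ∧
      insert b D ∈ Idl dn.length (dnf dn))).image (fun D => D.image φ),
        W.e D * W.G (insert (φ b) D) := by
    rw [sum_image]
    · refine sum_congr rfl fun D _ => ?_
      rw [image_insert]
    · intro D hD D' hD' h
      exact image_inj hB (mem_Idl.1 (mem_filter.1 (mem_coe.1 hD)).1).1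
        (mem_Idl.1 (mem_filter.1 (mem_coe.1 hD')).1).1 h
  rw [h1]
  refine sum_le_sum_of_subset_of_nonneg ?_ fun _ _ _ => Nat.zero_le _
  intro X hX
  obtain ⟨D, hD, rfl⟩ := Finset.mem_image.1 hX
  obtain ⟨h2, h3, h4, h5⟩ := mem_filter.1 hD
  have h6 := (mem_Idl.1 h2).1
  refine mem_filter.2 ⟨mem_univ _, (hB.dn_iff h6).2 h2, ?_, ?_, ?_⟩
  · rwa [hB.mem_image h6 ha]
  · rwa [hB.mem_image h6 hb]
  · rw [← image_insert, hB.dn_iff (insert_subset (mem_range.2 hb) h6)]
    exact h5

/-- masks of down-sets -/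
theorem bs_mem_Idl (hB : Base r φ dn sat) {m : ℕ} (hm : m < 2 ^ dn.length)
    (h : Dn r (im φ m)) : bs m ∈ Idl dn.length (dnf dn) :=
  (hB.dn_iff (bs_subset_range hm)).1 h

end Pool.Agent.W3
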