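import Pool.Agent.W3.State

/-!
# The search tree and its checker
-/

set_option autoImplicit false

namespace Pool.Agent.W3

/-- inclusion of masks -/
def subm (a b : ℕ) : Bool := Nat.beq (Nat.land a b) a

/-- the bit `i` of the mask `m` -/
def bit (m i : ℕ) : Bool := Nat.beq (Nat.land (Nat.shiftRight m i) 1) 1

/-- the element number `i` of a list of numbers -/
def nth : List ℕ → ℕ → ℕ
  | [], _ => 0
  | x :: _, 0 => x
  | _ :: l, i + 1 => nth l i

/-- all elements of the mask `m` have their down-set inside `m`; `i` is the number of the head of
the list -/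
def idlA : List ℕ → ℕ → ℕ → Bool
  | [], _, _ => true
  | d :: l, i, m => cond (bit m i) (cond (subm d m) (idlA l (i + 1) m) false) (idlA l (i + 1) m)

/-- `m` is a down-set of the known poset -/
def idl (dn : List ℕ) (m : ℕ) : Bool :=
  cond (Nat.beq (Nat.shiftRight m dn.length) 0) (idlA dn 0 m) false

/-- `D` is inside one of the saturated down-sets -/
def isSat : List ℕ → ℕ → Bool
  | [], _ => false
  | s :: l, D => cond (subm D s) true (isSat l D)

/-- in the list `sp` the number `a` occurs, and `b` does not occur before or at `a` -/
def spb : List ℕ → ℕ → ℕ → Bool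
  | [], _, _ => false
  | x :: l, a, b => cond (Nat.beq x b) false (cond (Nat.beq x a) true (spb l a b))

/-- the pair `(a, b)` occurs -/
def mjb : List (ℕ × ℕ) → ℕ → ℕ → Bool
  | [], _, _ => false
  | p :: l, a, b => cond (cond (Nat.beq p.1 a) (Nat.beq p.2 b) false) true (mjb l a b)

/-- `a` is before `b` in the majority order, by what the state says: the pair is in the list, by
the spine, `a` is below `b`, or equal down-sets and `a` has been found before `b` -/
def ltq (s : St) (a b : ℕ) : Bool :=
  cond (cond (Nat.blt a s.dn.length) (Nat.blt b s.dn.length) false)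
    (cond (mjb s.mj a b) true (cond (spb s.sp a b) true (cond (bit (nth s.dn b) a) true
      (cond (Nat.blt a b) (Nat.beq (nth s.dn a) (nth s.dn b)) false)))) false

/-- justifications of rows -/
inductive J where
  /-- `a` before `b` -/
  | mj (a b : ℕ)
  /-- the row number `i` of the state -/
  | rw (i : ℕ)
  /-- the hazard fact number `i`, used at the down-set `E` -/
  | hz (i E : ℕ)

/-- the row of a hazard fact at `E` -/
def hzRow (s : St) (h : Hz) (E : ℕ) : Option Row :=
  cond (cond (idl s.dn E) (cond (bit E h.w) false (subm (nth s.dn h.w) E)) false)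
    (cond h.up
      (cond (subm h.E E) (some (.gen [(E, h.p)] [(Nat.lor E (Nat.shiftLeft 1 h.w), h.q)])) none)
      (cond (subm E h.E) (some (.gen [(Nat.lor E (Nat.shiftLeft 1 h.w), h.q)] [(E, h.p)])) none))
    none

/-- the row of a justification -/
def jrow (s : St) : J → Option Row
  | .mj a b => cond (ltq s a b) (some (.maj a b)) none
  | .rw i => s.rw[i]?
  | .hz i E => match s.hz[i]? with
    | none => none
    | some h => hzRow s h E

/-- the rows of a list of justifications with multipliers -/
def jrows (s : St) : List (J × ℕ) → Option (List (Row × ℕ))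
  | [] => some []
  | j :: l => match jrow s j.1, jrows s l with
    | some ρ, some l' => some ((ρ, j.2) :: l')
    | _, _ => none

/-- the known elements outside `X` which can be added to `X`, by number; `i` is the number of the
head of the list -/
def addA : List ℕ → ℕ → ℕ → List ℕ
  | [], _, _ => []
  | d :: l, i, X => cond (cond (bit X i) false (subm d X)) (i :: addA l (i + 1) X)
      (addA l (i + 1) X)

/-- the mask of a list of numbers -/
def maskL : List ℕ → ℕ
  | [] => 0
  | i :: l => Nat.lor (Nat.shiftLeft 1 i) (maskL l)

/-- the union of the down-sets of the elements of `X` -/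
def unionA : List ℕ → ℕ → ℕ → ℕ
  | [], _, _ => 0
  | d :: l, i, X => cond (bit X i) (Nat.lor d (unionA l (i + 1) X)) (unionA l (i + 1) X)

/-- the number of bits of `m` at the places `i, ..., i + n - 1` -/
def popA : ℕ → ℕ → ℕ → ℕ
  | 0, _, _ => 0
  | n + 1, i, m => cond (bit m i) (popA n (i + 1) m + 1) (popA n (i + 1) m)

/-- number of maximal elements of the down-set `X` which are not in the mask `d` -/
def nbq (dn : List ℕ) (X d : ℕ) : ℕ :=
  popA dn.length 0 (Nat.xor X (Nat.land X (Nat.lor d (unionA dn 0 X))))

/-- search trees -/
inductive Tree where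
  /-- linear certificate: three chains which cover the known elements, rows with multipliers -/
  | lp (c1 c2 c3 : List ℕ) (l : List (J × ℕ))
  /-- is there an unknown element with strict down-set exactly `U`? all smaller down-sets are
  saturated -/
  | ask (U : ℕ) (yes no : Tree)
  /-- the down-set `D` is saturated since `i, j, l` is an antichain outside `D` -/
  | mark (D i j l : ℕ) (t : Tree)
  /-- the next element of the spine is one of the (at most three) elements which can be added -/
  | spn (t1 t2 t3 : Tree)
  /-- `a` before `b` or `b` before `a` in the majority order -/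
  | maj (a b : ℕ) (t1 t2 : Tree)
  /-- transitivity -/
  | tr (a b c : ℕ) (t : Tree)
  /-- contradiction: `a` before `b` and `b` before `a` -/
  | con (a b : ℕ)
  /-- hazard of `w` at `E` at least / at most `p / q` -/
  | haz (w E p q : ℕ) (t1 t2 : Tree)
  /-- cut row for `w` -/
  | cut (w : ℕ) (l : List (ℕ × ℕ)) (t : Tree)
  /-- the poset is a linear sum: all elements outside `X` are above all elements of `X` -/
  | dec (X : ℕ)
  /-- the whole poset is known and is the union of two chains `A` and the rest -/
  | cmp (A : ℕ)
  /-- the state number `i` of the list of bad states is contained in the state -/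
  | ref (i : ℕ)
  /-- no use -/
  | fin

/-- all proper maximal down-sets inside the down-set `U` are inside saturated ones; `m` is the
union of the down-sets of the elements of `U` -/
def askA (sat : List ℕ) : List ℕ → ℕ → ℕ → ℕ → Bool
  | [], _, _, _ => true
  | _ :: l, i, U, m => cond (cond (bit U i) (!(bit m i)) false)
      (cond (isSat sat (Nat.xor U (Nat.shiftLeft 1 i))) (askA sat l (i + 1) U m) false)
      (askA sat l (i + 1) U m)

/-- the test of the node `ask` -/
def askq (s : St) (U : ℕ) : Bool :=
  cond (idl s.dn U) (askA s.sat s.dn 0 U (unionA s.dn 0 U)) false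

/-- the test of the node `mark`, `i < j < l` -/
def markq (s : St) (D i j l : ℕ) : Bool :=
  cond (idl s.dn D) (cond (cond (Nat.blt i j) (cond (Nat.blt j l) (Nat.blt l s.dn.length) false)
    false) (cond (cond (bit D i) true (cond (bit D j) true (bit D l))) false
      (!(cond (bit (nth s.dn j) i) true
        (cond (bit (nth s.dn l) i) true (bit (nth s.dn l) j))))) false) false

/-- `m` is a chain: every element has all smaller numbers of `m` in its down-set -/
def chainA : List ℕ → ℕ → ℕ → Bool
  | [], _, _ => true
  | d :: l, i, m => cond (bit m i)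
      (cond (subm (Nat.mod m (Nat.shiftLeft 1 i)) d) (chainA l (i + 1) m) false)
      (chainA l (i + 1) m)

/-- all known elements outside `X` which can be added to `X` have down-set `X` -/
def decA : List ℕ → ℕ → ℕ → Bool
  | [], _, _ => true
  | d :: l, i, X => cond (cond (bit X i) false (subm d X))
      (cond (Nat.beq d X) (decA l (i + 1) X) false) (decA l (i + 1) X)

/-- the test of the node `dec` -/
def decq (s : St) (X : ℕ) : Bool :=
  cond (idl s.dn X) (cond (isSat s.sat X)
    (cond (Nat.beq X 0)
      (match addA s.dn 0 0 with
        | [_] => true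
        | _ => false)
      (cond (Nat.beq X (Nat.shiftLeft 1 s.dn.length - 1)) false (decA s.dn 0 X))) false) false

/-- the test of the node `cmp` -/
def cmpq (s : St) (A : ℕ) : Bool :=
  let K := Nat.shiftLeft 1 s.dn.length - 1
  cond (isSat s.sat K) (cond (subm A K) (cond (chainA s.dn 0 A)
    (chainA s.dn 0 (Nat.xor K A)) false) false) false

/-- equality of lists of numbers -/
def eqL : List ℕ → List ℕ → Bool
  | [], [] => true
  | x :: l, y :: m => cond (Nat.beq x y) (eqL l m) false
  | _, _ => false

/-- equality of lists of pairs -/
def eqLL : List (ℕ × ℕ) → List (ℕ × ℕ) → Bool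
  | [], [] => true
  | x :: l, y :: m => cond (Nat.beq x.1 y.1) (cond (Nat.beq x.2 y.2) (eqLL l m) false) false
  | _, _ => false

/-- equality of hazard facts -/
def eqH (a b : Hz) : Bool :=
  cond (!(xor a.up b.up)) (cond (Nat.beq a.w b.w) (cond (Nat.beq a.E b.E)
    (cond (Nat.beq a.p b.p) (Nat.beq a.q b.q) false) false) false) false

/-- equality of rows -/
def eqR : Row → Row → Bool
  | .maj a b, .maj a' b' => cond (Nat.beq a a') (Nat.beq b b') false
  | .spn a b c, .spn a' b' c' =>
      cond (Nat.beq a a') (cond (Nat.beq b b') (Nat.beq c c') false) false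
  | .gen L R, .gen L' R' => cond (eqLL L L') (eqLL R R') false
  | _, _ => false

/-- the state `a` says at most what `s` says -/
def contq (a s : St) : Bool :=
  cond (eqL a.dn s.dn)
  (cond (eqL a.sp s.sp)
  (cond (a.sat.all fun D => isSat s.sat D)
  (cond (a.mj.all fun p => ltq s p.1 p.2)
  (cond (a.hz.all fun h => s.hz.any (eqH h))
  (cond (a.rw.all fun ρ => s.rw.any (eqR ρ)) true false) false) false) false) false) false

/-- the state after `x` has become the next element of the spine; `na` is the number of the other
elements which could be added -/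
def spnSt (s : St) (x na : ℕ) : St :=
  { s with
    sp := s.sp ++ [x]
    rw := s.rw ++ [.spn (maskL s.sp) x (cst (nbq s.dn (maskL s.sp) (nth s.dn x)) na)] }

/-- the checker; `cutRow` computes the row of a cut, `Γ` is a list of bad states -/
def run (leaf : List ℕ → List ℕ → List ℕ → List ℕ → List ℕ → List (Row × ℕ) → Bool)
    (cutRow : St → ℕ → List (ℕ × ℕ) → Option Row) (Γ : List St) : Tree → St → Bool
  | .lp c1 c2 c3 l, s => match jrows s l with
    | none => false
    | some l' => leaf c1 c2 c3 s.dn s.sat l'
  | .ask U y n, s => cond (askq s U)
      (cond (run leaf cutRow Γ y { s with dn := s.dn ++ [U] })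
        (run leaf cutRow Γ n { s with sat := U :: s.sat }) false) false
  | .mark D i j l t, s => cond (markq s D i j l)
      (run leaf cutRow Γ t { s with sat := D :: s.sat }) false
  | .spn t1 t2 t3, s =>
      cond (isSat s.sat (maskL s.sp))
        (match addA s.dn 0 (maskL s.sp) with
         | [x] => run leaf cutRow Γ t1 (spnSt s x 0)
         | [x, y] => cond (run leaf cutRow Γ t1 (spnSt s x 1))
             (run leaf cutRow Γ t2 (spnSt s y 1)) false
         | [x, y, z] => cond (run leaf cutRow Γ t1 (spnSt s x 2))
             (cond (run leaf cutRow Γ t2 (spnSt s y 2))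
               (run leaf cutRow Γ t3 (spnSt s z 2)) false) false
         | _ => false) false
  | .maj a b t1 t2, s =>
      cond (cond (Nat.blt a s.dn.length) (cond (Nat.blt b s.dn.length) (!(Nat.beq a b)) false) false)
        (cond (run leaf cutRow Γ t1 { s with mj := (a, b) :: s.mj })
          (run leaf cutRow Γ t2 { s with mj := (b, a) :: s.mj }) false) false
  | .tr a b c t, s => cond (ltq s a b)
      (cond (ltq s b c) (run leaf cutRow Γ t { s with mj := (a, c) :: s.mj }) false) false
  | .con a b, s => cond (ltq s a b) (ltq s b a) false
  | .haz w E p q t1 t2, s =>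
      cond (cond (Nat.blt w s.dn.length) (cond (idl s.dn E)
        (cond (bit E w) false (subm (nth s.dn w) E)) false) false)
        (cond (run leaf cutRow Γ t1 { s with hz := s.hz ++ [⟨true, w, E, p, q⟩] })
          (run leaf cutRow Γ t2 { s with hz := s.hz ++ [⟨false, w, E, p, q⟩] }) false) false
  | .cut w l t, s => match cutRow s w l with
    | none => false
    | some ρ => run leaf cutRow Γ t { s with rw := s.rw ++ [ρ] }
  | .dec X, s => decq s X
  | .cmp A, s => cmpq s A
  | .ref i, s => match Γ[i]? with
    | none => false
    | some a => contq a s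
  | .fin, _ => false

/-- the state which says nothing -/
def root : St := ⟨[], [], [], [], [], []⟩

end Pool.Agent.W3
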