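import Pool.Agent.W3.Bits

/-!
# Soundness of the structural nodes `ask` and `mark`, and of `ltq`
-/

set_option autoImplicit false

namespace Pool.Agent.W3

open Finset

theorem blt_iff {a b : ℕ} : Nat.blt a b = true ↔ a < b := by
  unfold Nat.blt
  rw [Nat.ble_eq]
  exact Nat.succ_le_iff

theorem cond_false_eq {a b : Bool} : cond a b false = true ↔ a = true ∧ b = true := by
  cases a <;> simp

theorem cond_true_eq {a b : Bool} : cond a true b = true ↔ a = true ∨ b = true := by
  cases a <;> simp

theorem unionA_bit {l : List ℕ} {i X a : ℕ} : (unionA l i X).testBit a = true ↔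
    ∃ (j : ℕ) (h : j < l.length), X.testBit (i + j) = true ∧ l[j].testBit a = true := by
  induction l generalizing i with
  | nil => simp [unionA]
  | cons d l ih =>
    have key : (unionA l (i + 1) X).testBit a = true ↔ ∃ (j : ℕ) (h : j < l.length),
        X.testBit (i + (j + 1)) = true ∧ l[j].testBit a = true := by
      rw [ih]
      refine exists_congr fun j => exists_congr fun h => ?_
      rw [show i + 1 + j = i + (j + 1) by ring]
    unfold unionA
    rw [bit_eq]
    constructor
    · intro h
      cases hb : X.testBit i with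
      | false =>
        rw [hb] at h
        obtain ⟨j, hj, h1, h2⟩ := key.mp h
        exact ⟨j + 1, by simpa using hj, h1, h2⟩
      | true =>
        rw [hb] at h
        have h' : (d ||| unionA l (i + 1) X).testBit a = true := h
        rw [Nat.testBit_lor, Bool.or_eq_true] at h'
        rcases h' with h' | h'
        · exact ⟨0, by simp, by simpa using hb, h'⟩
        · obtain ⟨j, hj, h1, h2⟩ := key.mp h'
          exact ⟨j + 1, by simpa using hj, h1, h2⟩
    · rintro ⟨j, hj, h1, h2⟩
      cases j with
      | zero =>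
        rw [Nat.add_zero] at h1
        rw [h1]
        show (d ||| unionA l (i + 1) X).testBit a = true
        rw [Nat.testBit_lor, Bool.or_eq_true]
        exact Or.inl h2
      | succ j =>
        have h3 := key.mpr ⟨j, by simpa using hj, h1, h2⟩
        cases hb : X.testBit i with
        | false => exact h3
        | true =>
          show (d ||| unionA l (i + 1) X).testBit a = true
          rw [Nat.testBit_lor, Bool.or_eq_true]
          exact Or.inr h3

theorem askA_spec {sat l : List ℕ} {i U m : ℕ} (h : askA sat l i U m = true) (j : ℕ)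
    (hj : j < l.length) (h1 : U.testBit (i + j) = true) (h2 : m.testBit (i + j) = false) :
    isSat sat (U ^^^ 2 ^ (i + j)) = true := by
  induction l generalizing i j with
  | nil => exact absurd hj (by simp)
  | cons d l ih =>
    unfold askA at h
    rw [bit_eq, bit_eq] at h
    cases j with
    | zero =>
      rw [Nat.add_zero] at h1 h2 ⊢
      rw [h1, h2] at h
      simp only [cond_true, Bool.not_false] at h
      rw [cond_false_eq] at h
      have h3 := h.1
      have h4 : Nat.shiftLeft 1 i = 2 ^ i := Nat.one_shiftLeft i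
      rw [h4] at h3
      exact h3
    | succ j =>
      have h' : askA sat l (i + 1) U m = true := by
        cases hc : (cond (U.testBit i) (!(m.testBit i)) false) with
        | false => rw [hc] at h; exact h
        | true => rw [hc] at h; simp only [cond_true] at h; exact (cond_false_eq.mp h).2
      have := ih h' j (by simpa using hj) (by rwa [show i + 1 + j = i + (j + 1) by ring])
        (by rwa [show i + 1 + j = i + (j + 1) by ring])
      rwa [show i + 1 + j = i + (j + 1) by ring] at this

variable {V : Type} [DecidableEq V] {r : V → V → Prop} {φ : ℕ → V} {dn sat : List ℕ}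

theorem im_update {k m : ℕ} {v : V} (hm : m < 2 ^ k) : im (Function.update φ k v) m = im φ m := by
  ext u
  rw [mem_im, mem_im]
  refine exists_congr fun i => and_congr_right fun hi => ?_
  have : i ≠ k := (lt_of_bit hm hi).ne
  rw [Function.update_of_ne this]

omit [DecidableEq V] in
theorem upd_lt {k i : ℕ} {v : V} (h : i < k) : Function.update φ k v i = φ i :=
  Function.update_of_ne h.ne v φ

/-- adding a new element -/
theorem Base.add (B : Base r φ dn sat) {U : ℕ} (hU : U < 2 ^ dn.length) {v : V}
    (hv : Unk φ dn.length v) (he : Exact r (im φ U) v) :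
    Base r (Function.update φ dn.length v) (dn ++ [U]) sat := by
  have hl : (dn ++ [U]).length = dn.length + 1 := by simp
  have hval : ∀ (i : ℕ) (h : i < (dn ++ [U]).length),
      (i < dn.length ∧ ∃ h' : i < dn.length, (dn ++ [U])[i] = dn[i]) ∨
      (i = dn.length ∧ (dn ++ [U])[i] = U) := by
    intro i h
    rcases Nat.lt_or_ge i dn.length with h1 | h1
    · exact Or.inl ⟨h1, h1, List.getElem_append_left h1⟩
    · have h2 : i = dn.length := by omega
      refine Or.inr ⟨h2, ?_⟩
      subst h2
      simp
  refine ⟨?_, ?_, ?_, ?_, ?_⟩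
  · intro i hi j hj h
    rw [hl] at hi hj
    rcases Nat.lt_or_ge i dn.length with h1 | h1 <;> rcases Nat.lt_or_ge j dn.length with h2 | h2
    · rw [upd_lt h1, upd_lt h2] at h
      exact B.inj i h1 j h2 h
    · have h3 : j = dn.length := by omega
      rw [upd_lt h1, h3, Function.update_self] at h
      exact absurd h (hv i h1)
    · have h3 : i = dn.length := by omega
      rw [upd_lt h2, h3, Function.update_self] at h
      exact absurd h.symm (hv j h2)
    · omega
  · intro i h
    rcases hval i h with ⟨_, h', e⟩ | ⟨h', e⟩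
    · rw [e]; exact B.lt i h'
    · rw [e, h']; exact hU
  · intro i h
    rcases hval i h with ⟨_, h', e⟩ | ⟨h', e⟩
    · rw [e, im_update (B.lt' i h'), upd_lt h']
      exact B.down i h'
    · rw [e, im_update hU, h', Function.update_self]
      exact he
  · intro D hD
    rw [hl]
    exact lt_of_lt_of_le (B.satlt D hD) (Nat.pow_le_pow_right (by norm_num) (Nat.le_succ _))
  · intro D hD u hu
    rw [im_update (B.satlt D hD)]
    refine B.sat D hD u fun i hi => ?_
    have := hu i (by rw [hl]; omega)
    rwa [upd_lt hi] at this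

variable [Fintype V] {W : World r} {s : St}

theorem Hz.ok_update {h : Hz} {k : ℕ} {v : V} (H : h.ok W φ k) :
    h.ok W (Function.update φ k v) (k + 1) := by
  obtain ⟨h1, h2, h3, h4, h5, h6⟩ := H
  unfold Hz.ok
  rw [im_update h2, upd_lt h1]
  exact ⟨by omega, lt_of_lt_of_le h2 (Nat.pow_le_pow_right (by norm_num) (Nat.le_succ _)),
    h3, h4, h5, h6⟩

theorem Row.ok_update {ρ : Row} {k : ℕ} {v : V} (H : ρ.ok W φ k) :
    ρ.ok W (Function.update φ k v) (k + 1) := by
  have hp : ∀ m : ℕ, m < 2 ^ k → m < 2 ^ (k + 1) := fun m hm =>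
    lt_of_lt_of_le hm (Nat.pow_le_pow_right (by norm_num) (Nat.le_succ _))
  cases ρ with
  | maj a b =>
    obtain ⟨h1, h2, h3⟩ := H
    exact ⟨by omega, by omega, by rw [upd_lt h1, upd_lt h2]; exact h3⟩
  | spn X x c =>
    obtain ⟨h1, h2, h3, h4, h5, h6⟩ := H
    refine ⟨hp _ h1, by omega, ?_⟩
    rw [im_update h1, upd_lt h2]
    exact ⟨h3, h4, h5, h6⟩
  | gen L R =>
    obtain ⟨h1, h2, h3⟩ := H
    refine ⟨fun t ht => ?_, fun t ht => ?_, ?_⟩
    · rw [im_update (h1 t ht).1]
      exact ⟨hp _ (h1 t ht).1, (h1 t ht).2⟩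
    · rw [im_update (h2 t ht).1]
      exact ⟨hp _ (h2 t ht).1, (h2 t ht).2⟩
    · have e1 : (L.map fun t => t.2 * W.G (im (Function.update φ k v) t.1)) =
          L.map fun t => t.2 * W.G (im φ t.1) :=
        List.map_congr_left fun t ht => by rw [im_update (h1 t ht).1]
      have e2 : (R.map fun t => t.2 * W.G (im (Function.update φ k v) t.1)) =
          R.map fun t => t.2 * W.G (im φ t.1) :=
        List.map_congr_left fun t ht => by rw [im_update (h2 t ht).1]
      rw [e1, e2]
      exact h3

/-- the strict down-set of an unknown element, inside `U`, not all of `U`, is inside some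
`U - i`, `i` maximal in `U` -/
theorem Sem.exists_max (S : Sem W φ s) {U : ℕ} (hU : idl s.dn U = true) {v : V}
    (hv : Unk φ s.dn.length v) (hs : ∀ u, r u v → u ≠ v → u ∈ im φ U)
    (hn : ¬ Exact r (im φ U) v) :
    ∃ i, i < s.dn.length ∧ U.testBit i = true ∧ (unionA s.dn 0 U).testBit i = false ∧
      ∀ u, r u v → u ≠ v → u ∈ im φ (U ^^^ 2 ^ i) := by
  classical
  have hU' := (idl_iff.mp hU).1
  -- the elements of `U` which are not below `v`
  set B := (range s.dn.length).filter fun i => U.testBit i = true ∧ ¬ r (φ i) v with hB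
  have hne : B.Nonempty := by
    obtain ⟨u, hu⟩ := not_forall.mp hn
    have hu' : ¬ (r u v ∧ u ≠ v) ∧ u ∈ im φ U := by
      by_cases h : r u v ∧ u ≠ v
      · exact absurd (iff_of_true h (hs u h.1 h.2)) hu
      · by_cases h' : u ∈ im φ U
        · exact ⟨h, h'⟩
        · exact absurd (iff_of_false h h') hu
    obtain ⟨i, hi, rfl⟩ := mem_im.mp hu'.2
    have hik : i < s.dn.length := lt_of_bit hU' hi
    exact ⟨i, mem_filter.mpr ⟨mem_range.mpr hik, hi, fun h => hu'.1 ⟨h, hv i hik⟩⟩⟩
  set i := B.max' hne with hi
  have hiB : i ∈ B := B.max'_mem hne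
  obtain ⟨hik, hiU, hir⟩ := by
    have := mem_filter.mp hiB
    exact (⟨mem_range.mp this.1, this.2.1, this.2.2⟩ :
      i < s.dn.length ∧ U.testBit i = true ∧ ¬ r (φ i) v)
  refine ⟨i, hik, hiU, ?_, ?_⟩
  · cases hb : (unionA s.dn 0 U).testBit i with
    | false => rfl
    | true =>
      exfalso
      obtain ⟨j, hj, h1, h2⟩ := unionA_bit.mp hb
      rw [Nat.zero_add] at h1
      have hij : i < j := lt_of_bit (S.base.lt j hj) h2
      have hrij : r (φ i) (φ j) := ((S.base.down j hj (φ i)).mpr (mem_im.mpr ⟨i, h2, rfl⟩)).1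
      have hjB : j ∈ B := by
        refine mem_filter.mpr ⟨mem_range.mpr hj, h1, fun h => hir ?_⟩
        exact W.po.trans _ _ _ hrij h
      exact absurd (B.le_max' j hjB) (not_le.mpr hij)
  · intro u hu hne'
    obtain ⟨j, hj, rfl⟩ := mem_im.mp (hs u hu hne')
    refine mem_im.mpr ⟨j, ?_, rfl⟩
    rw [Nat.testBit_xor, hj, Nat.testBit_two_pow]
    have : i ≠ j := by
      rintro h
      rw [h] at hir
      exact hir hu
    simp [this]

/-- soundness of the node `ask` -/
theorem ask_sound (S : Sem W φ s) {U : ℕ} (h : askq s U = true) :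
    (∃ φ' : ℕ → V, Sem W φ' { s with dn := s.dn ++ [U] }) ∨
      Sem W φ { s with sat := U :: s.sat } := by
  classical
  unfold askq at h
  rw [cond_false_eq] at h
  obtain ⟨hU, hA⟩ := h
  have hU' := (idl_iff.mp hU).1
  by_cases hex : ∃ v, Unk φ s.dn.length v ∧ Exact r (im φ U) v
  · left
    obtain ⟨v0, hv0⟩ := hex
    obtain ⟨v, hv, hmin⟩ := exists_min_image
      (univ.filter fun v => Unk φ s.dn.length v ∧ Exact r (im φ U) v) W.pos
      ⟨v0, by simpa using hv0⟩
    simp only [mem_filter, mem_univ, true_and] at hv hmin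
    refine ⟨Function.update φ s.dn.length v, ?_⟩
    have hl : (s.dn ++ [U]).length = s.dn.length + 1 := by simp
    have hget : ∀ (i : ℕ) (h : i < (s.dn ++ [U]).length), i < s.dn.length →
        ∃ h' : i < s.dn.length, (s.dn ++ [U])[i] = s.dn[i] := fun i h h1 =>
      ⟨h1, List.getElem_append_left h1⟩
    have hlast : ∀ (i : ℕ) (h : i < (s.dn ++ [U]).length), ¬ i < s.dn.length →
        i = s.dn.length ∧ (s.dn ++ [U])[i] = U := by
      intro i h h1
      have h2 : i = s.dn.length := by omega
      refine ⟨h2, ?_⟩
      subst h2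
      simp
    have hunk : ∀ u, Unk (Function.update φ s.dn.length v) (s.dn.length + 1) u →
        Unk φ s.dn.length u ∧ u ≠ v := by
      intro u hu
      refine ⟨fun i hi => ?_, ?_⟩
      · have := hu i (by omega)
        rwa [upd_lt hi] at this
      · have := hu s.dn.length (by omega)
        rw [Function.update_self] at this
        exact this.symm
    refine ⟨S.base.add hU' hv.1 hv.2, ?_, ?_, ?_, ?_, ?_, ?_⟩
    · intro i h u hu he
      change Unk _ (s.dn ++ [U]).length u at hu
      rw [hl] at hu
      obtain ⟨hu1, hu2⟩ := hunk u hu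
      by_cases h1 : i < s.dn.length
      · obtain ⟨h', e⟩ := hget i h h1
        change Exact r (im _ (s.dn ++ [U])[i]) u at he
        rw [e, im_update (S.base.lt' i h')] at he
        rw [upd_lt h1]
        exact S.mn i h' u hu1 he
      · obtain ⟨h', e⟩ := hlast i h h1
        change Exact r (im _ (s.dn ++ [U])[i]) u at he
        rw [e, im_update hU'] at he
        rw [h', Function.update_self]
        refine lt_of_le_of_ne (hmin u ⟨hu1, he⟩) fun h2 => hu2 (W.pos_inj h2.symm)
    · intro i j hi hj hij he
      change (s.dn ++ [U])[i] = (s.dn ++ [U])[j] at he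
      have hj' : j < (s.dn ++ [U]).length := hj
      have h1 : i < s.dn.length := by omega
      obtain ⟨h', e⟩ := hget i hi h1
      rw [e] at he
      by_cases h2 : j < s.dn.length
      · obtain ⟨h'', e'⟩ := hget j hj h2
        rw [e'] at he
        rw [upd_lt h1, upd_lt h2]
        exact S.tw i j h' h'' hij he
      · obtain ⟨h'', e'⟩ := hlast j hj h2
        rw [e'] at he
        rw [upd_lt h1, h'', Function.update_self]
        refine S.mn i h' v hv.1 ?_
        rw [he]
        exact hv.2
    · intro j h
      have h2 := S.sp j h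
      change s.sp[j] < (s.dn ++ [U]).length ∧ _
      rw [hl]
      refine ⟨by omega, ?_⟩
      change W.pos (Function.update φ s.dn.length v s.sp[j]) = j
      rw [upd_lt h2.1]
      exact h2.2
    · intro p hp
      have h2 := S.mj p hp
      change p.1 < (s.dn ++ [U]).length ∧ p.2 < (s.dn ++ [U]).length ∧ _
      rw [hl]
      refine ⟨by omega, by omega, ?_⟩
      rw [upd_lt h2.1, upd_lt h2.2.1]
      exact h2.2.2
    · intro f hf
      change f.ok W _ (s.dn ++ [U]).length
      rw [hl]
      exact Hz.ok_update (S.hz f hf)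
    · intro ρ hρ
      change ρ.ok W _ (s.dn ++ [U]).length
      rw [hl]
      exact Row.ok_update (S.rw ρ hρ)
  · right
    refine ⟨⟨S.base.inj, S.base.lt, S.base.down, ?_, ?_⟩, S.mn, S.tw, S.sp, S.mj, S.hz, S.rw⟩
    · intro D hD
      rcases List.mem_cons.mp hD with rfl | hD
      · exact hU'
      · exact S.base.satlt D hD
    · intro D hD v hv
      rcases List.mem_cons.mp hD with rfl | hD
      · by_contra hcon
        push Not at hcon
        obtain ⟨i, hi, hiU, him, hsub⟩ := S.exists_max hU hv hcon fun he => hex ⟨v, hv, he⟩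
        have h1 := askA_spec hA i hi (by rwa [Nat.zero_add]) (by rwa [Nat.zero_add])
        rw [Nat.zero_add] at h1
        obtain ⟨u, hu1, hu2, hu3⟩ := S.base.isSat h1 hv
        exact hu3 (hsub u hu1 hu2)
      · exact S.base.sat D hD v hv

/-- soundness of the node `mark` -/
theorem mark_sound (S : Sem W φ s) {D i j l : ℕ} (h : markq s D i j l = true) :
    Sem W φ { s with sat := D :: s.sat } := by
  unfold markq at h
  simp only [cond_false_eq, blt_iff] at h
  obtain ⟨hD, ⟨hij, hjl, hl⟩, h1⟩ := h
  have hj : j < s.dn.length := hjl.trans hl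
  have hi : i < s.dn.length := hij.trans hj
  have hbits : bit D i = false ∧ bit D j = false ∧ bit D l = false ∧
      bit (nth s.dn j) i = false ∧ bit (nth s.dn l) i = false ∧ bit (nth s.dn l) j = false := by
    cases h2 : bit D i <;> cases h3 : bit D j <;> cases h4 : bit D l <;>
      cases h5 : bit (nth s.dn j) i <;> cases h6 : bit (nth s.dn l) i <;>
      cases h7 : bit (nth s.dn l) j <;> simp_all
  obtain ⟨bi, bj, bl, b1, b2, b3⟩ := hbits
  rw [bit_eq] at bi bj bl b1 b2 b3
  rw [nth_eq hj] at b1
  rw [nth_eq hl] at b2 b3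
  refine ⟨⟨S.base.inj, S.base.lt, S.base.down, ?_, ?_⟩, S.mn, S.tw, S.sp, S.mj, S.hz, S.rw⟩
  · intro D' hD'
    rcases List.mem_cons.mp hD' with rfl | hD'
    · exact (idl_iff.mp hD).1
    · exact S.base.satlt D' hD'
  · intro D' hD' v hv
    rcases List.mem_cons.mp hD' with rfl | hD'
    swap
    · exact S.base.sat D' hD' v hv
    by_contra hcon
    push Not at hcon
    have hDlt := (idl_iff.mp hD).1
    -- known elements outside `D'` are incomparable to `v`
    have hkv : ∀ a, a < s.dn.length → D'.testBit a = false → ¬ r (φ a) v ∧ ¬ r v (φ a) := by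
      intro a ha hb
      refine ⟨fun h => ?_, fun h => ?_⟩
      · have := hcon (φ a) h (hv a ha)
        rw [S.base.mem_iff hDlt ha, hb] at this
        exact Bool.false_ne_true this
      · exact S.base.known_down (fun h' => h' a ha rfl) h hv
    have hkk : ∀ a b, a < b → (hb : b < s.dn.length) → s.dn[b].testBit a = false →
        φ a ≠ φ b ∧ ¬ r (φ a) (φ b) ∧ ¬ r (φ b) (φ a) := by
      intro a b hab hb hbit
      have ha : a < s.dn.length := hab.trans hb
      have hne : φ a ≠ φ b := fun h => hab.ne (S.base.inj a ha b hb h)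
      refine ⟨hne, fun h => ?_, fun h => ?_⟩
      · have := (S.base.down b hb (φ a)).mp ⟨h, hne⟩
        rw [S.base.mem_iff (S.base.lt' b hb) ha, hbit] at this
        exact Bool.false_ne_true this
      · have := (S.base.down a ha (φ b)).mp ⟨h, hne.symm⟩
        rw [S.base.mem_iff (S.base.lt' a ha) hb] at this
        exact absurd (lt_of_bit (S.base.lt a ha) this) (not_lt.mpr hab.le)
    obtain ⟨n1, r1, r1'⟩ := hkk i j hij hj b1
    obtain ⟨n2, r2, r2'⟩ := hkk i l (hij.trans hjl) hl b2
    obtain ⟨n3, r3, r3'⟩ := hkk j l hjl hl b3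
    obtain ⟨vi, vi'⟩ := hkv i hi bi
    obtain ⟨vj, vj'⟩ := hkv j hj bj
    obtain ⟨vl, vl'⟩ := hkv l hl bl
    have hcard := W.wid {v, φ i, φ j, φ l} (by
      intro a ha b hb hab
      simp only [mem_insert, mem_singleton] at ha hb
      rcases ha with rfl | rfl | rfl | rfl <;> rcases hb with rfl | rfl | rfl | rfl <;>
        first | exact absurd rfl hab | assumption)
    have : ({v, φ i, φ j, φ l} : Finset V).card = 4 := by
      rw [card_insert_of_notMem, card_insert_of_notMem, card_insert_of_notMem, card_singleton]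
      · simpa using n3
      · simp only [mem_insert, mem_singleton, not_or]
        exact ⟨n1, n2⟩
      · simp only [mem_insert, mem_singleton, not_or]
        exact ⟨fun h => hv i hi h.symm, fun h => hv j hj h.symm, fun h => hv l hl h.symm⟩
    omega

end Pool.Agent.W3
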