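import Pool.Agent.W3.Sound1

/-!
# Soundness of `ltq`, of the spine node and of the other small nodes
-/

set_option autoImplicit false

namespace Pool.Agent.W3

open Finset

theorem mjb_iff {l : List (ℕ × ℕ)} {a b : ℕ} : mjb l a b = true ↔ (a, b) ∈ l := by
  induction l with
  | nil => simp [mjb]
  | cons p l ih =>
    unfold mjb
    rw [cond_true_eq, cond_false_eq, nbeq, nbeq, ih, List.mem_cons]
    constructor
    · rintro (⟨h1, h2⟩ | h)
      · left; rw [← h1, ← h2]
      · exact Or.inr h
    · rintro (h | h)
      · left; rw [← h]; exact ⟨rfl, rfl⟩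
      · exact Or.inr h

theorem spb_spec {l : List ℕ} {a b : ℕ} (h : spb l a b = true) :
    ∃ (j : ℕ) (hj : j < l.length), l[j] = a ∧ ∀ (i : ℕ) (hi : i < l.length), i ≤ j → l[i] ≠ b := by
  induction l with
  | nil => exact absurd h (by simp [spb])
  | cons x l ih =>
    unfold spb at h
    cases h1 : Nat.beq x b with
    | true => rw [h1] at h; exact absurd h (by simp)
    | false =>
      rw [h1] at h
      have hxb : x ≠ b := fun h' => by rw [nbeq.mpr h'] at h1; exact Bool.false_ne_true h1.symm
      simp only [cond_false] at h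
      rw [cond_true_eq, nbeq] at h
      rcases h with h | h
      · refine ⟨0, by simp, h, fun i hi hi' => ?_⟩
        have : i = 0 := by omega
        subst this
        exact hxb
      · obtain ⟨j, hj, h2, h3⟩ := ih h
        refine ⟨j + 1, by simpa using hj, h2, fun i hi hi' => ?_⟩
        cases i with
        | zero => exact hxb
        | succ i => exact h3 i (by simpa using hi) (by omega)

variable {V : Type} [Fintype V] [DecidableEq V] {r : V → V → Prop} {W : World r} {φ : ℕ → V}
  {s : St}

theorem Sem.pos_ne (S : Sem W φ s) {a b : ℕ} (ha : a < s.dn.length) (hb : b < s.dn.length)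
    (h : a ≠ b) : W.pos (φ a) ≠ W.pos (φ b) :=
  fun h' => h (S.base.inj a ha b hb (W.pos_inj h'))

theorem Sem.rel (S : Sem W φ s) {a b : ℕ} (hb : b < s.dn.length)
    (h : s.dn[b].testBit a = true) : r (φ a) (φ b) ∧ φ a ≠ φ b :=
  (S.base.down b hb (φ a)).mpr (mem_im.mpr ⟨a, h, rfl⟩)

theorem Sem.pos_lt (S : Sem W φ s) {u v : V} (h : r u v) (hne : u ≠ v) : W.pos u < W.pos v :=
  lt_of_le_of_ne (W.pos_mono u v h) fun h' => hne (W.pos_inj h')

/-- soundness of `ltq` -/
theorem Sem.ltq (S : Sem W φ s) {a b : ℕ} (h : ltq s a b = true) :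
    a < s.dn.length ∧ b < s.dn.length ∧ W.pos (φ a) < W.pos (φ b) := by
  unfold Pool.Agent.W3.ltq at h
  rw [cond_false_eq, cond_false_eq, blt_iff, blt_iff] at h
  obtain ⟨⟨ha, hb⟩, h⟩ := h
  refine ⟨ha, hb, ?_⟩
  rw [cond_true_eq, cond_true_eq, cond_true_eq, cond_false_eq, bit_eq, blt_iff, nbeq,
    mjb_iff] at h
  rcases h with h | h | h | ⟨h, h'⟩
  · exact (S.mj _ h).2.2
  · obtain ⟨j, hj, h1, h2⟩ := spb_spec h
    have h3 := (S.sp j hj).2
    rw [h1] at h3
    by_contra hcon
    rw [h3, not_lt] at hcon
    have h4 : W.pos (φ b) < s.sp.length := lt_of_le_of_lt hcon hj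
    have h5 := S.sp _ h4
    have h6 := S.base.inj _ h5.1 b hb (W.pos_inj h5.2)
    exact h2 _ h4 hcon h6
  · rw [nth_eq hb] at h
    have := S.rel hb h
    exact S.pos_lt this.1 this.2
  · rw [nth_eq ha, nth_eq hb] at h'
    exact S.tw a b ha hb h h'

theorem maj_sound (S : Sem W φ s) {a b : ℕ} (ha : a < s.dn.length) (hb : b < s.dn.length)
    (h : a ≠ b) : Sem W φ { s with mj := (a, b) :: s.mj } ∨
      Sem W φ { s with mj := (b, a) :: s.mj } := by
  rcases lt_or_gt_of_ne (S.pos_ne ha hb h) with h1 | h1
  · left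
    refine ⟨S.base, S.mn, S.tw, S.sp, fun p hp => ?_, S.hz, S.rw⟩
    rcases List.mem_cons.mp hp with rfl | hp
    · exact ⟨ha, hb, h1⟩
    · exact S.mj p hp
  · right
    refine ⟨S.base, S.mn, S.tw, S.sp, fun p hp => ?_, S.hz, S.rw⟩
    rcases List.mem_cons.mp hp with rfl | hp
    · exact ⟨hb, ha, h1⟩
    · exact S.mj p hp

theorem tr_sound (S : Sem W φ s) {a b c : ℕ} (h1 : ltq s a b = true) (h2 : ltq s b c = true) :
    Sem W φ { s with mj := (a, c) :: s.mj } := by
  refine ⟨S.base, S.mn, S.tw, S.sp, fun p hp => ?_, S.hz, S.rw⟩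
  rcases List.mem_cons.mp hp with rfl | hp
  · exact ⟨(S.ltq h1).1, (S.ltq h2).2.1, (S.ltq h1).2.2.trans (S.ltq h2).2.2⟩
  · exact S.mj p hp

theorem con_sound (S : Sem W φ s) {a b : ℕ} (h1 : ltq s a b = true) (h2 : ltq s b a = true) :
    False :=
  absurd ((S.ltq h1).2.2.trans (S.ltq h2).2.2) (lt_irrefl _)

/-- adding the element `w` to the mask `E` -/
theorem im_insert {E w : ℕ} : im φ (Nat.lor E (Nat.shiftLeft 1 w)) = insert (φ w) (im φ E) := by
  ext v
  rw [mem_insert, mem_im, mem_im]
  have hb : ∀ i, (Nat.lor E (Nat.shiftLeft 1 w)).testBit i = true ↔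
      (E.testBit i = true ∨ w = i) := by
    intro i
    show (E ||| 1 <<< w).testBit i = true ↔ _
    rw [Nat.testBit_lor, Nat.one_shiftLeft, Nat.testBit_two_pow, Bool.or_eq_true,
      decide_eq_true_eq]
  constructor
  · rintro ⟨i, hi, rfl⟩
    rcases (hb i).mp hi with h | h
    · exact Or.inr ⟨i, h, rfl⟩
    · left; rw [h]
  · rintro (rfl | ⟨i, hi, rfl⟩)
    · exact ⟨w, (hb w).mpr (Or.inr rfl), rfl⟩
    · exact ⟨i, (hb i).mpr (Or.inl hi), rfl⟩

theorem lor_lt {E w k : ℕ} (hE : E < 2 ^ k) (hw : w < k) :
    Nat.lor E (Nat.shiftLeft 1 w) < 2 ^ k := by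
  apply lt_two_pow_of_bits
  intro i hi
  have : (E ||| 1 <<< w).testBit i = true := hi
  rw [Nat.testBit_lor, Nat.one_shiftLeft, Nat.testBit_two_pow, Bool.or_eq_true,
    decide_eq_true_eq] at this
  rcases this with h | h
  · exact lt_of_bit hE h
  · rw [← h]; exact hw

/-- the set `E + w` is a down-set -/
theorem Sem.dn_insert (S : Sem W φ s) {E w : ℕ} (hw : w < s.dn.length)
    (hE : idl s.dn E = true) (h : subm (nth s.dn w) E = true) :
    Dn r (insert (φ w) (im φ E)) := by
  intro v hv u hu
  rw [mem_insert] at hv ⊢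
  rcases hv with rfl | hv
  · by_cases he : u = φ w
    · exact Or.inl he
    · right
      rw [nth_eq hw] at h
      exact im_mono h ((S.base.down w hw u).mp ⟨hu, he⟩)
  · exact Or.inr (S.base.dn_im hE v hv u hu)

theorem haz_sound (S : Sem W φ s) {w E p q : ℕ} (hw : w < s.dn.length)
    (hE : idl s.dn E = true) (hb : bit E w = false) (h : subm (nth s.dn w) E = true) :
    Sem W φ { s with hz := s.hz ++ [⟨true, w, E, p, q⟩] } ∨
      Sem W φ { s with hz := s.hz ++ [⟨false, w, E, p, q⟩] } := by
  have hlt := (idl_iff.mp hE).1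
  have hn : φ w ∉ im φ E := by
    rw [S.base.mem_iff hlt hw, ← bit_eq, hb]
    exact Bool.false_ne_true
  rcases le_total (p * W.G (im φ E)) (q * W.G (insert (φ w) (im φ E))) with h1 | h1
  · left
    refine ⟨S.base, S.mn, S.tw, S.sp, S.mj, fun f hf => ?_, S.rw⟩
    rcases List.mem_append.mp hf with hf | hf
    · exact S.hz f hf
    · rw [List.mem_singleton] at hf
      subst hf
      refine ⟨hw, hlt, S.base.dn_im hE, hn, S.dn_insert hw hE h, ?_⟩
      rw [if_pos rfl]
      exact h1
  · right
    refine ⟨S.base, S.mn, S.tw, S.sp, S.mj, fun f hf => ?_, S.rw⟩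
    rcases List.mem_append.mp hf with hf | hf
    · exact S.hz f hf
    · rw [List.mem_singleton] at hf
      subst hf
      refine ⟨hw, hlt, S.base.dn_im hE, hn, S.dn_insert hw hE h, ?_⟩
      rw [if_neg Bool.false_ne_true]
      exact h1

/-- soundness of the rows of hazard facts -/
theorem hzRow_sound (S : Sem W φ s) {h : Hz} (hh : h ∈ s.hz) {E : ℕ} {ρ : Row}
    (hρ : hzRow s h E = some ρ) : ρ.ok W φ s.dn.length := by
  obtain ⟨hw, hElt, hDE, hwE, hDw, hf⟩ := S.hz h hh
  unfold hzRow at hρ
  cases hc : (cond (idl s.dn E) (cond (bit E h.w) false (subm (nth s.dn h.w) E)) false) with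
  | false => rw [hc] at hρ; exact absurd hρ (by simp)
  | true =>
    rw [hc, cond_true] at hρ
    rw [cond_false_eq] at hc
    obtain ⟨hE, hc⟩ := hc
    have hbit : bit E h.w = false := by
      cases hb : bit E h.w with
      | false => rfl
      | true => rw [hb] at hc; exact absurd hc (by simp)
    rw [hbit, cond_false] at hc
    have hlt := (idl_iff.mp hE).1
    have hn : φ h.w ∉ im φ E := by
      rw [S.base.mem_iff hlt hw, ← bit_eq, hbit]
      exact Bool.false_ne_true
    have hDE' := S.base.dn_im hE
    have hDw' := S.dn_insert hw hE hc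
    have hlt' : Nat.lor E (Nat.shiftLeft 1 h.w) < 2 ^ s.dn.length := lor_lt hlt hw
    have hG0 : 0 < W.G (im φ h.E) := W.G_pos _ hDE
    cases hup : h.up with
    | true =>
      rw [hup, cond_true] at hρ
      rw [if_pos hup] at hf
      cases hs : subm h.E E with
      | false => rw [hs] at hρ; exact absurd hρ (by simp)
      | true =>
        rw [hs, cond_true] at hρ
        have hρ' := Option.some.inj hρ
        subst hρ'
        refine ⟨?_, ?_, ?_⟩
        · intro t ht
          rw [List.mem_singleton] at ht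
          subst ht
          exact ⟨hlt, hDE'⟩
        · intro t ht
          rw [List.mem_singleton] at ht
          subst ht
          exact ⟨hlt', by rw [im_insert]; exact hDw'⟩
        · simp only [List.map_cons, List.map_nil, List.sum_cons, List.sum_nil, add_zero]
          rw [im_insert]
          have h1 := W.haz (im φ h.E) (im φ E) (φ h.w) hDE hDE' (im_mono hs) hn hDw
          refine Nat.le_of_mul_le_mul_right ?_ hG0
          calc h.p * W.G (im φ E) * W.G (im φ h.E)
              = (h.p * W.G (im φ h.E)) * W.G (im φ E) := by ring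
            _ ≤ (h.q * W.G (insert (φ h.w) (im φ h.E))) * W.G (im φ E) :=
                Nat.mul_le_mul_right _ hf
            _ = h.q * (W.G (insert (φ h.w) (im φ h.E)) * W.G (im φ E)) := by ring
            _ ≤ h.q * (W.G (insert (φ h.w) (im φ E)) * W.G (im φ h.E)) :=
                Nat.mul_le_mul_left _ h1
            _ = h.q * W.G (insert (φ h.w) (im φ E)) * W.G (im φ h.E) := by ring
    | false =>
      rw [hup, cond_false] at hρ
      rw [if_neg (by rw [hup]; exact Bool.false_ne_true)] at hf
      cases hs : subm E h.E with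
      | false => rw [hs] at hρ; exact absurd hρ (by simp)
      | true =>
        rw [hs, cond_true] at hρ
        have hρ' := Option.some.inj hρ
        subst hρ'
        refine ⟨?_, ?_, ?_⟩
        · intro t ht
          rw [List.mem_singleton] at ht
          subst ht
          exact ⟨hlt', by rw [im_insert]; exact hDw'⟩
        · intro t ht
          rw [List.mem_singleton] at ht
          subst ht
          exact ⟨hlt, hDE'⟩
        · simp only [List.map_cons, List.map_nil, List.sum_cons, List.sum_nil, add_zero]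
          rw [im_insert]
          have h1 := W.haz (im φ E) (im φ h.E) (φ h.w) hDE' hDE (im_mono hs) hwE hDw'
          refine Nat.le_of_mul_le_mul_right ?_ hG0
          calc h.q * W.G (insert (φ h.w) (im φ E)) * W.G (im φ h.E)
              = h.q * (W.G (insert (φ h.w) (im φ E)) * W.G (im φ h.E)) := by ring
            _ ≤ h.q * (W.G (insert (φ h.w) (im φ h.E)) * W.G (im φ E)) :=
                Nat.mul_le_mul_left _ h1
            _ = (h.q * W.G (insert (φ h.w) (im φ h.E))) * W.G (im φ E) := by ring
            _ ≤ (h.p * W.G (im φ h.E)) * W.G (im φ E) := Nat.mul_le_mul_right _ hf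
            _ = h.p * W.G (im φ E) * W.G (im φ h.E) := by ring

theorem jrow_sound (S : Sem W φ s) {j : J} {ρ : Row} (h : jrow s j = some ρ) :
    ρ.ok W φ s.dn.length := by
  cases j with
  | mj a b =>
    simp only [jrow] at h
    cases hc : ltq s a b with
    | false => rw [hc] at h; exact absurd h (by simp)
    | true =>
      rw [hc, cond_true] at h
      rw [← Option.some.inj h]
      exact S.ltq hc
  | rw i =>
    simp only [jrow] at h
    exact S.rw ρ (List.mem_of_getElem? h)
  | hz i E =>
    simp only [jrow] at h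
    cases hi : s.hz[i]? with
    | none => rw [hi] at h; exact absurd h (by simp)
    | some f =>
      rw [hi] at h
      exact hzRow_sound S (List.mem_of_getElem? hi) h

theorem jrows_sound (S : Sem W φ s) {l : List (J × ℕ)} {l' : List (Row × ℕ)}
    (h : jrows s l = some l') : ∀ ρ ∈ l', ρ.1.ok W φ s.dn.length := by
  induction l generalizing l' with
  | nil =>
    simp only [jrows] at h
    rw [← Option.some.inj h]
    intro ρ hρ
    exact absurd hρ (by simp)
  | cons j l ih =>
    simp only [jrows] at h
    cases h1 : jrow s j.1 with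
    | none => rw [h1] at h; exact absurd h (by simp)
    | some ρ =>
      cases h2 : jrows s l with
      | none => rw [h1, h2] at h; exact absurd h (by simp)
      | some l2 =>
        rw [h1, h2] at h
        rw [← Option.some.inj h]
        intro σ hσ
        rcases List.mem_cons.mp hσ with rfl | hσ
        · exact jrow_sound S h1
        · exact ih h2 σ hσ

end Pool.Agent.W3
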