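import Pool.Agent.W3.Sound3

/-!
# Soundness of the checker
-/

set_option autoImplicit false

namespace Pool.Agent.W3

open Finset

theorem decA_spec {l : List ℕ} {i X : ℕ} (h : decA l i X = true) (j : ℕ) (hj : j < l.length)
    (h1 : X.testBit (i + j) = false) (h2 : subm l[j] X = true) : l[j] = X := by
  induction l generalizing i j with
  | nil => exact absurd hj (by simp)
  | cons d l ih =>
    rw [show decA (d :: l) i X = cond (cond (bit X i) false (subm d X))
      (cond (Nat.beq d X) (decA l (i + 1) X) false) (decA l (i + 1) X) from rfl, bit_eq] at h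
    cases j with
    | zero =>
      rw [Nat.add_zero] at h1
      have h2' : subm d X = true := h2
      rw [h1, cond_false, h2', cond_true, cond_false_eq, nbeq] at h
      exact h.1
    | succ j =>
      have h' : decA l (i + 1) X = true := by
        cases hc : (cond (X.testBit i) false (subm d X)) with
        | false => rw [hc] at h; exact h
        | true => rw [hc, cond_true, cond_false_eq] at h; exact h.2
      exact ih h' j (by simpa using hj) (by rwa [show i + 1 + j = i + (j + 1) by ring]) h2

theorem chainA_spec {l : List ℕ} {i m : ℕ} (h : chainA l i m = true) (j : ℕ)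
    (hj : j < l.length) (h1 : m.testBit (i + j) = true) (a : ℕ) (ha : a < i + j)
    (h2 : m.testBit a = true) : l[j].testBit a = true := by
  induction l generalizing i j with
  | nil => exact absurd hj (by simp)
  | cons d l ih =>
    rw [show chainA (d :: l) i m = cond (bit m i)
      (cond (subm (Nat.mod m (Nat.shiftLeft 1 i)) d) (chainA l (i + 1) m) false)
      (chainA l (i + 1) m) from rfl, bit_eq] at h
    cases j with
    | zero =>
      rw [Nat.add_zero] at h1 ha
      rw [h1, cond_true, cond_false_eq] at h
      refine subm_iff.mp h.1 a ?_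
      show (m % (1 <<< i)).testBit a = true
      rw [Nat.one_shiftLeft, Nat.testBit_mod_two_pow, h2]
      simp [ha]
    | succ j =>
      have h' : chainA l (i + 1) m = true := by
        cases hc : m.testBit i with
        | false => rw [hc] at h; exact h
        | true => rw [hc, cond_true, cond_false_eq] at h; exact h.2
      exact ih h' j (by simpa using hj) (by rwa [show i + 1 + j = i + (j + 1) by ring])
        (by omega)

theorem eqL_iff {l m : List ℕ} : eqL l m = true ↔ l = m := by
  induction l generalizing m with
  | nil => cases m <;> simp [eqL]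
  | cons x l ih =>
    cases m with
    | nil => simp [eqL]
    | cons y m =>
      simp only [eqL]
      rw [cond_false_eq, nbeq, ih, List.cons.injEq]

theorem eqLL_iff {l m : List (ℕ × ℕ)} : eqLL l m = true ↔ l = m := by
  induction l generalizing m with
  | nil => cases m <;> simp [eqLL]
  | cons x l ih =>
    cases m with
    | nil => simp [eqLL]
    | cons y m =>
      simp only [eqLL]
      rw [cond_false_eq, cond_false_eq, nbeq, nbeq, ih, List.cons.injEq, Prod.ext_iff, and_assoc]

theorem eqH_iff {a b : Hz} (h : eqH a b = true) : a = b := by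
  unfold eqH at h
  rw [cond_false_eq, cond_false_eq, cond_false_eq, cond_false_eq, nbeq, nbeq, nbeq, nbeq] at h
  obtain ⟨h1, h2, h3, h4, h5⟩ := h
  cases a; cases b
  simp only at h1 h2 h3 h4 h5
  rename_i u _ _ _ _ u' _ _ _ _
  have : u = u' := by
    cases u <;> cases u' <;> simp_all
  simp [this, h2, h3, h4, h5]

theorem eqR_iff {a b : Row} (h : eqR a b = true) : a = b := by
  cases a <;> cases b <;> simp only [eqR] at h
  · rw [cond_false_eq, nbeq, nbeq] at h
    rw [h.1, h.2]
  · exact absurd h Bool.false_ne_true
  · exact absurd h Bool.false_ne_true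
  · exact absurd h Bool.false_ne_true
  · rw [cond_false_eq, cond_false_eq, nbeq, nbeq, nbeq] at h
    rw [h.1, h.2.1, h.2.2]
  · exact absurd h Bool.false_ne_true
  · exact absurd h Bool.false_ne_true
  · exact absurd h Bool.false_ne_true
  · rw [cond_false_eq, eqLL_iff, eqLL_iff] at h
    rw [h.1, h.2]

theorem full_bit {k i : ℕ} : (Nat.shiftLeft 1 k - 1).testBit i = decide (i < k) := by
  have h : Nat.shiftLeft 1 k = 2 ^ k := Nat.one_shiftLeft k
  rw [h, Nat.testBit_two_pow_sub_one]

variable {V : Type} [Fintype V] [DecidableEq V] {r : V → V → Prop} {W : World r} {φ : ℕ → V}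
  {s : St}

theorem World.indec_ne (W : World r) {X : Finset V} (hX : Dn r X) (h0 : X ≠ ∅)
    (h1 : X ≠ univ) (h : ∀ a ∈ nx r X, ∀ x ∈ X, r x a) : False := by
  obtain ⟨a, ha, b, hb, hn⟩ := W.indec X hX h0 h1
  obtain ⟨c, hc, hcb⟩ := W.exists_nx hX hb
  exact hn (W.po.trans _ _ _ (h c hc a ha) hcb)

theorem dec_sound (S : Sem W φ s) {X : ℕ} (h : decq s X = true) : False := by
  unfold decq at h
  rw [cond_false_eq, cond_false_eq] at h
  obtain ⟨hX, hsat, h⟩ := h
  have hlt := (idl_iff.mp hX).1
  have hD := S.base.dn_im hX
  cases h0 : Nat.beq X 0 with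
  | true =>
    rw [nbeq] at h0
    rw [h0] at h hsat hD hlt
    simp only [Nat.beq_refl, cond_true] at h
    rw [im_zero] at hD
    cases hA : addA s.dn 0 0 with
    | nil => rw [hA] at h; exact absurd h (by simp)
    | cons x l =>
      cases l with
      | cons y l => rw [hA] at h; exact absurd h (by simp)
      | nil =>
        have hnx := S.nx_eq hlt (by rw [im_zero]; exact hD) hsat
        rw [hA, im_zero] at hnx
        have hnx' : nx r (∅ : Finset V) = {φ x} := by
          rw [hnx]
          simp
        have hDx : Dn r ({φ x} : Finset V) := by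
          have := (mem_nx'.mp (show φ x ∈ nx r (∅ : Finset V) by rw [hnx']; simp)).2
          simpa using this
        refine W.indec_ne hDx (by simp) ?_ ?_
        · intro hu
          obtain ⟨t, ht, ht3⟩ := W.anti
          have h4 : t.card ≤ ({φ x} : Finset V).card := card_le_card (by rw [hu]; exact subset_univ _)
          rw [card_singleton] at h4
          omega
        · intro a ha y hy
          rw [mem_singleton] at hy
          rw [hy]
          obtain ⟨c, hc, hca⟩ := W.exists_nx hD (notMem_empty a)
          rw [hnx', mem_singleton] at hc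
          rw [← hc]
          exact hca
  | false =>
    rw [h0, cond_false] at h
    cases h1 : Nat.beq X (Nat.shiftLeft 1 s.dn.length - 1) with
    | true => rw [h1] at h; exact absurd h (by simp)
    | false =>
      rw [h1, cond_false] at h
      refine W.indec_ne hD ?_ ?_ ?_
      · intro he
        have hX0 : X = 0 := by
          apply Nat.eq_of_testBit_eq
          intro i
          rw [Nat.zero_testBit]
          cases hb : X.testBit i with
          | false => rfl
          | true =>
            have : φ i ∈ im φ X := mem_im.mpr ⟨i, hb, rfl⟩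
            rw [he] at this
            exact absurd this (notMem_empty _)
        rw [nbeq.mpr hX0] at h0
        exact Bool.false_ne_true h0.symm
      · intro he
        have hX1 : X = Nat.shiftLeft 1 s.dn.length - 1 := by
          apply Nat.eq_of_testBit_eq
          intro i
          rw [full_bit]
          by_cases hi : i < s.dn.length
          · rw [decide_eq_true hi, ← S.base.mem_iff hlt hi, he]
            exact mem_univ _
          · rw [decide_eq_false hi]
            cases hb : X.testBit i with
            | false => rfl
            | true => exact absurd (lt_of_bit hlt hb) hi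
        rw [nbeq.mpr hX1] at h1
        exact Bool.false_ne_true h1.symm
      · intro a ha x hx
        rw [S.nx_eq hlt hD hsat, mem_image] at ha
        obtain ⟨i, hi, rfl⟩ := ha
        rw [List.mem_toFinset] at hi
        obtain ⟨hik, hiX, his⟩ := S.addA_lt hi
        rw [nth_eq hik] at his
        have h2 := decA_spec h i hik (by rwa [Nat.zero_add]) his
        obtain ⟨j, hj, rfl⟩ := mem_im.mp hx
        rw [← h2] at hj
        exact (S.rel hik hj).1

theorem cmp_sound (S : Sem W φ s) {A : ℕ} (h : cmpq s A = true) : False := by
  classical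
  unfold cmpq at h
  simp only [cond_false_eq] at h
  obtain ⟨hsat, _, h1, h2⟩ := h
  set K := Nat.shiftLeft 1 s.dn.length - 1 with hK
  -- all elements are known
  have hall : ∀ v, ∃ i, i < s.dn.length ∧ φ i = v := by
    intro v
    by_contra hcon
    have hv : Unk φ s.dn.length v := fun i hi he => hcon ⟨i, hi, he⟩
    obtain ⟨w, hw, hmin⟩ := exists_min_image (univ.filter fun v => Unk φ s.dn.length v) W.pos
      ⟨v, by simpa using hv⟩
    simp only [mem_filter, mem_univ, true_and] at hw hmin
    obtain ⟨u, hu1, hu2, hu3⟩ := S.base.isSat hsat hw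
    have hu : Unk φ s.dn.length u := by
      intro i hi he
      apply hu3
      refine mem_im.mpr ⟨i, ?_, he⟩
      rw [hK, full_bit]
      exact decide_eq_true hi
    exact absurd (hmin u hu) (not_le.mpr (S.pos_lt hu1 hu2))
  -- two elements of the same chain are comparable
  have hcomp : ∀ m, chainA s.dn 0 m = true → ∀ i j, i < s.dn.length → j < s.dn.length →
      m.testBit i = true → m.testBit j = true → r (φ i) (φ j) ∨ r (φ j) (φ i) := by
    intro m hm i j hi hj hi' hj'
    rcases lt_trichotomy i j with h3 | h3 | h3
    · left
      exact (S.rel hj (chainA_spec hm j hj (by rwa [Nat.zero_add]) i (by omega) hi')).1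
    · left; rw [h3]; exact W.po.refl _
    · right
      exact (S.rel hi (chainA_spec hm i hi (by rwa [Nat.zero_add]) j (by omega) hj')).1
  obtain ⟨t, ht, ht3⟩ := W.anti
  choose g hg1 hg2 using hall
  -- the colour of an element
  have hmaps : ∀ v ∈ t, (A.testBit (g v)) ∈ (univ : Finset Bool) := fun v _ => mem_univ _
  obtain ⟨a, ha, b, hb, hab, hc⟩ := exists_ne_map_eq_of_card_lt_of_maps_to
    (s := t) (t := (univ : Finset Bool)) (f := fun v => A.testBit (g v))
    (by rw [ht3]; decide) hmaps
  have hKb : ∀ v, (Nat.xor K A).testBit (g v) = !(A.testBit (g v)) := by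
    intro v
    show (K ^^^ A).testBit (g v) = _
    rw [Nat.testBit_xor, hK, full_bit, decide_eq_true (hg1 v), Bool.true_xor]
  have hr : r a b ∨ r b a := by
    cases hA : A.testBit (g a) with
    | true =>
      have := hcomp A h1 (g a) (g b) (hg1 a) (hg1 b) hA (by rw [← hA]; exact hc.symm)
      rwa [hg2, hg2] at this
    | false =>
      have h3 : (Nat.xor K A).testBit (g a) = true := by rw [hKb, hA]; rfl
      have h4 : (Nat.xor K A).testBit (g b) = true := by
        rw [hKb, ← show A.testBit (g a) = A.testBit (g b) from hc, hA]; rfl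
      have := hcomp _ h2 (g a) (g b) (hg1 a) (hg1 b) h3 h4
      rwa [hg2, hg2] at this
  rcases hr with hr | hr
  · exact ht a ha b hb hab hr
  · exact ht b hb a ha hab.symm hr

theorem ref_sound (S : Sem W φ s) {a : St} (h : contq a s = true) : Sem W φ a := by
  unfold contq at h
  simp only [cond_false_eq, eqL_iff, List.all_eq_true, List.any_eq_true] at h
  obtain ⟨h1, h2, h3, h4, h5, h6, _⟩ := h
  refine ⟨⟨?_, ?_, ?_, ?_, ?_⟩, ?_, ?_, ?_, ?_, ?_, ?_⟩
  · rw [h1]; exact S.base.inj
  · intro i hi
    have := S.base.lt i (by rw [← h1]; exact hi)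
    simp only [h1]
    exact this
  · intro i hi
    have := S.base.down i (by rw [← h1]; exact hi)
    simp only [h1]
    exact this
  · intro D hD
    obtain ⟨T, hT, hDT⟩ := isSat_iff.mp (h3 D hD)
    rw [h1]
    exact lt_two_pow_of_bits fun i hi => lt_of_bit (S.base.satlt T hT) (subm_iff.mp hDT i hi)
  · intro D hD v hv
    rw [h1] at hv
    exact S.base.isSat (h3 D hD) hv
  · intro i hi v hv he
    rw [h1] at hv
    simp only [h1] at he
    exact S.mn i (by rw [← h1]; exact hi) v hv he
  · intro i j hi hj hij he
    simp only [h1] at he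
    exact S.tw i j (by rw [← h1]; exact hi) (by rw [← h1]; exact hj) hij he
  · intro j hj
    have := S.sp j (by rw [← h2]; exact hj)
    simp only [h2, h1]
    exact this
  · intro p hp
    rw [h1]
    exact S.ltq (h4 p hp)
  · intro f hf
    obtain ⟨g, hg, he⟩ := h5 f hf
    rw [eqH_iff he, h1]
    exact S.hz g hg
  · intro ρ hρ
    obtain ⟨σ, hσ, he⟩ := h6 ρ hρ
    rw [eqR_iff he, h1]
    exact S.rw σ hσ

/-- soundness wanted from the function which computes the row of a cut -/
def CutSound (cutRow : St → ℕ → List (ℕ × ℕ) → Option Row) : Prop :=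
  ∀ (V : Type) [Fintype V] [DecidableEq V] (r : V → V → Prop) (W : World r) (φ : ℕ → V)
    (s : St) (w : ℕ) (l : List (ℕ × ℕ)) (ρ : Row),
    Sem W φ s → cutRow s w l = some ρ → ρ.ok W φ s.dn.length

theorem addRow {s : St} (S : Sem W φ s) {ρ : Row} (h : ρ.ok W φ s.dn.length) :
    Sem W φ { s with rw := s.rw ++ [ρ] } := by
  refine ⟨S.base, S.mn, S.tw, S.sp, S.mj, S.hz, fun σ hσ => ?_⟩
  rcases List.mem_append.mp hσ with hσ | hσ
  · exact S.rw σ hσ
  · rw [List.mem_singleton] at hσ
    rw [hσ]
    exact h

/-- soundness of the checker -/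
theorem run_sound {leaf : List ℕ → List ℕ → List ℕ → List ℕ → List ℕ → List (Row × ℕ) → Bool}
    {cutRow : St → ℕ → List (ℕ × ℕ) → Option Row} (hleaf : LeafSound leaf)
    (hcut : CutSound cutRow) {Γ : List St} (hΓ : ∀ a ∈ Γ, Bad a) (t : Tree) :
    ∀ s : St, run leaf cutRow Γ t s = true → Bad s := by
  induction t with
  | lp c1 c2 c3 l =>
    intro s h V _ _ r W φ S
    simp only [run] at h
    cases h1 : jrows s l with
    | none => rw [h1] at h; exact Bool.false_ne_true h
    | some l' =>
      rw [h1] at h
      exact hleaf V r W φ c1 c2 c3 s.dn s.sat l' S.base (jrows_sound S h1) h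
  | ask U y n ihy ihn =>
    intro s h V _ _ r W φ S
    simp only [run] at h
    rw [cond_false_eq, cond_false_eq] at h
    rcases ask_sound S h.1 with ⟨φ', S'⟩ | S'
    · exact ihy _ h.2.1 V r W φ' S'
    · exact ihn _ h.2.2 V r W φ S'
  | mark D i j l t ih =>
    intro s h V _ _ r W φ S
    simp only [run] at h
    rw [cond_false_eq] at h
    exact ih _ h.2 V r W φ (mark_sound S h.1)
  | spn t1 t2 t3 ih1 ih2 ih3 =>
    intro s h V _ _ r W φ S
    simp only [run] at h
    rw [cond_false_eq] at h
    obtain ⟨hs, h⟩ := h
    have key := fun hne => spn_sound S hs hne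
    match hA : addA s.dn 0 (maskL s.sp), h, key with
    | [], h, _ => exact Bool.false_ne_true h
    | [x], h, key =>
      obtain ⟨z, hz, S'⟩ := key (by simp)
      rw [List.mem_singleton] at hz
      subst hz
      exact ih1 _ h V r W φ S'
    | [x, y], h, key =>
      simp only [cond_false_eq] at h
      obtain ⟨z, hz, S'⟩ := key (by simp)
      rcases List.mem_cons.mp hz with rfl | hz
      · exact ih1 _ h.1 V r W φ S'
      · rw [List.mem_singleton] at hz
        subst hz
        exact ih2 _ h.2 V r W φ S'
    | [x, y, z], h, key =>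
      simp only [cond_false_eq] at h
      obtain ⟨w, hw, S'⟩ := key (by simp)
      rcases List.mem_cons.mp hw with rfl | hw
      · exact ih1 _ h.1 V r W φ S'
      · rcases List.mem_cons.mp hw with rfl | hw
        · exact ih2 _ h.2.1 V r W φ S'
        · rw [List.mem_singleton] at hw
          subst hw
          exact ih3 _ h.2.2 V r W φ S'
    | _ :: _ :: _ :: _ :: _, h, _ => exact Bool.false_ne_true h
  | maj a b t1 t2 ih1 ih2 =>
    intro s h V _ _ r W φ S
    simp only [run] at h
    rw [cond_false_eq, cond_false_eq, cond_false_eq, cond_false_eq, blt_iff, blt_iff] at h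
    obtain ⟨⟨ha, hb, hab⟩, h1, h2⟩ := h
    have hne : a ≠ b := by
      intro he
      rw [nbeq.mpr he] at hab
      exact Bool.false_ne_true hab
    rcases maj_sound S ha hb hne with S' | S'
    · exact ih1 _ h1 V r W φ S'
    · exact ih2 _ h2 V r W φ S'
  | tr a b c t ih =>
    intro s h V _ _ r W φ S
    simp only [run] at h
    rw [cond_false_eq, cond_false_eq] at h
    exact ih _ h.2.2 V r W φ (tr_sound S h.1 h.2.1)
  | con a b =>
    intro s h V _ _ r W φ S
    simp only [run] at h
    rw [cond_false_eq] at h
    exact con_sound S h.1 h.2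
  | haz w E p q t1 t2 ih1 ih2 =>
    intro s h V _ _ r W φ S
    simp only [run] at h
    rw [cond_false_eq, cond_false_eq, cond_false_eq, cond_false_eq, blt_iff] at h
    obtain ⟨⟨hw, hE, hc⟩, h1, h2⟩ := h
    have hb : bit E w = false := by
      cases hb : bit E w with
      | false => rfl
      | true => rw [hb] at hc; exact absurd hc (by simp)
    rw [hb, cond_false] at hc
    rcases haz_sound (p := p) (q := q) S hw hE hb hc with S' | S'
    · exact ih1 _ h1 V r W φ S'
    · exact ih2 _ h2 V r W φ S'
  | cut w l t ih =>
    intro s h V _ _ r W φ S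
    simp only [run] at h
    cases h1 : cutRow s w l with
    | none => rw [h1] at h; exact Bool.false_ne_true h
    | some ρ =>
      rw [h1] at h
      exact ih _ h V r W φ (addRow S (hcut V r W φ s w l ρ S h1))
  | dec X =>
    intro s h V _ _ r W φ S
    simp only [run] at h
    exact dec_sound S h
  | cmp A =>
    intro s h V _ _ r W φ S
    simp only [run] at h
    exact cmp_sound S h
  | ref i =>
    intro s h V _ _ r W φ S
    simp only [run] at h
    cases h1 : Γ[i]? with
    | none => rw [h1] at h; exact Bool.false_ne_true h
    | some a =>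
      rw [h1] at h
      exact hΓ a (List.mem_of_getElem? h1) V r W φ (ref_sound S h)
  | fin =>
    intro s h
    simp only [run] at h
    exact absurd h Bool.false_ne_true

/-- the root state says nothing -/
theorem sem_root (W : World r) : ∃ φ : ℕ → V, Sem W φ root := by
  obtain ⟨t, _, ht3⟩ := W.anti
  have hne : t.Nonempty := by
    rw [← card_pos, ht3]; norm_num
  obtain ⟨v, _⟩ := hne
  refine ⟨fun _ => v, ⟨?_, ?_, ?_, ?_, ?_⟩, ?_, ?_, ?_, ?_, ?_, ?_⟩
  · intro i hi; exact absurd hi (Nat.not_lt_zero i)
  · intro i hi; exact absurd hi (Nat.not_lt_zero i)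
  · intro i hi; exact absurd hi (Nat.not_lt_zero i)
  · intro D hD; exact absurd hD (by simp [root])
  · intro D hD; exact absurd hD (by simp [root])
  · intro i hi; exact absurd hi (Nat.not_lt_zero i)
  · intro i j hi; exact absurd hi (Nat.not_lt_zero i)
  · intro j hj; exact absurd hj (Nat.not_lt_zero j)
  · intro p hp; exact absurd hp (by simp [root])
  · intro p hp; exact absurd hp (by simp [root])
  · intro p hp; exact absurd hp (by simp [root])

/-- if the root is bad, there is no world -/
theorem no_world (h : Bad root) (W : World r) : False := by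
  obtain ⟨φ, S⟩ := sem_root W
  exact h V r W φ S

end Pool.Agent.W3
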