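import Pool.Agent.W3.World

/-!
# States of the finite search and their meaning

A state describes a finite down-set `K` of the poset whose elements are numbered `0, ..., k - 1`
in the order of discovery (a linear extension of `K`), together with facts about the poset.
Sets of known elements are bitmasks.
-/

set_option autoImplicit false

namespace Pool.Agent.W3

open Finset

/-- the set of the bits of a mask -/
def bs (m : ℕ) : Finset ℕ := (range m).filter fun i => m.testBit i = true

theorem mem_bs {m i : ℕ} : i ∈ bs m ↔ m.testBit i = true := by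
  unfold bs
  rw [mem_filter, mem_range]
  refine ⟨fun h => h.2, fun h => ⟨?_, h⟩⟩
  exact lt_of_lt_of_le Nat.lt_two_pow_self (Nat.ge_two_pow_of_testBit h)

/-- a hazard fact: for `up = true` it says `p * G E ≤ q * G (E + w)`, for `up = false` it says
`q * G (E + w) ≤ p * G E` -/
structure Hz where
  up : Bool
  w : ℕ
  E : ℕ
  p : ℕ
  q : ℕ

/-- the rows of the linear certificates -/
inductive Row where
  /-- `500 * ∑ e D * G (D + b) ≤ 167 * G ∅`, `D` without `a, b` -/
  | maj (a b : ℕ)
  /-- `c * G ∅ ≤ 10 ^ 6 * (e X * G (X + x))` -/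
  | spn (X x c : ℕ)
  /-- the sum of `c * G m`, `(m, c)` in `L`, is at most the same sum for `R` -/
  | gen (L R : List (ℕ × ℕ))

/-- a state of the search -/
structure St where
  /-- exact strict down-sets of the known elements -/
  dn : List ℕ
  /-- saturated down-sets: no unknown element has its strict down-set inside -/
  sat : List ℕ
  /-- the first elements of the majority order -/
  sp : List ℕ
  /-- pairs `(a, b)`, `a` before `b` in the majority order -/
  mj : List (ℕ × ℕ)
  /-- hazard facts -/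
  hz : List Hz
  /-- other rows which are known to hold (the spine facts) -/
  rw : List Row

variable {V : Type}

/-- the set of elements named by a mask -/
def im [DecidableEq V] (φ : ℕ → V) (m : ℕ) : Finset V := (bs m).image φ

theorem mem_im [DecidableEq V] {φ : ℕ → V} {m : ℕ} {v : V} :
    v ∈ im φ m ↔ ∃ i, m.testBit i = true ∧ φ i = v := by
  simp only [im, mem_image, mem_bs]

/-- `v` is unknown -/
def Unk (φ : ℕ → V) (k : ℕ) (v : V) : Prop := ∀ i < k, φ i ≠ v

/-- the strict down-set of `v` is `D` -/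
def Exact (r : V → V → Prop) (D : Finset V) (v : V) : Prop := ∀ u, (r u v ∧ u ≠ v) ↔ u ∈ D

/-- the structural part of the meaning of a state: the known elements and their down-sets,
the saturated down-sets -/
structure Base [DecidableEq V] (r : V → V → Prop) (φ : ℕ → V) (dn sat : List ℕ) : Prop where
  inj : ∀ i < dn.length, ∀ j < dn.length, φ i = φ j → i = j
  lt : ∀ (i : ℕ) (h : i < dn.length), dn[i] < 2 ^ i
  down : ∀ (i : ℕ) (h : i < dn.length), Exact r (im φ dn[i]) (φ i)
  satlt : ∀ D ∈ sat, D < 2 ^ dn.length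
  sat : ∀ D ∈ sat, ∀ v, Unk φ dn.length v → ∃ u, r u v ∧ u ≠ v ∧ u ∉ im φ D

variable [Fintype V] [DecidableEq V] {r : V → V → Prop}

/-- the meaning of a hazard fact -/
def Hz.ok (W : World r) (φ : ℕ → V) (k : ℕ) (h : Hz) : Prop :=
  h.w < k ∧ h.E < 2 ^ k ∧ Dn r (im φ h.E) ∧ φ h.w ∉ im φ h.E ∧
    Dn r (insert (φ h.w) (im φ h.E)) ∧
    (if h.up = true then h.p * W.G (im φ h.E) ≤ h.q * W.G (insert (φ h.w) (im φ h.E))
      else h.q * W.G (insert (φ h.w) (im φ h.E)) ≤ h.p * W.G (im φ h.E))

/-- the meaning of a row -/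
def Row.ok (W : World r) (φ : ℕ → V) (k : ℕ) : Row → Prop
  | .maj a b => a < k ∧ b < k ∧ W.pos (φ a) < W.pos (φ b)
  | .spn X x c => X < 2 ^ k ∧ x < k ∧ Dn r (im φ X) ∧ φ x ∉ im φ X ∧
      Dn r (insert (φ x) (im φ X)) ∧
      c * W.G ∅ ≤ 1000000 * (W.e (im φ X) * W.G (insert (φ x) (im φ X)))
  | .gen L R => (∀ t ∈ L, t.1 < 2 ^ k ∧ Dn r (im φ t.1)) ∧
      (∀ t ∈ R, t.1 < 2 ^ k ∧ Dn r (im φ t.1)) ∧
      (L.map fun t => t.2 * W.G (im φ t.1)).sum ≤ (R.map fun t => t.2 * W.G (im φ t.1)).sum

/-- the meaning of a state -/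
structure Sem (W : World r) (φ : ℕ → V) (s : St) : Prop where
  base : Base r φ s.dn s.sat
  /-- among the elements with a given strict down-set the known ones come first -/
  mn : ∀ (i : ℕ) (h : i < s.dn.length), ∀ v, Unk φ s.dn.length v → Exact r (im φ s.dn[i]) v →
    W.pos (φ i) < W.pos v
  /-- known elements with the same strict down-set are in the order of discovery -/
  tw : ∀ (i j : ℕ) (hi : i < s.dn.length) (hj : j < s.dn.length), i < j → s.dn[i] = s.dn[j] →
    W.pos (φ i) < W.pos (φ j)
  sp : ∀ (j : ℕ) (h : j < s.sp.length), s.sp[j] < s.dn.length ∧ W.pos (φ s.sp[j]) = j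
  mj : ∀ p ∈ s.mj, p.1 < s.dn.length ∧ p.2 < s.dn.length ∧ W.pos (φ p.1) < W.pos (φ p.2)
  hz : ∀ h ∈ s.hz, h.ok W φ s.dn.length
  rw : ∀ ρ ∈ s.rw, ρ.ok W φ s.dn.length

/-- a state which describes no world -/
def Bad (s : St) : Prop :=
  ∀ (V : Type) [Fintype V] [DecidableEq V] (r : V → V → Prop) (W : World r) (φ : ℕ → V),
    ¬ Sem W φ s

/-- WANTED from the leaf (helper61, helper90): for a kernel-friendly `leaf`,
`leaf c1 c2 c3 dn sat rows = true`, `Base`, and all rows true imply `False` -/
def LeafSound (leaf : List ℕ → List ℕ → List ℕ → List ℕ → List ℕ → List (Row × ℕ) → Bool) :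
    Prop :=
  ∀ (V : Type) [Fintype V] [DecidableEq V] (r : V → V → Prop) (W : World r) (φ : ℕ → V)
    (c1 c2 c3 dn sat : List ℕ) (rows : List (Row × ℕ)),
    Base r φ dn sat → (∀ ρ ∈ rows, ρ.1.ok W φ dn.length) →
      leaf c1 c2 c3 dn sat rows = true → False

end Pool.Agent.W3
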